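import Pool.Agent.PGc.UFun

/-! # Module Crit: the critical curve -/

set_option linter.unusedSectionVars false

namespace PGr
open Set

theorem scr_pos {t : ℝ} (h0 : 0 < t) (h1 : t < 1) : 0 < scr t := by
  unfold scr
  have : 0 < 1 - t := by linarith
  positivity

theorem ecr_pos {t : ℝ} (h0 : 0 < t) (h1 : t < 1) : 0 < ecr t := by
  unfold ecr
  have : 0 < 1 - t := by linarith
  positivity

theorem scr_strictAntiOn : StrictAntiOn scr (Ioo 0 1) := by
  intro x hx y hy hxy
  have hx0 := hx.1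
  have hx1 := hx.2
  have hy0 := hy.1
  have hy1 := hy.2
  have key : ∀ t : ℝ, 0 < t → scr t = ((1 / t - 1) ^ 2 * (1 / t + 2 - 3 * t)) / 16 := by
    intro t ht
    unfold scr
    field_simp
    ring
  rw [key x hx0, key y hy0]
  have h1 : 1 / y < 1 / x := one_div_lt_one_div_of_lt hx0 hxy
  have h2 : 1 < 1 / y := by rw [lt_div_iff₀ hy0]; linarith
  have h3 : (1 / y - 1) ^ 2 < (1 / x - 1) ^ 2 := by nlinarith
  have h4 : 1 / y + 2 - 3 * y < 1 / x + 2 - 3 * x := by linarith
  have h5 : 0 < 1 / y + 2 - 3 * y := by linarith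
  have h6 : (1 / y - 1) ^ 2 * (1 / y + 2 - 3 * y) < (1 / x - 1) ^ 2 * (1 / x + 2 - 3 * x) :=
    mul_lt_mul'' h3 h4 (sq_nonneg _) h5.le
  linarith

theorem ecr_strictMonoOn : StrictMonoOn ecr (Ioo 0 1) := by
  intro x hx y hy hxy
  have hx0 := hx.1
  have hx1 := hx.2
  have hy0 := hy.1
  have hy1 := hy.2
  have a1 : 0 < 1 - x := by linarith
  have a2 : 0 < 1 - y := by linarith
  unfold ecr
  rw [div_lt_div_iff₀ (by positivity) (by positivity)]
  -- x²(1-y)(1+3y) < y²(1-x)(1+3x)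
  have h1 : 0 < (y - x) * (x + y + 2 * x * y) := mul_pos (by linarith) (by positivity)
  nlinarith

theorem scr_continuousOn : ContinuousOn scr (Ioo 0 1) := by
  unfold scr
  refine ContinuousOn.div (by fun_prop) (by fun_prop) fun t ht => ?_
  have := ht.1
  positivity

theorem ecr_continuousOn : ContinuousOn ecr (Ioo 0 1) := by
  unfold ecr
  refine ContinuousOn.div (by fun_prop) (by fun_prop) fun t ht => ?_
  have := ht.1
  have : 0 < 1 - t := by linarith [ht.2]
  positivity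

/-- intermediate value theorem: `scr t ≥ 1 / (20 t ^ 3)`-like bounds near `0`, `scr t → 0` for `t → 1` -/
theorem scr_surj {s : ℝ} (hs : 0 < s) : ∃ t, 0 < t ∧ t < 1 ∧ scr t = s := by
  set t1 : ℝ := 1 / (2 + 128 * s) with ht1
  set t2 : ℝ := 1 - min (1 / 2) (s / 2) with ht2
  have hp1 : 0 < t1 := by positivity
  have hle1 : t1 ≤ 1 / 2 := by
    rw [ht1]
    apply one_div_le_one_div_of_le (by norm_num)
    linarith
  have hm : 0 < min (1 / 2) (s / 2) := lt_min (by norm_num) (by linarith)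
  have hm1 : min (1 / 2) (s / 2) ≤ 1 / 2 := min_le_left _ _
  have hm2 : min (1 / 2) (s / 2) ≤ s / 2 := min_le_right _ _
  have hge2 : 1 / 2 ≤ t2 := by rw [ht2]; linarith
  have hlt2 : t2 < 1 := by rw [ht2]; linarith
  have hab : t1 ≤ t2 := hle1.trans hge2
  have hcont : ContinuousOn scr (Icc t1 t2) :=
    scr_continuousOn.mono fun t ht => ⟨hp1.trans_le ht.1, ht.2.trans_lt hlt2⟩
  have hiv := intermediate_value_Icc' hab hcont
  have hup : s ≤ scr t1 := by
    have h1 : 1 / (128 * t1) ≤ scr t1 := by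
      unfold scr
      rw [div_le_div_iff₀ (by positivity) (by positivity)]
      have h2 : (1 / 2 : ℝ) ^ 3 ≤ (1 - t1) ^ 3 := pow_le_pow_left₀ (by norm_num) (by linarith) 3
      have h3 : (1 / 2 : ℝ) ^ 3 ≤ (1 + 3 * t1) * (1 - t1) ^ 3 := by
        nlinarith [pow_pos (by linarith : (0 : ℝ) < 1 - t1) 3]
      have h4 : t1 ^ 2 ≤ 1 := by nlinarith
      have h5 : t1 ^ 3 ≤ t1 := by
        have : t1 ^ 3 = t1 ^ 2 * t1 := by ring
        nlinarith
      nlinarith
    have h6 : 1 / (128 * t1) = (2 + 128 * s) / 128 := by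
      rw [ht1]
      field_simp
    rw [h6] at h1
    linarith
  have hdn : scr t2 ≤ s := by
    have h0 : 0 < 1 - t2 := by linarith
    have h1 : scr t2 ≤ 2 * (1 - t2) := by
      unfold scr
      rw [div_le_iff₀ (by positivity)]
      have h2 : (1 / 2 : ℝ) ^ 3 ≤ t2 ^ 3 := pow_le_pow_left₀ (by norm_num) hge2 3
      have h3 : (1 - t2) ^ 3 ≤ 1 - t2 := by
        have h4 : (1 - t2) ^ 2 ≤ 1 := by nlinarith
        have h5 : (1 - t2) ^ 3 = (1 - t2) ^ 2 * (1 - t2) := by ring
        nlinarith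
      have h6 : (1 + 3 * t2) * (1 - t2) ^ 3 ≤ 4 * (1 - t2) := by
        have h7 : 0 < (1 - t2) ^ 3 := by positivity
        nlinarith
      nlinarith
    have h8 : 1 - t2 = min (1 / 2) (s / 2) := by rw [ht2]; ring
    rw [h8] at h1
    linarith
  obtain ⟨t, ht, hst⟩ := hiv ⟨hdn, hup⟩
  exact ⟨t, hp1.trans_le ht.1, ht.2.trans_lt hlt2, hst⟩

/-- by `uf_unique` -/
theorem uf_crit {t : ℝ} (h0 : 0 < t) (h1 : t < 1) : uf (scr t) t = (1 - t) / (1 + 3 * t) := by
  have a1 : 0 < 1 - t := by linarith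
  symm
  apply uf_unique (scr_pos h0 h1) h0 h1
  · positivity
  · rw [div_lt_one (by positivity)]
    linarith
  · have h2 : 1 - (1 - t) / (1 + 3 * t) = 4 * t / (1 + 3 * t) := by
      field_simp
      ring
    rw [h2]
    unfold scr
    field_simp
    ring

theorem Ef_crit {t : ℝ} (h0 : 0 < t) (h1 : t < 1) : Ef (scr t) t = ecr t := by
  have a1 : 1 - t ≠ 0 := by linarith
  unfold Ef ecr
  rw [uf_crit h0 h1]
  have h2 : 1 - (1 - t) / (1 + 3 * t) - t = 3 * t * (1 - t) / (1 + 3 * t) := by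
    field_simp
    ring
  rw [h2]
  field_simp

theorem half_lt {t : ℝ} (h0 : 0 < t) (h1 : t < 1) (h : scr t ≤ 1 / 10) : 1 / 2 < t := by
  by_contra hle
  push Not at hle
  have h2 : scr (1 / 2) ≤ scr t := by
    rcases hle.lt_or_eq with h3 | h3
    · exact (scr_strictAntiOn ⟨h0, h1⟩ ⟨by norm_num, by norm_num⟩ h3).le
    · rw [h3]
  have h3 : scr (1 / 2) = 5 / 32 := by
    unfold scr
    norm_num
  rw [h3] at h2
  linarith

end PGr
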