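import Pool.Agent.PGc.RgExpl

/-! # Module RgTop: `Rg` is infinite beyond the critical point -/

set_option linter.unusedSectionVars false

namespace PGr
open Set Filter Topology
open scoped ENNReal

/-- Proof: otherwise `f(E) = Rg s E` (`s = scr t`) is real analytic on `(0, E)`, `E > ecr t`
(`nonneg_series_analytic`), so its second derivative is bounded near `ecr t`.  For `v < t`, by `Rg_expl`,
`Yf v = (E - s E^2/(1 + s E) - E^2/(1+E) - f(E))` at `E = Ef v`, and `Yf' = H(v) Ef'` with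
`H(v) = (1 - u)^2 (1 - v)^2`, `u = uf s v` (divide the formulas of `Yf_hasDerivAt`, `Ef_hasDerivAt`; `qf > 0`).  So
`H(v) = K(Ef v)` with `K` = derivative of `E - s E^2/(1+sE) - E^2/(1+E) - f(E)`, which is Lipschitz near `ecr t`:
`H(v) - H(t) ≤ L (ecr t - Ef v)` for `v < t` close to `t`.  But `Ef' (t) = 0` (`qf_crit`), so
`(ecr t - Ef v)/(t - v) → 0`, while `(H(v) - H(t))/(t - v) → -H'(t) > 0` (`uf` has a positive derivative). -/
theorem Rg_top {t : ℝ} (h0 : 0 < t) (h1 : t < 1) (hs : scr t ≤ 1 / 10) {E : ℝ} (hE : ecr t < E) :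
    Rg (ENNReal.ofReal (scr t)) (ENNReal.ofReal E) = ⊤ := by
  by_contra hne
  have hs0 := scr_pos h0 h1
  have he0 := ecr_pos h0 h1
  have hcrit := Ef_crit h0 h1
  have hmono := Ef_strictMonoOn h0 h1
  have hE0 : 0 < E := he0.trans hE
  have hexpl := fun v (hv : 0 < v) (hv' : v < t) => Rg_expl h0 h1 hs hv hv'
  set s : ℝ := scr t with hsdef
  rw [Rg_series] at hne
  set c : ℕ → ℝ≥0∞ := rc' (ENNReal.ofReal s) with hc
  set f : ℝ → ℝ := fun z => (∑' n, c n * ENNReal.ofReal z ^ n).toReal with hf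
  have hfa : ∀ x, 0 < x → x < E → AnalyticAt ℝ f x := fun x hx hx' =>
    nonneg_series_analytic c hE0 hne hx hx'
  set K0 : ℝ → ℝ := fun z => z - s * z ^ 2 / (1 + s * z) - z ^ 2 / (1 + z) - f z with hK0
  have hK0a : ∀ x, 0 < x → x < E → AnalyticAt ℝ K0 x := by
    intro x hx hx'
    refine AnalyticAt.sub (AnalyticAt.sub (analyticAt_id.sub ?_) ?_) (hfa x hx hx')
    · refine (analyticAt_const.mul (analyticAt_id.pow 2)).div
        (analyticAt_const.add (analyticAt_const.mul analyticAt_id)) ?_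
      positivity
    · refine (analyticAt_id.pow 2).div (analyticAt_const.add analyticAt_id) ?_
      positivity
  -- the identity below the critical point
  have hrange : ∀ v, 0 < v → v < t → 0 < Ef s v ∧ Ef s v < ecr t := by
    intro v hv hv'
    constructor
    · have := hmono (left_mem_Icc.2 h0.le) ⟨hv.le, hv'.le⟩ hv
      rwa [Ef_zero] at this
    · rw [← hcrit]
      exact hmono ⟨hv.le, hv'.le⟩ (right_mem_Icc.2 h0.le) hv'
  have hid : ∀ v, 0 < v → v < t → Yf s v = K0 (Ef s v) := by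
    intro v hv hv'
    obtain ⟨a1, a2⟩ := hexpl v hv hv'
    rw [Rg_series] at a2
    have a3 : f (Ef s v) = Rf s v := by
      simp only [hf]
      rw [a2, ENNReal.toReal_ofReal a1]
    simp only [hK0]
    rw [a3]
    unfold Rf
    ring
  -- derivatives
  have hder : ∀ v, 0 < v → v < t → deriv K0 (Ef s v) = (1 - uf s v) ^ 2 * (1 - v) ^ 2 := by
    intro v hv hv'
    have hv1 : v < 1 := hv'.trans h1
    obtain ⟨b1, b2⟩ := hrange v hv hv'
    have hu := uf_pos hs0 hv hv1
    have hq := qf_pos (t := t) hv hv' h1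
    have d1 : HasDerivAt (Yf s) ((1 - uf s v) ^ 2 * qf s v / ((1 + uf s v) * (1 - v))) v :=
      Yf_hasDerivAt hs0 hv hv1
    have d2 : HasDerivAt (Ef s) (qf s v / ((1 + uf s v) * (1 - v) ^ 3)) v :=
      Ef_hasDerivAt hs0 hv hv1
    have d3 : HasDerivAt K0 (deriv K0 (Ef s v)) (Ef s v) :=
      (hK0a _ b1 (b2.trans hE)).differentiableAt.hasDerivAt
    have d4 := d3.comp v d2
    have heq : (K0 ∘ Ef s) =ᶠ[𝓝 v] Yf s := by
      filter_upwards [Ioo_mem_nhds hv hv'] with w hw
      exact (hid w hw.1 hw.2).symm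
    have d5 := (d1.congr_of_eventuallyEq heq).unique d4
    have hv2 : 0 < 1 - v := by linarith
    have hu2 : 0 < 1 + uf s v := by linarith
    have hq' : qf s v ≠ 0 := hq.ne'
    field_simp at d5
    linarith
  -- the contradiction at the critical point
  set H : ℝ → ℝ := fun v => (1 - uf s v) ^ 2 * (1 - v) ^ 2 with hH
  have hut := uf_pos hs0 h0 h1
  have hut1 := uf_lt_one hs0 h0 h1
  set u' : ℝ := uf s t * (1 - uf s t) * (1 + t) / ((1 + uf s t) * t * (1 - t)) with hu'
  have hu'0 : 0 < u' := by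
    have a1 : 0 < 1 - uf s t := by linarith
    have a2 : 0 < 1 - t := by linarith
    rw [hu']
    positivity
  have dH : HasDerivAt H (2 * (1 - uf s t) * (-u') * (1 - t) ^ 2 +
      (1 - uf s t) ^ 2 * (2 * (1 - t) * (-1))) t := by
    have e1 : HasDerivAt (fun v => 1 - uf s v) (-u') t := (uf_hasDerivAt hs0 h0 h1).const_sub 1
    have e2 : HasDerivAt (fun v : ℝ => 1 - v) (-1) t := by
      simpa using (hasDerivAt_id t).const_sub 1
    have e3 := (e1.pow 2).mul (e2.pow 2)
    refine e3.congr_deriv ?_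
    simp
  have hqc : qf s t = 0 := qf_crit h0 h1
  have dE : HasDerivAt (Ef s) 0 t := by
    have := Ef_hasDerivAt hs0 h0 h1
    rwa [hqc, zero_div] at this
  have hKa : AnalyticAt ℝ (deriv K0) (ecr t) := (hK0a _ he0 hE).deriv
  have dK : HasDerivAt (deriv K0) (deriv (deriv K0) (Ef s t)) (Ef s t) := by
    rw [hcrit]
    exact hKa.differentiableAt.hasDerivAt
  have dKE := dK.comp t dE
  rw [mul_zero] at dKE
  set D : ℝ → ℝ := fun v => H v - (deriv K0 ∘ Ef s) v with hD
  have dD : HasDerivAt D (2 * (1 - uf s t) * (-u') * (1 - t) ^ 2 +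
      (1 - uf s t) ^ 2 * (2 * (1 - t) * (-1)) - 0) t := dH.sub dKE
  have hDz : ∀ v, 0 < v → v < t → D v = 0 := by
    intro v hv hv'
    simp only [hD, hH, Function.comp]
    rw [hder v hv hv', sub_self]
  have hev : ∀ᶠ v in 𝓝[<] t, D v = 0 := by
    filter_upwards [Ioo_mem_nhdsLT h0] with v hv
    exact hDz v hv.1 hv.2
  have hDt : D t = 0 := by
    have l1 : Tendsto D (𝓝[<] t) (𝓝 (D t)) := dD.continuousAt.tendsto.mono_left nhdsWithin_le_nhds
    have l2 : Tendsto D (𝓝[<] t) (𝓝 0) := by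
      refine tendsto_const_nhds.congr' ?_
      filter_upwards [hev] with v hv
      exact hv.symm
    exact tendsto_nhds_unique l1 l2
  have hev2 : D =ᶠ[𝓝[≤] t] fun _ => 0 := by
    filter_upwards [Ioc_mem_nhdsLE h0] with v hv
    rcases hv.2.lt_or_eq with h | h
    · exact hDz v hv.1 h
    · rw [h]; exact hDt
  have w1 : HasDerivWithinAt D (2 * (1 - uf s t) * (-u') * (1 - t) ^ 2 +
      (1 - uf s t) ^ 2 * (2 * (1 - t) * (-1)) - 0) (Iic t) t := dD.hasDerivWithinAt
  have w2 : HasDerivWithinAt D 0 (Iic t) t :=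
    (hasDerivWithinAt_const t (Iic t) (0 : ℝ)).congr_of_eventuallyEq hev2 hDt
  have hfin := UniqueDiffWithinAt.eq_deriv (Iic t) (uniqueDiffOn_Iic t t (le_refl t)) w1 w2
  have a1 : 0 < 1 - uf s t := by linarith
  have a2 : 0 < 1 - t := by linarith
  have a3 : 0 < 2 * (1 - uf s t) * u' * (1 - t) ^ 2 := by positivity
  have a4 : 0 < (1 - uf s t) ^ 2 * (2 * (1 - t)) := by positivity
  linarith

end PGr
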