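import Pool.Agent.PGc.CDefs
import Pool.Agent.PGr.NoPinch
import Pool.Agent.PGr.SerExcl

/-! # Module PrefType: a map with a prefix is a series or a parallel composition -/

set_option linter.unusedSectionVars false

namespace PGr
open Equiv Finset

section
variable {T : Type*} [Fintype T] [DecidableEq T]

/-- the number of boundary corners of `A` on a cycle is even -/
theorem PrefType_even (s : Perm T) (A : Finset T) (t : T) :
    Even ((univ.filter fun x => s.SameCycle t x) ∩ bd s A).card := by
  have h1 := sum_cycle_eq_zero s (fun x => if x ∈ A then (1 : ZMod 2) else 0) t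
  have h2 : ∀ x, (if x ∈ A then (1 : ZMod 2) else 0) + (if s x ∈ A then (1 : ZMod 2) else 0) =
      if x ∈ bd s A then 1 else 0 := by
    intro x
    simp only [mem_bd]
    by_cases h3 : x ∈ A <;> by_cases h4 : s x ∈ A <;> simp [h3, h4] <;> decide
  simp only [h2] at h1
  rw [← Finset.sum_filter] at h1
  rw [← ZMod.natCast_eq_zero_iff_even]
  rw [← h1, Finset.sum_const, nsmul_eq_mul, mul_one, Finset.filter_mem_eq_inter]

/-- an even cardinality with an element has another one -/
theorem PrefType_two {S : Finset T} (h : Even S.card) {x : T} (hx : x ∈ S) :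
    2 ≤ S.card ∧ ∃ y ∈ S, y ≠ x := by
  have h0 : 0 < S.card := card_pos.2 ⟨x, hx⟩
  have h2 : 2 ≤ S.card := by
    obtain ⟨k, hk⟩ := h
    omega
  refine ⟨h2, ?_⟩
  obtain ⟨y, hy, hne⟩ := exists_mem_ne (by omega : 1 < S.card) x
  exact ⟨y, hy, hne⟩

theorem PrefType_bd_dual {a s : Perm T} {A : Finset T} (hA : Cl a A) : bd (a * s) A = bd s A := by
  ext x
  rw [mem_bd, mem_bd, Perm.mul_apply, hA]

end

/-- if the root dart `inr true` is not preceded by an element of `A`, and neither is `inr false`, then
`inr false` is followed by one -/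
theorem PrefType_next {M : BMap} (hM : M.IsGood) {A : Finset M.T} (h : Pref M A)
    (h1 : M.s⁻¹ (Sum.inr true) ∉ A) (h2 : M.s⁻¹ (Sum.inr false) ∉ A) : M.s (Sum.inr false) ∈ A := by
  by_contra h3
  have hR : ∀ t, t ∈ M.root → t ∉ A := by
    intro t ht h1
    rw [BMap.root, mem_insert, mem_singleton] at ht
    rcases ht with rfl | rfl
    · exact h.root h1
    · exact h.root ((h.cl (Sum.inr true)).1 h1)
  have ht : (Sum.inr true : M.T) ∈ M.root := by simp [BMap.root]
  have hf : (Sum.inr false : M.T) ∈ M.root := by simp [BMap.root]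
  set X := univ.filter fun t => t ∈ A ∧ M.s t ∉ A ∪ M.root with hX
  have e1 : (univ.filter fun t => t ∈ A ∧ M.s t ∉ A) = X := by
    ext t
    simp only [hX, mem_filter, mem_univ, true_and, mem_union]
    constructor
    · rintro ⟨h4, h5⟩
      refine ⟨h4, fun h6 => h6.elim h5 fun h7 => ?_⟩
      rw [BMap.root, mem_insert, mem_singleton] at h7
      rcases h7 with h7 | h7
      · apply h1
        rw [← h7, Perm.inv_def, Equiv.symm_apply_apply]
        exact h4
      · apply h2
        rw [← h7, Perm.inv_def, Equiv.symm_apply_apply]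
        exact h4
    · rintro ⟨h4, h5⟩
      exact ⟨h4, fun h6 => h5 (Or.inl h6)⟩
  have c1 := cut_eq_two_mul M.s A
  have c2 := cut_eq_two_mul M.s (A ∪ M.root)
  set Y := univ.filter fun t => t ∈ A ∪ M.root ∧ M.s t ∉ A ∪ M.root with hY
  rw [h.cut4, e1] at c1
  rw [h.cut4'] at c2
  have h4 : insert (Sum.inr false) X ⊆ Y := by
    intro t ht'
    rw [mem_insert] at ht'
    rw [hY, mem_filter]
    refine ⟨mem_univ _, ?_⟩
    rcases ht' with rfl | ht'
    · refine ⟨mem_union_right _ hf, fun h5 => ?_⟩
      rw [mem_union] at h5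
      rcases h5 with h5 | h5
      · exact h3 h5
      · rw [BMap.root, mem_insert, mem_singleton] at h5
        rcases h5 with h5 | h5
        · exact hM.s_ne_a (Sum.inr false) h5
        · exact hM.s_ne (Sum.inr false) h5
    · rw [hX, mem_filter] at ht'
      exact ⟨mem_union_left _ ht'.2.1, ht'.2.2⟩
  have h5 := card_le_card h4
  rw [card_insert_of_notMem] at h5
  · omega
  · intro h6
    rw [hX, mem_filter] at h6
    exact hR _ hf h6.2.1

/-- Proof.  Let `s⁻¹ (inr true) ∉ A`.  At `inr true`, adding the root edge to `A` does not change the number of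
boundary corners, so the same holds at `inr false` (both cuts are 4): exactly one of `s⁻¹ (inr false)`,
`s (inr false)` is in `A`.  If `s⁻¹ (inr false) ∈ A`, then `A` is a series prefix of the dual
(`(a*s)⁻¹ (inr true) = s⁻¹ (inr false)`, `cut_dual`).  Otherwise `s (inr false) ∈ A`, `s⁻¹ (inr false) ∉ A`: the boundary
corners of `A` are `inr true`, one more (`x`) at its vertex, `inr false`, and one more (`y`) at its vertex
(all four; the vertices are different).  The face of the corner `inr true` contains the corner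
`s⁻¹ (inr false)` (its predecessor, `a (s (s⁻¹ (inr false))) = inr true`), and an even number of boundary corners; by
noPinch it does not contain `x`, and not `inr false` (`inr false` and `s⁻¹ (inr false)` are at the same vertex), so it
contains `y`, which is at the vertex of `s⁻¹ (inr false)` too: by noPinch `y = s⁻¹ (inr false)`, but this is not a
boundary corner (`s⁻¹ (inr false) ∉ A`, `inr false ∉ A`). -/
theorem pref_ser_or_par {M : BMap} (hM : M.IsGood) {A : Finset M.T} (h : Pref M A) :
    IsSer M ∨ IsPar M := by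
  by_cases hs : M.s⁻¹ (Sum.inr true) ∈ A
  · exact Or.inl ⟨A, h, hs⟩
  by_cases hs' : M.s⁻¹ (Sum.inr false) ∈ A
  · right
    have hroot : Cl M.aa M.root := by
      rintro (d | b)
      · simp [BMap.root, BMap.aa]
      · cases b <;> simp [BMap.root, BMap.aa]
    refine ⟨A, ⟨h.cl, h.root, (h.cl _).2 h.fst, h.rest, ?_, ?_⟩, ?_⟩
    · exact (cut_dual h.cl).trans h.cut4
    · exact (cut_dual (h.cl.union hroot)).trans h.cut4'
    · have e : (M.aa * M.s)⁻¹ (Sum.inr true) = M.s⁻¹ (Sum.inr false) := by
        rw [Perm.inv_eq_iff_eq, Perm.mul_apply, SerExcl.apply_inv]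
        rfl
      show (M.aa * M.s)⁻¹ (Sum.inr true) ∈ A
      rw [e]
      exact hs'
  exfalso
  have hsf := PrefType_next hM h hs hs'
  have hfA : (Sum.inr false : M.T) ∉ A := fun h1 => h.root ((h.cl (Sum.inr true)).1 h1)
  set Vt := univ.filter fun x => M.s.SameCycle (Sum.inr true) x with hVt
  set Vf := univ.filter fun x => M.s.SameCycle (Sum.inr false) x with hVf
  have hloop : ¬ M.s.SameCycle (Sum.inr true) (Sum.inr false) := hM.noLoop (Sum.inr true)
  have hdis : Disjoint (Vt ∩ bd M.s A) (Vf ∩ bd M.s A) := by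
    rw [disjoint_left]
    intro x h1 h2
    rw [mem_inter, hVt, mem_filter] at h1
    rw [mem_inter, hVf, mem_filter] at h2
    exact hloop (h1.1.2.trans h2.1.2.symm)
  have htb : (Sum.inr true : M.T) ∈ bd M.s A := by
    rw [mem_bd]
    have h1 := h.root
    have h2 := h.fst
    tauto
  have hfb : (Sum.inr false : M.T) ∈ bd M.s A := by
    rw [mem_bd]
    tauto
  have c1 := (PrefType_two (PrefType_even M.s A (Sum.inr true)) (x := Sum.inr true)
    (by rw [mem_inter, mem_filter]; exact ⟨⟨mem_univ _, Perm.SameCycle.refl _ _⟩, htb⟩)).1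
  have c2 := (PrefType_two (PrefType_even M.s A (Sum.inr false)) (x := Sum.inr false)
    (by rw [mem_inter, mem_filter]; exact ⟨⟨mem_univ _, Perm.SameCycle.refl _ _⟩, hfb⟩)).1
  have hall : (Vt ∩ bd M.s A) ∪ (Vf ∩ bd M.s A) = bd M.s A := by
    apply eq_of_subset_of_card_le
    · exact union_subset inter_subset_right inter_subset_right
    · rw [card_union_of_disjoint hdis]
      have h4 : (bd M.s A).card = 4 := h.cut4
      rw [h4]
      exact add_le_add c1 c2
  obtain ⟨z, hz, hzne⟩ := (PrefType_two (PrefType_even (M.aa * M.s) A (Sum.inr true))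
    (x := Sum.inr true) (by
      rw [mem_inter, mem_filter, PrefType_bd_dual h.cl]
      exact ⟨⟨mem_univ _, Perm.SameCycle.refl _ _⟩, htb⟩)).2
  rw [mem_inter, mem_filter, PrefType_bd_dual h.cl] at hz
  obtain ⟨⟨-, hzf⟩, hzb⟩ := hz
  have hz' := hzb
  rw [← hall, mem_union, mem_inter, mem_inter] at hz'
  rcases hz' with ⟨h1, -⟩ | ⟨h1, -⟩
  · rw [hVt, mem_filter] at h1
    exact hM.noPinch (Ne.symm hzne) h1.2 hzf
  · rw [hVf, mem_filter] at h1
    have h2 : z = M.s⁻¹ (Sum.inr false) := by
      by_contra hne
      refine hM.noPinch hne ?_ ?_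
      · exact h1.2.symm.trans ⟨-1, by simp⟩
      · refine hzf.symm.trans ?_
        refine Perm.SameCycle.symm ⟨1, ?_⟩
        rw [zpow_one, Perm.mul_apply, SerExcl.apply_inv]
        rfl
    rw [h2, mem_bd, SerExcl.apply_inv] at hzb
    exact hzb ⟨fun h3 => absurd h3 hs', fun h3 => absurd h3 hfA⟩

end PGr
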