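import Pool.Agent.PGc.CDefs
import Pool.Agent.PGr.ESum
import Pool.Agent.PGr.SerSurj

/-! # Module SerEq: series and parallel compositions, as equalities -/

set_option linter.unusedSectionVars false

namespace PGr
open Equiv Finset
open scoped ENNReal Classical
variable (s y : ℝ≥0∞)

/-- a sum over classes with a choice of two factors -/
theorem SerEq_le (Q R : BMap → Prop) (F : GB → GB → BMap)
    (k : ℝ≥0∞) (h : ∀ c : GC, Q c.rep.1 → ∃ p : GC × GC, R p.1.rep.1 ∧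
      BIso c.rep.1 (F p.1.rep p.2.rep) ∧
      W s y c.rep.1 = k * (W s y p.1.rep.1 * W s y p.2.rep.1)) :
    Esel s y Q ≤ k * Esel s y R * Es s y := by
  have h' : ∀ c : GC, ∃ p : GC × GC, Q c.rep.1 → R p.1.rep.1 ∧
      BIso c.rep.1 (F p.1.rep p.2.rep) ∧
      W s y c.rep.1 = k * (W s y p.1.rep.1 * W s y p.2.rep.1) := by
    intro c
    by_cases hc : Q c.rep.1
    · obtain ⟨p, hp⟩ := h c hc
      exact ⟨p, fun _ => hp⟩
    · exact ⟨(c, c), fun h1 => absurd h1 hc⟩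
  choose φ hφ using h'
  have e1 : k * Esel s y R * Es s y =
      ∑' p : GC × GC, (k * if R p.1.rep.1 then W s y p.1.rep.1 else 0) *
        (if True then W s y p.2.rep.1 else 0) := by
    rw [← tsum_prod_mul (fun c : GC => k * if R c.rep.1 then W s y c.rep.1 else 0)
      (fun c : GC => if True then W s y c.rep.1 else 0)]
    rw [ENNReal.tsum_mul_left]
    unfold Es
    rw [ESum.Esel_eq s y R, ESum.Esel_eq s y (fun _ => True)]
  rw [e1, ESum.Esel_eq s y Q]
  have hQ : ∀ c : GC, (if Q c.rep.1 then W s y c.rep.1 else 0) ≠ 0 → Q c.rep.1 := by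
    intro c hc
    by_contra h1
    rw [if_neg h1] at hc
    exact hc rfl
  refine tsum_le_tsum_of_injOn φ ?_ ?_
  · intro c c' hc hc' he
    obtain ⟨-, h2, -⟩ := hφ c (hQ c hc)
    obtain ⟨-, h2', -⟩ := hφ c' (hQ c' hc')
    rw [← he] at h2'
    exact ESum.eq_of_iso (h2.trans h2'.symm)
  · intro c hc
    have hq := hQ c hc
    obtain ⟨h1, -, h3⟩ := hφ c hq
    show _ ≤ (k * if R (φ c).1.rep.1 then W s y (φ c).1.rep.1 else 0) *
        (if True then W s y (φ c).2.rep.1 else 0)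
    rw [if_pos hq, if_pos h1, if_pos trivial, h3, mul_assoc]

/-- `ser_ge` and `exists_serMap` -/
theorem ser_eq : Esel s y IsSer = s * Esel s y (fun M => ¬ IsSer M) * Es s y := by
  refine le_antisymm ?_ (ser_ge s y)
  refine SerEq_le s y IsSer (fun M => ¬ IsSer M) (fun N₁ N₂ => serMap N₁ N₂) s fun c hc => ?_
  obtain ⟨p, h1, h2, -, -, h5⟩ := TUpper.exists_ser_class s y hc
  exact ⟨p, h1, h2, h5⟩

/-- every parallel composition is `parMap N₁ N₂` with `¬ IsPar N₁`; by duality from `exists_serMap`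
(`dual_dual`) -/
theorem exists_parMap {M : BMap} (h : M.IsGood) (hp : IsPar M) :
    ∃ N₁ N₂ : GB, ¬ IsPar N₁.1 ∧ BIso M (parMap N₁ N₂) := by
  obtain ⟨N₁, N₂, h1, h2⟩ := exists_serMap h.dual hp
  have e1 : N₁.dual.dual = N₁ := Subtype.ext (dual_dual N₁.2)
  have e2 : N₂.dual.dual = N₂ := Subtype.ext (dual_dual N₂.2)
  refine ⟨N₁.dual, N₂.dual, ?_, ?_⟩
  · intro h3
    apply h1
    have h4 : IsSer N₁.1.dual.dual := h3
    rwa [dual_dual N₁.2] at h4
  · have h3 : BIso M.dual.dual (serMap N₁ N₂).dual := BIso.dual h2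
    rw [dual_dual h] at h3
    unfold parMap
    rw [e1, e2]
    exact h3

theorem SerEq_parMap_iso {N₁ N₂ N₁' N₂' : GB} (h₁ : BIso N₁.1 N₁'.1) (h₂ : BIso N₂.1 N₂'.1) :
    BIso (parMap N₁ N₂) (parMap N₁' N₂') := by
  unfold parMap
  exact BIso.dual (serMap_iso (N₁ := N₁.dual) (N₂ := N₂.dual) (N₁' := N₁'.dual)
    (N₂' := N₂'.dual) (BIso.dual h₁) (BIso.dual h₂))

/-- `par_ge` and `exists_parMap` -/
theorem par_eq : Esel s y IsPar = Esel s y (fun M => ¬ IsPar M) * Es s y := by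
  refine le_antisymm ?_ (par_ge s y)
  have key : Esel s y IsPar ≤ 1 * Esel s y (fun M => ¬ IsPar M) * Es s y := by
    refine SerEq_le s y IsPar (fun M => ¬ IsPar M) (fun N₁ N₂ => parMap N₁ N₂) 1 fun c hc => ?_
    obtain ⟨N₁, N₂, h1, h2⟩ := exists_parMap c.rep.2 hc
    have e1 := ESum.rep_iso N₁
    have e2 := ESum.rep_iso N₂
    have h3 : BIso c.rep.1 (parMap (GC.rep (ESum.cl N₁)) (GC.rep (ESum.cl N₂))) :=
      h2.trans (SerEq_parMap_iso e1.symm e2.symm)
    refine ⟨(ESum.cl N₁, ESum.cl N₂), fun hs => h1 (e1.par hs), h3, ?_⟩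
    have h4 := parMap_nV (GC.rep (ESum.cl N₁)) (GC.rep (ESum.cl N₂))
    have h5 := Good.two_le_nV (GC.rep (ESum.cl N₁)).2
    have h6 := Good.two_le_nV (GC.rep (ESum.cl N₂)).2
    rw [h3.W_eq, ESum.W_two s y (parMap _ _) (GC.rep (ESum.cl N₁)).1 (GC.rep (ESum.cl N₂)).1 0
      (GC.rep (ESum.cl N₁)).2 (GC.rep (ESum.cl N₂)).2 (by omega) (parMap_card _ _)]
    ring
  rwa [one_mul] at key

end PGr
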