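import Pool.Agent.PGc.MapDec
import Pool.Agent.PGc.PrefType
import Pool.Agent.PGc.SerEq
import Pool.Agent.PGr.Digon

/-! # Module RigLe: the decomposition equation for nonseparable maps -/

set_option linter.unusedSectionVars false

namespace PGr
open Equiv Finset
open scoped ENNReal Classical
variable (s y : ℝ≥0∞)

namespace RigLe

/-- the index set -/
abbrev Ix := Σ c : GC, ((ESum.core c).I → GC)

theorem Rg_eq : Rg s (Es s y) = ∑' p : Ix,
      if Rigid p.1.rep.1 then s ^ (nV p.1.rep.1.s - 2) * ∏ i, W s y (p.2 i).rep.1 else 0 := by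
  unfold Rg
  rw [← tsum_sigma_eq (fun (c : GC) (g : (ESum.core c).I → GC) =>
    if Rigid c.rep.1 then s ^ (nV c.rep.1.s - 2) * ∏ i, W s y (g i).rep.1 else 0)]
  refine tsum_congr fun c => ?_
  by_cases h : Rigid c.rep.1
  · simp only [if_pos h]
    rw [ENNReal.tsum_mul_left, ESum.core_card, ← Finset.card_univ, ← Finset.prod_const]
    congr 1
    rw [← prod_tsum (fun (_ : (ESum.core c).I) (x : GC) => W s y x.rep.1)]
    refine Finset.prod_congr rfl fun i _ => ?_
    unfold Es Esel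
    exact tsum_congr fun c => if_pos trivial
  · simp only [if_neg h]
    simp

/-- the composite of an index -/
def Dc (M : BMap) (p : Ix) : Prop :=
  Rigid p.1.rep.1 ∧ ∃ N : (ESum.core p.1).I → GB, (∀ i, ESum.cl (N i) = p.2 i) ∧
    BIso M (comp (ESum.core p.1) N)

theorem exists_ix {M : BMap} (hM : M.IsGood) (hs : ¬ IsSer M) (hp : ¬ IsPar M)
    (h4 : 4 ≤ Fintype.card M.D) : ∃ p, Dc M p := by
  obtain ⟨Q, hQ, hR, hC⟩ := exists_comp hM h4 (fun A hA => by
    rcases pref_ser_or_par hM hA with h | h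
    · exact hs h
    · exact hp h)
  have h1 := ESum.rep_iso ⟨Q, hQ⟩
  obtain ⟨N, hN⟩ := hC (ESum.core (ESum.cl ⟨Q, hQ⟩)) ((ESum.core_iso _).trans h1)
  exact ⟨⟨ESum.cl ⟨Q, hQ⟩, fun i => ESum.cl (N i)⟩, h1.symm.rigid hR, N, fun _ => rfl, hN⟩

theorem Dc_inj {c c' : GC} {p : Ix} (h : Dc c.rep.1 p) (h' : Dc c'.rep.1 p) : c = c' := by
  obtain ⟨h1, N, h2, h3⟩ := h
  obtain ⟨h1', N', h2', h3'⟩ := h'
  have h4 : BIso (comp (ESum.core p.1) N) (comp (ESum.core p.1) N') :=
    comp_iso _ _ _ (fun i => ESum.iso_of_mk ((h2 i).trans (h2' i).symm))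
  exact ESum.eq_of_iso (h3.trans (h4.trans h3'.symm))

theorem Dc_W {M : BMap} {p : Ix} (h : Dc M p) : W s y M =
    if Rigid p.1.rep.1 then s ^ (nV p.1.rep.1.s - 2) * ∏ i, W s y (p.2 i).rep.1 else 0 := by
  obtain ⟨h1, N, h2, h3⟩ := h
  have h4 : nV (ESum.core p.1).s = nV p.1.rep.1.s := (ESum.core_iso p.1).nV_eq
  rw [if_pos h1, h3.W_eq, ESum.W_comp s y _ _ (ESum.core_good p.1), h4]
  congr 1
  refine Finset.prod_congr rfl fun i _ => ?_
  rw [← h2 i, (ESum.rep_iso (N i)).W_eq]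

end RigLe

/-- `pref_ser_or_par`, `exists_comp`; sum over the classes of cores and of nets as in `ESum.rig_ge` (`nV_comp`),
in the other direction (as in `NetSumC.rn_le`) -/
theorem rig_le : Esel s y (fun M => ¬ IsSer M ∧ ¬ IsPar M ∧ 4 ≤ Fintype.card M.D) ≤
    Rg s (Es s y) := by
  have hex : ∀ c : GC, ∃ o : Option RigLe.Ix,
      (¬ IsSer c.rep.1 ∧ ¬ IsPar c.rep.1 ∧ 4 ≤ Fintype.card c.rep.1.D) →
      ∃ p, o = some p ∧ RigLe.Dc c.rep.1 p := by
    intro c
    by_cases h : ¬ IsSer c.rep.1 ∧ ¬ IsPar c.rep.1 ∧ 4 ≤ Fintype.card c.rep.1.D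
    · obtain ⟨p, hp⟩ := RigLe.exists_ix c.rep.2 h.1 h.2.1 h.2.2
      exact ⟨some p, fun _ => ⟨p, rfl, hp⟩⟩
    · exact ⟨none, fun h' => absurd h' h⟩
  choose φ hφ using hex
  have h1 : ∑' o : Option RigLe.Ix, (match o with
      | none => (0 : ℝ≥0∞)
      | some p => if Rigid p.1.rep.1 then
          s ^ (nV p.1.rep.1.s - 2) * ∏ i, W s y (p.2 i).rep.1 else 0) = Rg s (Es s y) := by
    rw [NetSumC.tsum_opt]
    show 0 + ∑' p : RigLe.Ix, (if Rigid p.1.rep.1 then
          s ^ (nV p.1.rep.1.s - 2) * ∏ i, W s y (p.2 i).rep.1 else 0) = _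
    rw [zero_add, RigLe.Rg_eq]
  rw [← h1]
  unfold Esel
  refine tsum_le_tsum_of_injOn φ ?_ ?_
  · intro c c' h h' he
    have hc : ¬ IsSer c.rep.1 ∧ ¬ IsPar c.rep.1 ∧ 4 ≤ Fintype.card c.rep.1.D := by
      by_contra hh
      exact h (if_neg hh)
    have hc' : ¬ IsSer c'.rep.1 ∧ ¬ IsPar c'.rep.1 ∧ 4 ≤ Fintype.card c'.rep.1.D := by
      by_contra hh
      exact h' (if_neg hh)
    obtain ⟨p, e, hp⟩ := hφ c hc
    obtain ⟨p', e', hp'⟩ := hφ c' hc'
    rw [e, e'] at he
    obtain rfl := Option.some.inj he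
    exact RigLe.Dc_inj hp hp'
  · intro c h
    have hc : ¬ IsSer c.rep.1 ∧ ¬ IsPar c.rep.1 ∧ 4 ≤ Fintype.card c.rep.1.D := by
      by_contra hh
      exact h (if_neg hh)
    rw [if_pos hc]
    obtain ⟨p, e, hp⟩ := hφ c hc
    rw [e]
    exact le_of_eq (RigLe.Dc_W s y hp)

theorem RigLe.small : Esel s y (fun M => Fintype.card M.D < 4) ≤ y := by
  unfold Esel
  rw [tsum_eq_single (ESum.cl ⟨digonB, digon_good⟩)]
  · have hi := ESum.rep_iso ⟨digonB, digon_good⟩
    split_ifs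
    · rw [hi.W_eq]
      unfold W
      rw [digon_nV]
      have : Fintype.card digonB.D = 2 := by
        show Fintype.card Bool = 2
        decide
      rw [this]
      simp
    · exact bot_le
  · intro c hc
    rw [if_neg]
    intro h4
    apply hc
    exact ESum.eq_of_iso ((eq_digon c.rep.2 h4).trans (ESum.rep_iso ⟨digonB, digon_good⟩).symm)

/-- the maps are: the digon (weight `y`), series, parallel (exclusive: `not_ser_par`), the others -/
theorem E_eq : Es s y = y + Esel s y IsSer + Esel s y IsPar + Rg s (Es s y) := by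
  refine le_antisymm ?_ (E_ge s y)
  have h2 : Es s y ≤ Esel s y (fun M => Fintype.card M.D < 4) + Esel s y IsSer +
      Esel s y IsPar +
      Esel s y (fun M => ¬ IsSer M ∧ ¬ IsPar M ∧ 4 ≤ Fintype.card M.D) := by
    unfold Es Esel
    rw [← ENNReal.tsum_add, ← ENNReal.tsum_add, ← ENNReal.tsum_add]
    refine ENNReal.tsum_le_tsum fun c => ?_
    rw [if_pos trivial]
    by_cases h4 : Fintype.card c.rep.1.D < 4
    · rw [if_pos h4, add_assoc, add_assoc]
      exact le_self_add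
    · by_cases hs : IsSer c.rep.1
      · rw [if_pos hs, add_assoc, add_assoc]
        exact le_trans le_self_add (le_add_left le_rfl)
      · by_cases hp : IsPar c.rep.1
        · rw [if_pos hp]
          exact le_trans (le_add_left le_rfl) le_self_add
        · have h5 : ¬ IsSer c.rep.1 ∧ ¬ IsPar c.rep.1 ∧ 4 ≤ Fintype.card c.rep.1.D :=
            ⟨hs, hp, by omega⟩
          rw [if_pos h5]
          exact le_add_left le_rfl
  calc Es s y ≤ _ := h2
    _ ≤ y + Esel s y IsSer + Esel s y IsPar + Rg s (Es s y) := by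
      gcongr
      · exact RigLe.small s y
      · exact rig_le s y

end PGr
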