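import Pool.Agent.PGc.Crit

/-! # Module Curve: the functions `Yf`, `Ef` -/

set_option linter.unusedSectionVars false

namespace PGr
open Set

variable {s v : ℝ}

/-- the factor vanishing at the critical point -/
noncomputable def qf (s v : ℝ) : ℝ := 1 - uf s v - v - 3 * v * uf s v

theorem Yf_hasDerivAt (hs : 0 < s) (h0 : 0 < v) (h1 : v < 1) :
    HasDerivAt (Yf s) ((1 - uf s v) ^ 2 * qf s v / ((1 + uf s v) * (1 - v))) v := by
  have h2 := uf_hasDerivAt hs h0 h1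
  have h3 := uf_pos hs h0 h1
  have h4 : HasDerivAt (fun v => (1 - uf s v) ^ 2)
      (2 * (1 - uf s v) * (-(uf s v * (1 - uf s v) * (1 + v) / ((1 + uf s v) * v * (1 - v))))) v :=
    ((h2.const_sub 1).pow 2).congr_deriv (by simp)
  have h5 : HasDerivAt (fun v => v * (1 - uf s v) ^ 2)
      (1 * (1 - uf s v) ^ 2 + v * (2 * (1 - uf s v) *
        (-(uf s v * (1 - uf s v) * (1 + v) / ((1 + uf s v) * v * (1 - v)))))) v := (hasDerivAt_id v).mul h4
  have hv : 1 - v ≠ 0 := by linarith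
  have hu : 1 + uf s v ≠ 0 := by linarith
  refine HasDerivAt.congr_deriv h5 ?_
  unfold qf
  generalize uf s v = u at *
  field_simp
  ring

theorem Ef_hasDerivAt (hs : 0 < s) (h0 : 0 < v) (h1 : v < 1) :
    HasDerivAt (Ef s) (qf s v / ((1 + uf s v) * (1 - v) ^ 3)) v := by
  have h2 := uf_hasDerivAt hs h0 h1
  have h3 := uf_pos hs h0 h1
  have hv : 1 - v ≠ 0 := by linarith
  have hu : 1 + uf s v ≠ 0 := by linarith
  have h4 : HasDerivAt (fun v => 1 - uf s v - v)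
      (-(uf s v * (1 - uf s v) * (1 + v) / ((1 + uf s v) * v * (1 - v))) - 1) v :=
    (h2.const_sub 1).sub (hasDerivAt_id v)
  have h5 : HasDerivAt (fun v => v * (1 - uf s v - v))
      (1 * (1 - uf s v - v) + v * (-(uf s v * (1 - uf s v) * (1 + v) / ((1 + uf s v) * v * (1 - v))) - 1)) v :=
    (hasDerivAt_id v).mul h4
  have h6 : HasDerivAt (fun v : ℝ => (1 - v) ^ 2) (-(2 * (1 - v))) v :=
    (((hasDerivAt_id v).const_sub 1).pow 2).congr_deriv (by simp)
  have h7 := h5.div h6 (pow_ne_zero 2 hv)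
  have h8 : Ef s = (fun v => v * (1 - uf s v - v)) / fun v : ℝ => (1 - v) ^ 2 := rfl
  rw [h8]
  refine HasDerivAt.congr_deriv h7 ?_
  unfold qf
  generalize uf s v = u at *
  field_simp
  ring

/-- `uf` is increasing, so `qf` is strictly decreasing -/
theorem qf_strictAnti (hs : 0 < s) {v' : ℝ} (h0 : 0 < v) (h : v < v') (h1 : v' < 1) :
    qf s v' < qf s v := by
  have h2 := uf_strictMono hs h0 h h1
  have h3 := uf_pos hs h0 (h.trans h1)
  unfold qf
  have h4 : v * uf s v < v' * uf s v' := mul_lt_mul'' h h2 h0.le h3.le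
  linarith

theorem qf_crit {t : ℝ} (h0 : 0 < t) (h1 : t < 1) : qf (scr t) t = 0 := by
  unfold qf
  rw [uf_crit h0 h1]
  field_simp
  ring

theorem qf_pos {t : ℝ} (h0 : 0 < v) (hv : v < t) (h1 : t < 1) : 0 < qf (scr t) v := by
  have h2 := qf_strictAnti (scr_pos (h0.trans hv) h1) h0 hv h1
  rwa [qf_crit (h0.trans hv) h1] at h2

theorem Ef_analyticAt (hs : 0 < s) (h0 : 0 < v) (h1 : v < 1) : AnalyticAt ℝ (Ef s) v := by
  have h2 := uf_analyticAt hs h0 h1
  have hid : AnalyticAt ℝ (fun v : ℝ => v) v := analyticAt_id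
  have hv : (1 - v) ^ 2 ≠ 0 := pow_ne_zero 2 (by linarith)
  have h3 : AnalyticAt ℝ (fun v => v * (1 - uf s v - v)) v :=
    hid.mul ((analyticAt_const.sub h2).sub hid)
  have h4 : AnalyticAt ℝ (fun v : ℝ => (1 - v) ^ 2) v := (analyticAt_const.sub hid).pow 2
  exact h3.div h4 hv

theorem Yf_analyticAt (hs : 0 < s) (h0 : 0 < v) (h1 : v < 1) : AnalyticAt ℝ (Yf s) v := by
  have h2 := uf_analyticAt hs h0 h1
  have hid : AnalyticAt ℝ (fun v : ℝ => v) v := analyticAt_id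
  exact hid.mul ((analyticAt_const.sub h2).pow 2)

theorem Ef_continuousOn (hs : 0 < s) : ContinuousOn (Ef s) (Ico 0 1) := by
  have h2 := uf_continuousOn hs
  unfold Ef
  refine ContinuousOn.div ?_ (by fun_prop) fun v hv => ?_
  · exact continuousOn_id.mul ((continuousOn_const.sub h2).sub continuousOn_id)
  · exact pow_ne_zero 2 (by have := hv.2; linarith)

theorem Yf_continuousOn (hs : 0 < s) : ContinuousOn (Yf s) (Ico 0 1) := by
  have h2 := uf_continuousOn hs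
  unfold Yf
  exact continuousOn_id.mul ((continuousOn_const.sub h2).pow 2)

theorem Ef_zero : Ef s 0 = 0 := by simp [Ef]

theorem Yf_zero : Yf s 0 = 0 := by simp [Yf]

theorem Ef_strictMonoOn {t : ℝ} (h0 : 0 < t) (h1 : t < 1) :
    StrictMonoOn (Ef (scr t)) (Icc 0 t) := by
  have hs := scr_pos h0 h1
  refine strictMonoOn_of_deriv_pos (convex_Icc _ _)
    ((Ef_continuousOn hs).mono fun v hv => ⟨hv.1, hv.2.trans_lt h1⟩) fun v hv => ?_
  rw [interior_Icc] at hv
  have hv1 : v < 1 := hv.2.trans h1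
  rw [(Ef_hasDerivAt hs hv.1 hv1).deriv]
  have h2 := qf_pos hv.1 hv.2 h1
  have h3 := uf_pos hs hv.1 hv1
  have h4 : 0 < 1 - v := by linarith
  positivity

theorem Yf_strictMonoOn {t : ℝ} (h0 : 0 < t) (h1 : t < 1) :
    StrictMonoOn (Yf (scr t)) (Icc 0 t) := by
  have hs := scr_pos h0 h1
  refine strictMonoOn_of_deriv_pos (convex_Icc _ _)
    ((Yf_continuousOn hs).mono fun v hv => ⟨hv.1, hv.2.trans_lt h1⟩) fun v hv => ?_
  rw [interior_Icc] at hv
  have hv1 : v < 1 := hv.2.trans h1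
  rw [(Yf_hasDerivAt hs hv.1 hv1).deriv]
  have h2 := qf_pos hv.1 hv.2 h1
  have h3 := uf_pos hs hv.1 hv1
  have h5 := uf_lt_one hs hv.1 hv1
  have h4 : 0 < 1 - v := by linarith
  have h6 : 0 < 1 - uf (scr t) v := by linarith
  positivity

/-- every `E` in `(0, ecr t)` is a value of `Ef` -/
theorem exists_Ef {t E : ℝ} (h0 : 0 < t) (h1 : t < 1) (hE : 0 < E) (hE' : E < ecr t) :
    ∃ v, 0 < v ∧ v < t ∧ Ef (scr t) v = E := by
  have hs := scr_pos h0 h1
  have hc : ContinuousOn (Ef (scr t)) (Icc 0 t) :=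
    (Ef_continuousOn hs).mono fun v hv => ⟨hv.1, hv.2.trans_lt h1⟩
  have hiv := intermediate_value_Icc h0.le hc
  rw [Ef_zero, Ef_crit h0 h1] at hiv
  obtain ⟨v, hv, hvE⟩ := hiv ⟨hE.le, hE'.le⟩
  refine ⟨v, lt_of_le_of_ne hv.1 ?_, lt_of_le_of_ne hv.2 ?_, hvE⟩
  · intro h
    rw [← h, Ef_zero] at hvE
    linarith
  · intro h
    rw [h, Ef_crit h0 h1] at hvE
    linarith

/-- inverse function: there is `V : ℝ → ℝ`, analytic on `(0, ecr t)`, with `V (Ef v) = v` for `0 < v < t` (analytic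
inverse function theorem, the derivative is positive) -/
theorem exists_inverse {t : ℝ} (h0 : 0 < t) (h1 : t < 1) :
    ∃ V : ℝ → ℝ, (∀ E ∈ Ioo 0 (ecr t), AnalyticAt ℝ V E ∧ 0 < V E ∧ V E < t ∧ Ef (scr t) (V E) = E) ∧
      ∀ v ∈ Ioo 0 t, V (Ef (scr t) v) = v := by
  classical
  have hs := scr_pos h0 h1
  have hmono := Ef_strictMonoOn h0 h1
  let V : ℝ → ℝ := fun E => if h : 0 < E ∧ E < ecr t then (exists_Ef h0 h1 h.1 h.2).choose else 0
  have hV : ∀ E, (h : 0 < E ∧ E < ecr t) → 0 < V E ∧ V E < t ∧ Ef (scr t) (V E) = E := by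
    intro E h
    have h2 : V E = (exists_Ef h0 h1 h.1 h.2).choose := dif_pos h
    rw [h2]
    exact (exists_Ef h0 h1 h.1 h.2).choose_spec
  have hEf : ∀ v ∈ Ioo 0 t, 0 < Ef (scr t) v ∧ Ef (scr t) v < ecr t := by
    intro v hv
    have h2 := hmono ⟨le_rfl, h0.le⟩ ⟨hv.1.le, hv.2.le⟩ hv.1
    have h3 := hmono ⟨hv.1.le, hv.2.le⟩ ⟨h0.le, le_rfl⟩ hv.2
    rw [Ef_zero] at h2
    rw [Ef_crit h0 h1] at h3
    exact ⟨h2, h3⟩
  have hVE : ∀ v ∈ Ioo 0 t, V (Ef (scr t) v) = v := by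
    intro v hv
    obtain ⟨a, b, c⟩ := hV _ (hEf v hv)
    exact hmono.injOn ⟨a.le, b.le⟩ ⟨hv.1.le, hv.2.le⟩ c
  refine ⟨V, fun E hE => ?_, hVE⟩
  obtain ⟨a, b, c⟩ := hV E ⟨hE.1, hE.2⟩
  refine ⟨?_, a, b, c⟩
  -- the local inverse
  set v0 := V E with hv0
  have hv1 : v0 < 1 := b.trans h1
  have hder := Ef_hasDerivAt hs a hv1
  set D := qf (scr t) v0 / ((1 + uf (scr t) v0) * (1 - v0) ^ 3) with hD
  have hDpos : 0 < D := by
    have h2 := qf_pos a b h1
    have h3 := uf_pos hs a hv1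
    have h4 : 0 < 1 - v0 := by linarith
    rw [hD]
    positivity
  have hcd : ContDiffAt ℝ (⊤ : WithTop ℕ∞) (Ef (scr t)) v0 := (Ef_analyticAt hs a hv1).contDiffAt
  let f' : ℝ ≃L[ℝ] ℝ := ContinuousLinearEquiv.unitsEquivAut ℝ (Units.mk0 D hDpos.ne')
  have hf' : HasFDerivAt (Ef (scr t)) (f' : ℝ →L[ℝ] ℝ) v0 := by
    have h2 := hder.hasFDerivAt
    have h3 : (f' : ℝ →L[ℝ] ℝ) = ContinuousLinearMap.toSpanSingleton ℝ D := by
      ext
      simp [f']
    rw [h3]
    exact h2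
  have hn : (⊤ : WithTop ℕ∞) ≠ 0 := by simp
  have hli := hcd.to_localInverse hf' hn
  rw [c] at hli
  have hev : V =ᶠ[nhds E] hcd.localInverse hf' hn := by
    have h2 : hcd.localInverse hf' hn E = v0 := by
      have := hcd.localInverse_apply_image hf' hn
      rwa [c] at this
    have h3 : ContinuousAt (hcd.localInverse hf' hn) E := hli.continuousAt
    have h4 : ∀ᶠ y in nhds E, hcd.localInverse hf' hn y ∈ Ioo 0 t := by
      apply h3.eventually
      rw [h2]
      exact Ioo_mem_nhds a b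
    have h5 : ∀ᶠ y in nhds E, Ef (scr t) (hcd.localInverse hf' hn y) = y := by
      have := (hcd.hasStrictFDerivAt' hf' hn).eventually_right_inverse
      rw [c] at this
      exact this
    filter_upwards [h4, h5] with y hy1 hy2
    have h6 := hVE _ hy1
    rw [hy2] at h6
    exact h6
  exact (hli.congr_of_eventuallyEq hev).analyticAt

end PGr
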