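import Pool.Agent.PGc.CDefs

/-! # Module PlGlue: planarity of a graph with planar graphs attached at vertices -/

set_option linter.unusedSectionVars false

namespace PGr
open Equiv Finset

section
variable {T J : Type*} [Fintype T] [DecidableEq T] [Fintype J] [DecidableEq J]

theorem PlGlue_self (x : ZMod 2) : x + x = 0 := by revert x; decide

/-- a function invariant under `s` is constant on the cycles -/
theorem PlGlue_inv {X : Type*} {s : Perm T} {f : T → X} (hf : ∀ t, f (s t) = f t) {t t' : T}
    (h : s.SameCycle t t') : f t = f t' := by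
  obtain ⟨i, hi⟩ := h
  rw [← hi]
  have key : ∀ (k : ℕ) (x : T), f ((s ^ k) x) = f x := by
    intro k
    induction k with
    | zero => intro x; rfl
    | succ k ih => intro x; rw [pow_succ, Perm.mul_apply, ih, hf]
  cases i with
  | ofNat k => exact (key k t).symm
  | negSucc k =>
    have h1 := key (k + 1) ((s ^ (Int.negSucc k)) t)
    have h2 : (s ^ (k + 1)) ((s ^ (Int.negSucc k)) t) = t := by
      rw [zpow_negSucc]
      exact (s ^ (k + 1)).apply_symm_apply t
    rw [h2] at h1
    exact h1

/-- The darts are partitioned (`pr t = none`: main part, `pr t = some j`: part `j`) into sets closed under `a` and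
`s`.  `n j` is a dart of the main part, `d j` a dart of the part `j`, and `s'` merges the vertex of `d j` into
the vertex of `n j`: `s' (n j) = s (d j)`, `s' (d j) = s (n j)`.
Proof: let `(p, q)` satisfy the equation for `(a, s')`.  For `(a, s)` it holds except at `n j`, `d j`, where the defects
`p (n j) + q (a (n j)) + p (s (n j)) + q (s (n j))` and `p (d j) + ...` are equal; the sum of the defects over the part
`j` is 0 (all terms cancel), so they vanish.  Get `h` for `(a, s)`; add the constant
`h (n j) + h (d j) + p (n j) + p (d j)` to `h` on the part `j`. -/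
theorem Pl.glue {a s s' : Perm T} (hinv : ∀ t, a (a t) = t) (h : Pl a s) (pr : T → Option J)
    (hpa : ∀ t, pr (a t) = pr t) (hps : ∀ t, pr (s t) = pr t) (n d : J → T)
    (hn : ∀ j, pr (n j) = none) (hd : ∀ j, pr (d j) = some j) (hni : Function.Injective n)
    (h1 : ∀ j, s' (n j) = s (d j)) (h2 : ∀ j, s' (d j) = s (n j))
    (h3 : ∀ t, (∀ j, t ≠ n j) → (∀ j, t ≠ d j) → s' t = s t) : Pl a s' := by
  intro p q hpq
  let D : T → ZMod 2 := fun t => p t + q (a t) + p (s t) + q (s t)
  have hD0 : ∀ t, (∀ j, t ≠ n j) → (∀ j, t ≠ d j) → D t = 0 := by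
    intro t ht ht'
    have h4 := hpq t
    rw [h3 t ht ht'] at h4
    show p t + q (a t) + p (s t) + q (s t) = 0
    rw [h4]
    have e1 := PlGlue_self (p (s t))
    have e2 := PlGlue_self (q (s t))
    linear_combination e1 + e2
  have hDnd : ∀ j, D (n j) = D (d j) := by
    intro j
    have h4 := hpq (n j)
    have h5 := hpq (d j)
    rw [h1 j] at h4
    rw [h2 j] at h5
    show p (n j) + q (a (n j)) + p (s (n j)) + q (s (n j)) =
      p (d j) + q (a (d j)) + p (s (d j)) + q (s (d j))
    linear_combination h4 - h5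
  have hDd : ∀ j, D (d j) = 0 := by
    intro j
    have hsum : ∑ t ∈ univ.filter (fun t => pr t = some j), D t = 0 := by
      have hsa : ∑ t ∈ univ.filter (fun t => pr t = some j), q (a t) =
          ∑ t ∈ univ.filter (fun t => pr t = some j), q t := by
        refine Finset.sum_bij (fun t _ => a t) ?_ ?_ ?_ ?_
        · intro t ht
          rw [mem_filter] at ht ⊢
          exact ⟨mem_univ _, by rw [hpa]; exact ht.2⟩
        · intro t _ t' _ e
          exact a.injective e
        · intro t ht
          rw [mem_filter] at ht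
          exact ⟨a t, mem_filter.2 ⟨mem_univ _, by rw [hpa]; exact ht.2⟩, hinv t⟩
        · intro t _; rfl
      have hss : ∀ f : T → ZMod 2, ∑ t ∈ univ.filter (fun t => pr t = some j), f (s t) =
          ∑ t ∈ univ.filter (fun t => pr t = some j), f t := by
        intro f
        refine Finset.sum_bij (fun t _ => s t) ?_ ?_ ?_ ?_
        · intro t ht
          rw [mem_filter] at ht ⊢
          exact ⟨mem_univ _, by rw [hps]; exact ht.2⟩
        · intro t _ t' _ e
          exact s.injective e
        · intro t ht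
          rw [mem_filter] at ht
          have e1 : s (s⁻¹ t) = t := s.apply_symm_apply t
          refine ⟨s⁻¹ t, mem_filter.2 ⟨mem_univ _, ?_⟩, e1⟩
          rw [← hps, e1]; exact ht.2
        · intro t _; rfl
      show ∑ t ∈ univ.filter (fun t => pr t = some j), (p t + q (a t) + p (s t) + q (s t)) = 0
      rw [sum_add_distrib, sum_add_distrib, sum_add_distrib, hsa, hss p, hss q]
      have e1 := PlGlue_self (∑ t ∈ univ.filter (fun t => pr t = some j), p t)
      have e2 := PlGlue_self (∑ t ∈ univ.filter (fun t => pr t = some j), q t)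
      linear_combination e1 + e2
    rw [Finset.sum_eq_single (d j)] at hsum
    · exact hsum
    · intro t ht htd
      rw [mem_filter] at ht
      refine hD0 t ?_ ?_
      · intro j' e
        rw [e, hn] at ht
        simp at ht
      · intro j' e
        have e3 := ht.2
        rw [e, hd, Option.some.injEq] at e3
        rw [e3] at e
        exact htd e
    · intro hnot
      exact (hnot (mem_filter.2 ⟨mem_univ _, hd j⟩)).elim
  have hDall : ∀ t, D t = 0 := by
    intro t
    by_cases h4 : ∃ j, t = n j
    · obtain ⟨j, rfl⟩ := h4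
      rw [hDnd, hDd]
    · by_cases h5 : ∃ j, t = d j
      · obtain ⟨j, rfl⟩ := h5
        exact hDd j
      · exact hD0 t (fun j e => h4 ⟨j, e⟩) (fun j e => h5 ⟨j, e⟩)
  obtain ⟨f, hf1, hf2⟩ := h p q (by
    intro t
    have h4 : p t + q (a t) + p (s t) + q (s t) = 0 := hDall t
    have e1 := PlGlue_self (p (s t))
    have e2 := PlGlue_self (q (s t))
    linear_combination h4 - e1 - e2)
  let c : Option J → ZMod 2 := fun o => match o with
    | none => 0
    | some j => f (n j) + f (d j) + p (n j) + p (d j)
  refine ⟨fun t => f t + c (pr t), ?_, ?_⟩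
  · intro t
    show f (a t) + c (pr (a t)) = f t + c (pr t)
    rw [hf1, hpa]
  · intro t
    show f t + c (pr t) + (f (s' t) + c (pr (s' t))) = p t + p (s' t)
    by_cases h4 : ∃ j, t = n j
    · obtain ⟨j, rfl⟩ := h4
      rw [h1, hn, hps, hd]
      show f (n j) + 0 + (f (s (d j)) + (f (n j) + f (d j) + p (n j) + p (d j))) =
        p (n j) + p (s (d j))
      have e := hf2 (d j)
      have e1 := PlGlue_self (f (n j))
      have e2 := PlGlue_self (p (d j))
      linear_combination e + e1 + e2
    · by_cases h5 : ∃ j, t = d j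
      · obtain ⟨j, rfl⟩ := h5
        rw [h2, hd, hps, hn]
        show f (d j) + (f (n j) + f (d j) + p (n j) + p (d j)) + (f (s (n j)) + 0) =
          p (d j) + p (s (n j))
        have e := hf2 (n j)
        have e1 := PlGlue_self (f (d j))
        have e2 := PlGlue_self (p (n j))
        linear_combination e + e1 + e2
      · rw [h3 t (fun j e => h4 ⟨j, e⟩) (fun j e => h5 ⟨j, e⟩), hps]
        have e := hf2 t
        have e1 := PlGlue_self (c (pr t))
        linear_combination e + e1

open Classical in
/-- exchange of `n j` and `d j` -/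
noncomputable def PlGlue_tau (pr : T → Option J) (n d : J → T) (t : T) : T :=
  match pr t with
  | none => if h : ∃ j, t = n j then d h.choose else t
  | some j => if t = d j then n j else t

theorem PlGlue_tau_n {pr : T → Option J} {n d : J → T} (hn : ∀ j, pr (n j) = none)
    (hni : Function.Injective n) (j : J) : PlGlue_tau pr n d (n j) = d j := by
  unfold PlGlue_tau
  rw [hn]
  have hex : ∃ j', n j = n j' := ⟨j, rfl⟩
  simp only
  rw [dif_pos hex]
  exact congrArg d (hni hex.choose_spec).symm

theorem PlGlue_tau_d {pr : T → Option J} {n d : J → T} (hd : ∀ j, pr (d j) = some j) (j : J) :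
    PlGlue_tau pr n d (d j) = n j := by
  unfold PlGlue_tau
  rw [hd]
  simp

theorem PlGlue_tau_o {pr : T → Option J} {n d : J → T} {t : T} (h1 : ∀ j, t ≠ n j)
    (h2 : ∀ j, t ≠ d j) : PlGlue_tau pr n d t = t := by
  unfold PlGlue_tau
  split
  · rw [dif_neg]
    rintro ⟨j, hj⟩
    exact h1 j hj
  · rw [if_neg]
    exact h2 _

theorem PlGlue_tau_inv {pr : T → Option J} {n d : J → T} (hn : ∀ j, pr (n j) = none)
    (hd : ∀ j, pr (d j) = some j) (hni : Function.Injective n) (t : T) :
    PlGlue_tau pr n d (PlGlue_tau pr n d t) = t := by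
  by_cases h4 : ∃ j, t = n j
  · obtain ⟨j, rfl⟩ := h4
    rw [PlGlue_tau_n hn hni, PlGlue_tau_d hd]
  · by_cases h5 : ∃ j, t = d j
    · obtain ⟨j, rfl⟩ := h5
      rw [PlGlue_tau_d hd, PlGlue_tau_n hn hni]
    · have e := PlGlue_tau_o (pr := pr) (fun j e => h4 ⟨j, e⟩) (fun j e => h5 ⟨j, e⟩)
      rw [e, e]

open Classical in
/-- the merged cycle of a dart -/
noncomputable def PlGlue_k (s : Perm T) (pr : T → Option J) (n d : J → T) (t : T) :
    Quotient (Perm.SameCycle.setoid s) :=
  match pr t with
  | none => Quotient.mk _ t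
  | some j => if s.SameCycle t (d j) then Quotient.mk _ (n j) else Quotient.mk _ t

/-- such an `s'` exists, and its cycles: two darts are in the same cycle of `s'` iff they are in the same
cycle of `s` after identifying the cycles of `n j` and `d j` -/
theorem exists_glue {s : Perm T} (pr : T → Option J) (hps : ∀ t, pr (s t) = pr t) (n d : J → T)
    (hn : ∀ j, pr (n j) = none) (hd : ∀ j, pr (d j) = some j)
    (hni : ∀ j j', s.SameCycle (n j) (n j') → j = j') :
    ∃ s' : Perm T, (∀ j, s' (n j) = s (d j)) ∧ (∀ j, s' (d j) = s (n j)) ∧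
      (∀ t, (∀ j, t ≠ n j) → (∀ j, t ≠ d j) → s' t = s t) ∧
      ∀ t t', s'.SameCycle t t' ↔ s.SameCycle t t' ∨
        (∃ j, s.SameCycle t (n j) ∧ s.SameCycle t' (d j)) ∨
        (∃ j, s.SameCycle t (d j) ∧ s.SameCycle t' (n j)) := by
  have hinj : Function.Injective n := by
    intro j j' h
    apply hni
    rw [h]
  let τ : Perm T := ⟨PlGlue_tau pr n d, PlGlue_tau pr n d, PlGlue_tau_inv hn hd hinj,
    PlGlue_tau_inv hn hd hinj⟩
  let s' : Perm T := s * τ
  have h1 : ∀ j, s' (n j) = s (d j) := by
    intro j
    show s (PlGlue_tau pr n d (n j)) = s (d j)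
    rw [PlGlue_tau_n hn hinj]
  have h2 : ∀ j, s' (d j) = s (n j) := by
    intro j
    show s (PlGlue_tau pr n d (d j)) = s (n j)
    rw [PlGlue_tau_d hd]
  have h3 : ∀ t, (∀ j, t ≠ n j) → (∀ j, t ≠ d j) → s' t = s t := by
    intro t ht ht'
    show s (PlGlue_tau pr n d t) = s t
    rw [PlGlue_tau_o ht ht']
  have hprc : ∀ {t t' : T}, s.SameCycle t t' → pr t = pr t' := fun h => PlGlue_inv hps h
  have hone : ∀ (σ : Perm T) (t : T), σ.SameCycle t (σ t) := fun σ t => ⟨1, by simp⟩
  -- `n j` and `d j` are in one cycle of `s'`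
  have hnd : ∀ j, s'.SameCycle (n j) (d j) := by
    intro j
    by_contra hcon
    have key : ∀ k : ℕ, s'.SameCycle (n j) ((s ^ (k + 1)) (d j)) := by
      intro k
      induction k with
      | zero =>
        have := hone s' (n j)
        rw [h1] at this
        simpa using this
      | succ k ih =>
        have hx : pr ((s ^ (k + 1)) (d j)) = some j := by
          rw [← hd j]
          exact (PlGlue_inv hps ⟨(k + 1 : ℕ), by rw [zpow_natCast]⟩).symm
        have e1 : s' ((s ^ (k + 1)) (d j)) = s ((s ^ (k + 1)) (d j)) := by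
          refine h3 _ ?_ ?_
          · intro j' e
            rw [e, hn] at hx
            simp at hx
          · intro j' e
            have hx' := hx
            rw [e, hd, Option.some.injEq] at hx'
            rw [hx'] at e
            rw [e] at ih
            exact hcon ih
        have e2 := ih.trans (hone s' _)
        rw [e1] at e2
        rw [pow_succ' s (k + 1), Perm.mul_apply]
        exact e2
    have h4 := key (orderOf s - 1)
    have h5 : orderOf s - 1 + 1 = orderOf s := Nat.succ_pred_eq_of_pos (orderOf_pos s)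
    rw [h5, pow_orderOf_eq_one] at h4
    exact hcon h4
  have hstep : ∀ t, s'.SameCycle t (s t) := by
    intro t
    by_cases h4 : ∃ j, t = n j
    · obtain ⟨j, rfl⟩ := h4
      have := (hnd j).trans (hone s' (d j))
      rwa [h2] at this
    · by_cases h5 : ∃ j, t = d j
      · obtain ⟨j, rfl⟩ := h5
        have := (hnd j).symm.trans (hone s' (n j))
        rwa [h1] at this
      · have := hone s' t
        rwa [h3 t (fun j e => h4 ⟨j, e⟩) (fun j e => h5 ⟨j, e⟩)] at this
  have hsub : ∀ {t t' : T}, s.SameCycle t t' → s'.SameCycle t t' := by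
    intro t t' h
    have := PlGlue_inv (s := s) (f := fun x => (Quotient.mk (Perm.SameCycle.setoid s') x))
      (fun x => Quotient.sound (hstep x).symm) h
    exact Quotient.exact this
  -- the invariant
  have hk1 : ∀ t, PlGlue_k s pr n d (s t) = PlGlue_k s pr n d t := by
    intro t
    unfold PlGlue_k
    rw [hps]
    have e1 : (Quotient.mk (Perm.SameCycle.setoid s) (s t)) = Quotient.mk _ t :=
      Quotient.sound (hone s t).symm
    cases pr t with
    | none => exact e1
    | some j =>
      simp only
      have e2 : s.SameCycle (s t) (d j) ↔ s.SameCycle t (d j) :=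
        ⟨fun h => (hone s t).trans h, fun h => (hone s t).symm.trans h⟩
      by_cases h4 : s.SameCycle t (d j)
      · rw [if_pos (e2.2 h4), if_pos h4]
      · rw [if_neg (fun h => h4 (e2.1 h)), if_neg h4]
        exact e1
  have hkn : ∀ j, PlGlue_k s pr n d (n j) = Quotient.mk _ (n j) := by
    intro j
    unfold PlGlue_k
    rw [hn]
  have hkd : ∀ j, PlGlue_k s pr n d (d j) = Quotient.mk _ (n j) := by
    intro j
    unfold PlGlue_k
    rw [hd]
    simp only
    rw [if_pos (Perm.SameCycle.refl _ _)]
  have hk : ∀ t, PlGlue_k s pr n d (s' t) = PlGlue_k s pr n d t := by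
    intro t
    by_cases h4 : ∃ j, t = n j
    · obtain ⟨j, rfl⟩ := h4
      rw [h1, hk1, hkd, hkn]
    · by_cases h5 : ∃ j, t = d j
      · obtain ⟨j, rfl⟩ := h5
        rw [h2, hk1, hkd, hkn]
      · rw [h3 t (fun j e => h4 ⟨j, e⟩) (fun j e => h5 ⟨j, e⟩), hk1]
  refine ⟨s', h1, h2, h3, fun t t' => ⟨fun h => ?_, ?_⟩⟩
  · have e := PlGlue_inv hk h
    have hcase : ∀ x : T, (PlGlue_k s pr n d x = Quotient.mk _ x) ∨
        ∃ j, s.SameCycle x (d j) ∧ PlGlue_k s pr n d x = Quotient.mk _ (n j) := by
      intro x
      unfold PlGlue_k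
      cases pr x with
      | none => exact Or.inl rfl
      | some j =>
        simp only
        by_cases h4 : s.SameCycle x (d j)
        · rw [if_pos h4]
          exact Or.inr ⟨j, h4, rfl⟩
        · rw [if_neg h4]
          exact Or.inl rfl
    rcases hcase t with e1 | ⟨j, e1, e1'⟩
    · rcases hcase t' with e2 | ⟨j', e2, e2'⟩
      · rw [e1, e2] at e
        exact Or.inl (Quotient.exact e)
      · rw [e1, e2'] at e
        exact Or.inr (Or.inl ⟨j', Quotient.exact e, e2⟩)
    · rcases hcase t' with e2 | ⟨j', e2, e2'⟩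
      · rw [e1', e2] at e
        exact Or.inr (Or.inr ⟨j, e1, (Quotient.exact e : s.SameCycle (n j) t').symm⟩)
      · rw [e1', e2'] at e
        have e3 := hni j j' (Quotient.exact e)
        rw [← e3] at e2
        exact Or.inl (e1.trans e2.symm)
  · rintro (h | ⟨j, e1, e2⟩ | ⟨j, e1, e2⟩)
    · exact hsub h
    · exact (hsub e1).trans ((hnd j).trans (hsub e2).symm)
    · exact (hsub e1).trans ((hnd j).symm.trans (hsub e2).symm)

/-- disjoint union of a map and a family of maps -/
theorem Pl.sum_sigma {T₀ : Type*} [Fintype T₀] [DecidableEq T₀] {Tj : J → Type*}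
    [∀ j, Fintype (Tj j)] [∀ j, DecidableEq (Tj j)] {a₀ s₀ : Perm T₀} {a s : ∀ j, Perm (Tj j)}
    (h₀ : Pl a₀ s₀) (h : ∀ j, Pl (a j) (s j)) :
    Pl (Perm.sumCongr a₀ (Equiv.sigmaCongrRight a)) (Perm.sumCongr s₀ (Equiv.sigmaCongrRight s)) := by
  intro p q hpq
  obtain ⟨f₀, e1, e2⟩ := h₀ (fun t => p (Sum.inl t)) (fun t => q (Sum.inl t))
    (fun t => hpq (Sum.inl t))
  choose f g1 g2 using fun j => h j (fun t => p (Sum.inr ⟨j, t⟩)) (fun t => q (Sum.inr ⟨j, t⟩))
    (fun t => hpq (Sum.inr ⟨j, t⟩))
  refine ⟨Sum.elim f₀ (fun x => f x.1 x.2), ?_, ?_⟩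
  · rintro (t | ⟨j, t⟩)
    · exact e1 t
    · exact g1 j t
  · rintro (t | ⟨j, t⟩)
    · exact e2 t
    · exact g2 j t

end

end PGr
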