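import Pool.Agent.PGc.CDefs
import Pool.Agent.PGr.Euler
import Pool.Agent.PGr.PlanarPl

/-! # Module PlPlanar: a graph with a planar rotation system is planar -/

set_option linter.unusedSectionVars false

namespace PGr
open Equiv Finset
open scoped Classical

variable {V : Type} [Fintype V] [DecidableEq V]

/-- converse of `planar_pl`, by `Pl_iff_euler`: the components of `<symm, s>` on the darts are the connected
components with an edge (as in `PlanarPl`) -/
theorem pl_planar {G : SimpleGraph V}
    (h : ∃ s : Perm G.Dart, (∀ d d', s.SameCycle d d' ↔ d.fst = d'.fst) ∧ Pl (dsymm G) s) :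
    IsPlanar G := by
  obtain ⟨s, hs, hp⟩ := h
  refine ⟨s, hs, ?_⟩
  have h1 := (Pl_iff_euler (PlanarPl_inv G) (PlanarPl_fpf G)).mp hp
  rw [PlanarPl_card, PlanarPl_comp G s hs] at h1
  exact h1

end PGr
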