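import Pool.Agent.PGc.Rig1
import Pool.Agent.PGr.NetSumC

/-! # Module RgSer: `Rg` as a power series in the edge weight -/

set_option linter.unusedSectionVars false

namespace PGr
open Equiv Finset
open scoped ENNReal Classical

/-- coefficient of `E^n` -/
noncomputable def rc' (s : ℝ≥0∞) (n : ℕ) : ℝ≥0∞ :=
  ∑' c : GC, if Rigid c.rep.1 ∧ Fintype.card c.rep.1.D / 2 = n then s ^ (nV c.rep.1.s - 2) else 0

theorem RgSer_gen (s : ℝ≥0∞) (h : ℕ → ℝ≥0∞) :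
    ∑' n, rc' s n * h n = ∑' c : GC, if Rigid c.rep.1 then
      s ^ (nV c.rep.1.s - 2) * h (Fintype.card c.rep.1.D / 2) else 0 := by
  have h1 : ∀ n, rc' s n * h n = ∑' c : GC,
      (if Rigid c.rep.1 ∧ Fintype.card c.rep.1.D / 2 = n then s ^ (nV c.rep.1.s - 2) else 0) * h n := by
    intro n
    rw [rc', ENNReal.tsum_mul_right]
  simp_rw [h1]
  rw [ENNReal.tsum_comm]
  refine tsum_congr fun c => ?_
  rw [tsum_eq_single (Fintype.card c.rep.1.D / 2)]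
  · by_cases hR : Rigid c.rep.1
    · rw [if_pos ⟨hR, rfl⟩, if_pos hR]
    · rw [if_neg (fun h => hR h.1), if_neg hR, zero_mul]
  · intro n hn
    rw [if_neg (fun h => hn h.2.symm), zero_mul]

theorem Rg_series (s E : ℝ≥0∞) : Rg s E = ∑' n, rc' s n * E ^ n := by
  rw [RgSer_gen s (fun n => E ^ n)]
  rfl

theorem RgE_series (s E : ℝ≥0∞) : RgE s E = ∑' n : ℕ, (n : ℝ≥0∞) * (rc' s n * E ^ (n - 1)) := by
  have h1 : ∀ n : ℕ, (n : ℝ≥0∞) * (rc' s n * E ^ (n - 1)) = rc' s n * ((n : ℝ≥0∞) * E ^ (n - 1)) :=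
    fun n => mul_left_comm _ _ _
  simp_rw [h1]
  rw [RgSer_gen s (fun n => (n : ℝ≥0∞) * E ^ (n - 1)), RgE]
  refine tsum_congr fun c => ?_
  by_cases hR : Rigid c.rep.1
  · rw [if_pos hR, if_pos hR]
    exact mul_left_comm _ _ _
  · rw [if_neg hR, if_neg hR]

theorem RgE_mono {s s' E E' : ℝ≥0∞} (hs : s ≤ s') (hE : E ≤ E') : RgE s E ≤ RgE s' E' := by
  unfold RgE
  refine ENNReal.tsum_le_tsum fun c => ?_
  split_ifs
  · gcongr
  · exact le_rfl

theorem RgS_mono {s s' E E' : ℝ≥0∞} (hs : s ≤ s') (hE : E ≤ E') : RgS s E ≤ RgS s' E' := by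
  unfold RgS
  refine ENNReal.tsum_le_tsum fun c => ?_
  split_ifs
  · gcongr
  · exact le_rfl

/-- from `Rg3.card_ge`: `3 V ≤ 2 e`, so `3 (V - 2) ≤ 2 (e - 1)` for every rigid map -/
theorem RgS_le (s E : ℝ≥0∞) : 3 * (s * RgS s E) ≤ 2 * (E * RgE s E) := by
  unfold RgS RgE
  rw [← ENNReal.tsum_mul_left, ← ENNReal.tsum_mul_left, ← ENNReal.tsum_mul_left,
    ← ENNReal.tsum_mul_left]
  refine ENNReal.tsum_le_tsum fun c => ?_
  by_cases hR : Rigid c.rep.1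
  · rw [if_pos hR, if_pos hR]
    have hg : Good c.rep.1.aa c.rep.1.s := c.rep.2
    have hcard := Rg3.card_ge hg ((rigid_iff c.rep.1).1 hR)
    have hT : Fintype.card c.rep.1.T = Fintype.card c.rep.1.D + 2 := by
      rw [Fintype.card_sum, Fintype.card_bool]
    rw [hT] at hcard
    set v := nV c.rep.1.s with hv
    set e := Fintype.card c.rep.1.D / 2 with he
    have hle : 3 * (v - 2) ≤ 2 * e := by omega
    rcases Nat.eq_zero_or_pos (v - 2) with h0 | h0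
    · rw [h0]
      simp
    · have he1 : 0 < e := by omega
      have hs1 : s * s ^ (v - 3) = s ^ (v - 2) := by
        rw [← pow_succ']
        congr 1
        omega
      have hE1 : E * E ^ (e - 1) = E ^ e := by
        rw [← pow_succ']
        congr 1
        omega
      have hcast : (3 : ℝ≥0∞) * ((v - 2 : ℕ) : ℝ≥0∞) ≤ 2 * ((e : ℕ) : ℝ≥0∞) := by
        exact_mod_cast hle
      calc 3 * (s * (((v - 2 : ℕ) : ℝ≥0∞) * (s ^ (v - 3) * E ^ e)))
          = (3 * ((v - 2 : ℕ) : ℝ≥0∞)) * ((s * s ^ (v - 3)) * E ^ e) := by ring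
        _ = (3 * ((v - 2 : ℕ) : ℝ≥0∞)) * (s ^ (v - 2) * E ^ e) := by rw [hs1]
        _ ≤ (2 * ((e : ℕ) : ℝ≥0∞)) * (s ^ (v - 2) * E ^ e) := by gcongr
        _ = (2 * ((e : ℕ) : ℝ≥0∞)) * (s ^ (v - 2) * (E * E ^ (e - 1))) := by rw [hE1]
        _ = 2 * (E * (((e : ℕ) : ℝ≥0∞) * (s ^ (v - 2) * E ^ (e - 1)))) := by ring
  · rw [if_neg hR, if_neg hR]
    simp

end PGr
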