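import Pool.Agent.PGc.Four

/-! # Module Three: in a rigid map nontrivial closed sets share three vertices with the rest -/

set_option linter.unusedSectionVars false

namespace PGr
open Equiv Finset

namespace Three
variable {T : Type*} [Fintype T] [DecidableEq T] {a s : Perm T}

theorem ShC_compl {A : Finset T} {t : T} : ShC s Aᶜ t ↔ ShC s A t := by
  constructor
  · rintro ⟨⟨x, hx, hx'⟩, y, hy, hy'⟩
    exact ⟨⟨y, by simpa using hy, hy'⟩, x, by simpa using hx, hx'⟩
  · rintro ⟨⟨x, hx, hx'⟩, y, hy, hy'⟩
    exact ⟨⟨y, by simpa using hy, hy'⟩, x, by simpa using hx, hx'⟩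

/-- if only the vertices of `p` and `q` are shared, then `A` contains an edge from `p` to `q` -/
theorem edge (h : Good a s) (hR : Rg3 a s) {A : Finset T} (hA : Cl a A)
    (h4' : A.card + 4 ≤ Fintype.card T) {p q : T} (hpq : ¬ s.SameCycle p q)
    (hsh : ∀ t, ShC s A t → s.SameCycle p t ∨ s.SameCycle q t) (hp : ShC s A p) :
    ∃ e ∈ A, s.SameCycle p e ∧ s.SameCycle q (a e) := by
  obtain ⟨⟨x0, hx0, hx0'⟩, y0, hy0, hy0'⟩ := hp
  obtain ⟨k, hk, hk'⟩ := SubMap.exit s (P := Aᶜ) (x := y0) (y := x0) (by simpa using hy0)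
    (by simpa using hx0) (hy0'.symm.trans hx0')
  set c := (s ^ k) y0 with hcdef
  have hc : c ∉ A := mem_compl.mp (hk k le_rfl)
  have hc' : s c ∈ A := by simpa using hk'
  have hpc : s.SameCycle p c := hy0'.trans ⟨k, by simp [hcdef]⟩
  obtain ⟨B, hB, hcut, hscB, hcB, hBA, hBsh, x, hx, hqx⟩ := h.exists_four hA hpq hsh hpc hc hc'
  have hpsc : s.SameCycle p (s c) := hpc.trans ⟨1, by simp⟩
  rcases Rig1.edge_of_cut h hR hB hcut with ⟨e, he⟩ | ⟨e, he⟩
  · have he' : B = {s c, a (s c)} := by
      have hm := hscB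
      rw [he] at hm
      simp only [mem_insert, mem_singleton] at hm
      rcases hm with hm | hm
      · rw [hm, he]
      · rw [he, hm, h.inv, pair_comm]
    refine ⟨s c, hc', hpsc, ?_⟩
    rw [he'] at hx
    simp only [mem_insert, mem_singleton] at hx
    rcases hx with rfl | rfl
    · exact absurd (hpsc.trans hqx.symm) hpq
    · exact hqx
  · exfalso
    have he' : Bᶜ = {c, a c} := by
      have hm : c ∈ Bᶜ := mem_compl.mpr hcB
      rw [he] at hm
      simp only [mem_insert, mem_singleton] at hm
      rcases hm with hm | hm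
      · rw [hm, he]
      · rw [he, hm, h.inv, pair_comm]
    have hmem : ∀ u, u ∉ B ↔ u = c ∨ u = a c := by
      intro u
      rw [← mem_compl, he']
      simp
    have hacq : s.SameCycle q (a c) := by
      have h1 : a c ∉ B := (hmem _).mpr (Or.inr rfl)
      have h2 : s (a c) ∈ B := by
        by_contra h2
        rcases (hmem _).mp h2 with h3 | h3
        · exact h.noLoop c (Perm.SameCycle.symm ⟨1, by simpa using h3⟩)
        · exact h.s_ne (a c) h3
      rcases hBsh (a c) ⟨⟨s (a c), h2, ⟨1, by simp⟩⟩, a c, h1, Perm.SameCycle.refl _ _⟩ with h3 | h3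
      · exact absurd (hpc.symm.trans h3) (h.noLoop c)
      · exact h3
    set Z := Aᶜ \ {c, a c} with hZ
    have hZmem : ∀ u, u ∈ Z ↔ u ∉ A ∧ u ≠ c ∧ u ≠ a c := by
      intro u
      simp [hZ]
    have hZcl : Cl a Z := hA.compl.sdiff (Cl_pair h.inv c)
    have hZne : Z.Nonempty := by
      rw [← card_pos]
      have h1 : Aᶜ.card ≤ Z.card + ({c, a c} : Finset T).card := by
        rw [hZ]
        calc Aᶜ.card ≤ ((Aᶜ \ {c, a c}) ∪ {c, a c}).card := card_le_card (by
              intro u hu
              by_cases hu' : u ∈ ({c, a c} : Finset T)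
              · exact mem_union_right _ hu'
              · exact mem_union_left _ (mem_sdiff.mpr ⟨hu, hu'⟩))
          _ ≤ _ := card_union_le _ _
      have h2 : ({c, a c} : Finset T).card ≤ 2 := card_le_two
      have h3 := card_compl A
      omega
    have hZu : Z ≠ univ := by
      intro h0
      have : c ∈ Z := by rw [h0]; simp
      exact ((hZmem c).mp this).2.1 rfl
    have key : ∀ z, ShC s Z z → s.SameCycle q z := by
      rintro z ⟨⟨u, hu, hzu⟩, v, hv, hzv⟩
      rw [hZmem] at hu
      have hnp : ¬ s.SameCycle p z := by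
        intro hpz
        have huB : u ∈ B := by
          by_contra h1
          rcases (hmem u).mp h1 with h2 | h2
          · exact hu.2.1 h2
          · exact hu.2.2 h2
        exact hu.1 (hBA u (hpz.trans hzu) huB)
      by_cases hvA : v ∈ A
      · rcases hsh z ⟨⟨v, hvA, hzv⟩, u, hu.1, hzu⟩ with h1 | h1
        · exact absurd h1 hnp
        · exact h1
      · have hv' : v = c ∨ v = a c := by
          by_contra hcon
          push Not at hcon
          exact hv ((hZmem v).mpr ⟨hvA, hcon.1, hcon.2⟩)
        rcases hv' with rfl | rfl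
        · exact absurd (hpc.trans hzv.symm) hnp
        · exact hacq.trans hzv.symm
    obtain ⟨z, z', hz, hz', hzz⟩ := h.two_shared hZcl hZne hZu
    exact hzz ((key z hz).symm.trans (key z' hz'))

end Three

section
variable {T : Type*} [Fintype T] [DecidableEq T] {a s : Perm T}

/-- In a rigid map a closed set with at least two edges and at least two edges outside shares at least
three vertices with its complement. -/
theorem Rg3.three_shared (h : Good a s) (hR : Rg3 a s) {A : Finset T} (hA : Cl a A)
    (h4 : 4 ≤ A.card) (h4' : A.card + 4 ≤ Fintype.card T) :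
    ∃ t t' t'', ShC s A t ∧ ShC s A t' ∧ ShC s A t'' ∧
      ¬ s.SameCycle t t' ∧ ¬ s.SameCycle t t'' ∧ ¬ s.SameCycle t' t'' := by
  by_contra hcon
  have hne : A.Nonempty := card_pos.mp (by omega)
  have hu : A ≠ univ := by
    rintro rfl
    rw [card_univ] at h4'
    omega
  obtain ⟨p, q, hp, hq, hpq⟩ := h.two_shared hA hne hu
  have hsh : ∀ t, ShC s A t → s.SameCycle p t ∨ s.SameCycle q t := by
    intro t ht
    by_contra h1
    push Not at h1
    exact hcon ⟨p, q, t, hp, hq, ht, hpq, h1.1, h1.2⟩
  obtain ⟨e, he, he1, he2⟩ := Three.edge h hR hA h4' hpq hsh hp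
  have hcc := card_compl A
  have hle := card_le_univ A
  obtain ⟨e', he', he1', he2'⟩ := Three.edge h hR hA.compl (by omega) hpq
    (fun t ht => hsh t (Three.ShC_compl.mp ht)) (Three.ShC_compl.mpr hp)
  have := hR.simple h (he1.symm.trans he1') (he2.symm.trans he2')
  rw [← this] at he'
  exact (mem_compl.mp he') he

end

end PGr
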