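import Pool.Agent.PGc.CDefs

/-! # Module SideFun: the boundary of a face in another embedding -/

set_option linter.unusedSectionVars false

namespace PGr
open Equiv Finset

section
variable {T : Type*} [Fintype T] [DecidableEq T]

/-- The boundary of a face of `s`, seen in another embedding `s'` with the same vertices.
Proof: `j t := 1_F t + 1_F (a (s' t))` telescopes on the cycles of `a * s'`; on a cycle of `s'` (= the darts at
a vertex) the sum is `#{x : x ∈ F} + #{x : a x ∈ F}`, which is even, as `t ↦ s t` maps the first set
bijectively to the second one (`a (s t) = (a * s) t`).  Use `Pl_iff_sums`. -/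
theorem side_fun {a s s' : Perm T} (hinv : ∀ t, a (a t) = t)
    (hv : ∀ t t', s'.SameCycle t t' ↔ s.SameCycle t t') (hp : Pl a s') (c : T) :
    ∃ h : T → ZMod 2, (∀ t, h (a t) = h t) ∧
      ∀ t, h t + h (s' t) = (if (a * s).SameCycle c t then 1 else 0) +
        (if (a * s).SameCycle c (a (s' t)) then 1 else 0) := by
  rw [Pl_iff_sums hinv] at hp
  have two : ∀ u : ZMod 2, u + u = 0 := PlSum.two
  have hf : ∀ t, (if (a * s).SameCycle c (a (s t)) then (1 : ZMod 2) else 0) =
      if (a * s).SameCycle c t then 1 else 0 := by
    intro t
    have h1 : (a * s).SameCycle c (a (s t)) ↔ (a * s).SameCycle c t := by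
      have h2 : a (s t) = (a * s) t := rfl
      rw [h2]
      exact Perm.sameCycle_apply_right
    simp only [h1]
  refine hp (fun t => (if (a * s).SameCycle c t then (1 : ZMod 2) else 0) +
    (if (a * s).SameCycle c (a (s' t)) then 1 else 0)) ?_ ?_
  · intro t
    have hset : (univ.filter fun x => s'.SameCycle t x) = univ.filter fun x => s.SameCycle t x := by
      ext x
      simp only [mem_filter, mem_univ, true_and]
      exact hv t x
    have e1 := sum_cycle_eq_zero s' (fun x => if (a * s).SameCycle c (a x) then (1 : ZMod 2) else 0) t
    have e2 := sum_cycle_eq_zero s (fun x => if (a * s).SameCycle c (a x) then (1 : ZMod 2) else 0) t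
    simp only [hf] at e2
    rw [sum_add_distrib] at e1 e2 ⊢
    rw [hset] at e1 ⊢
    generalize (∑ x ∈ univ.filter (fun x => s.SameCycle t x),
      if (a * s).SameCycle c (a x) then (1 : ZMod 2) else 0) = A at e1 e2
    generalize (∑ x ∈ univ.filter (fun x => s.SameCycle t x),
      if (a * s).SameCycle c x then (1 : ZMod 2) else 0) = B at e2 ⊢
    generalize (∑ x ∈ univ.filter (fun x => s.SameCycle t x),
      if (a * s).SameCycle c (a (s' x)) then (1 : ZMod 2) else 0) = D at e1 ⊢
    revert e1 e2
    revert A B D
    decide
  · intro t
    exact sum_cycle_eq_zero (a * s')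
      (fun x => if (a * s).SameCycle c x then (1 : ZMod 2) else 0) t

end

end PGr
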