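import Pool.Agent.PGc.Bridge
import Pool.Agent.PGc.SideFun

/-! # Module Whitney: a rigid map is the only embedding of its graph up to reflection -/

set_option linter.unusedSectionVars false

namespace PGr
open Equiv Finset

section
variable {T : Type*} [Fintype T] [DecidableEq T]

private theorem Whitney.z2 (x : ZMod 2) : x = 0 ∨ x = 1 := by
  revert x; decide

/-- the side function of a face is constant off the edges of the face -/
theorem Whitney.const {a s s' : Perm T} (h : Good a s) (hR : Rg3 a s)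
    (hv : ∀ t t', s'.SameCycle t t' ↔ s.SameCycle t t') {c : T} {g : T → ZMod 2}
    (hg : ∀ t, g (a t) = g t)
    (hg' : ∀ t, g t + g (s' t) = (if (a * s).SameCycle c t then 1 else 0) +
        (if (a * s).SameCycle c (a (s' t)) then 1 else 0)) {x y : T}
    (hx : ¬ (a * s).SameCycle c x) (hx' : ¬ (a * s).SameCycle c (a x))
    (hy : ¬ (a * s).SameCycle c y) (hy' : ¬ (a * s).SameCycle c (a y)) : g x = g y := by
  classical
  by_contra hne
  -- wlog `g x = 0`
  have hw : ∀ x y : T, ¬ (a * s).SameCycle c x → ¬ (a * s).SameCycle c (a x) →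
      ¬ (a * s).SameCycle c y → ¬ (a * s).SameCycle c (a y) → g x = 0 → g y = 1 → False := by
    intro x y hx hx' hy hy' h0 h1
    set B : Finset T := univ.filter fun t =>
      g t = 0 ∧ ¬ (a * s).SameCycle c t ∧ ¬ (a * s).SameCycle c (a t) with hBdef
    have mB : ∀ t, t ∈ B ↔ g t = 0 ∧ ¬ (a * s).SameCycle c t ∧ ¬ (a * s).SameCycle c (a t) := by
      intro t; simp [hBdef]
    have hB : Cl a B := by
      intro t
      rw [mB, mB, hg, h.inv]
      tauto
    obtain ⟨u, v, hu, hv', huv, hoff⟩ := Rg3.face_bridge h hR c hB ⟨x, (mB x).2 ⟨h0, hx, hx'⟩⟩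
      (fun t ht => ((mB t).1 ht).2.1)
      ⟨y, fun hh => by rw [mB, h1] at hh; exact one_ne_zero hh.1, hy, hy'⟩
    have hoff' : ∀ z, s.SameCycle u z → ¬ (a * s).SameCycle c (a z) := by
      intro z hz hh
      rw [← Bridge.step' h] at hh
      exact hoff _ (hz.trans ⟨-1, by simp⟩) hh
    have hconst : ∀ n : ℕ, g ((s' ^ n) u) = g u := by
      intro n
      induction n with
      | zero => simp
      | succ n ih =>
        rw [pow_succ', Perm.mul_apply, ← ih]
        have h2 := hg' ((s' ^ n) u)
        have h3 : s.SameCycle u ((s' ^ n) u) := (hv _ _).1 ⟨n, by simp⟩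
        have h4 : s.SameCycle u (s' ((s' ^ n) u)) :=
          (hv _ _).1 (((hv _ _).2 h3).trans ⟨1, by simp⟩)
        rw [if_neg (hoff _ h3), if_neg (hoff' _ h4), add_zero] at h2
        have h5 : ∀ p q : ZMod 2, p + q = 0 → q = p := by decide
        exact h5 _ _ h2
    obtain ⟨n, hn⟩ := ((hv u v).2 huv).exists_nat_pow_eq
    have h6 := hconst n
    rw [hn, ((mB u).1 hu).1] at h6
    exact hv' ((mB v).2 ⟨h6, hoff v huv, hoff' v huv⟩)
  rcases Whitney.z2 (g x) with e1 | e1 <;> rcases Whitney.z2 (g y) with e2 | e2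
  · exact hne (e1.trans e2.symm)
  · exact hw x y hx hx' hy hy' e1 e2
  · exact hw y x hy hy' hx hx' e2 e1
  · exact hne (e1.trans e2.symm)

/-- the local analysis at a corner `t` of the face -/
theorem Whitney.loc {a s s' : Perm T} (h : Good a s) (hR : Rg3 a s)
    (hv : ∀ t t', s'.SameCycle t t' ↔ s.SameCycle t t') {c : T} {g : T → ZMod 2}
    (hg : ∀ t, g (a t) = g t)
    (hg' : ∀ t, g t + g (s' t) = (if (a * s).SameCycle c t then 1 else 0) +
        (if (a * s).SameCycle c (a (s' t)) then 1 else 0)) {t y : T}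
    (ht : (a * s).SameCycle c t)
    (hy : ¬ (a * s).SameCycle c y) (hy' : ¬ (a * s).SameCycle c (a y)) :
    (s' t ≠ s t → g t = g y + 1) ∧ (s' (s t) ≠ t → g t = g y) ∧ g (s t) = g t := by
  have hst : s t ≠ t := h.s_ne t
  have hs't : s' t ≠ t := by
    intro e
    have h1 : s'.SameCycle t (s t) := (hv _ _).2 ⟨1, by simp⟩
    obtain ⟨n, hn⟩ := h1.exists_nat_pow_eq
    have h2 : ∀ n : ℕ, (s' ^ n) t = t := by
      intro n
      induction n with
      | zero => simp
      | succ n ih => rw [pow_succ', Perm.mul_apply, ih, e]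
    rw [h2] at hn
    exact hst hn.symm
  have hv1 : s.SameCycle t (s' t) := (hv _ _).1 ⟨1, by simp⟩
  have hv2 : s.SameCycle t (s'⁻¹ t) := (hv _ _).1 ⟨-1, by simp⟩
  have hv3 : s.SameCycle t (s' (s t)) :=
    (hv _ _).1 (((hv _ _).2 (⟨1, by simp⟩ : s.SameCycle t (s t))).trans ⟨1, by simp⟩)
  have off : ∀ x, s.SameCycle t x → x ≠ t → x ≠ s t →
      ¬ (a * s).SameCycle c x ∧ ¬ (a * s).SameCycle c (a x) := fun x hx h1 h2 =>
    ⟨fun h3 => h1 ((Bridge.at_vertex h ht hx).1 h3), fun h3 => h2 ((Bridge.at_vertex h ht hx).2 h3)⟩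
  have hat : ¬ (a * s).SameCycle c (a t) := by
    intro h1
    exact hst ((Bridge.at_vertex h ht (Perm.SameCycle.refl _ _)).2 h1).symm
  have hcst : ¬ (a * s).SameCycle c (s t) := fun h1 =>
    hst ((Bridge.at_vertex h ht ⟨1, by simp⟩).1 h1)
  have hcast : (a * s).SameCycle c (a (s t)) := (Bridge.step c t).2 ht
  have A1 : s' t ≠ s t → g t = g y + 1 := by
    intro hne
    obtain ⟨h1, h2⟩ := off _ hv1 hs't hne
    have h3 := hg' t
    rw [if_pos ht, if_neg h2, add_zero, Whitney.const h hR hv hg hg' h1 h2 hy hy'] at h3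
    have h5 : ∀ p q : ZMod 2, p + q = 1 → p = q + 1 := by decide
    exact h5 _ _ h3
  have A2 : s' (s t) ≠ t → g t = g y := by
    intro hne
    have h0 : s'⁻¹ t ≠ s t := by
      intro e
      apply hne
      rw [← e]
      simp
    have h0' : s'⁻¹ t ≠ t := by
      intro e
      apply hs't
      conv_lhs => rw [← e]
      simp
    obtain ⟨h1, h2⟩ := off _ hv2 h0' h0
    have h3 := hg' (s'⁻¹ t)
    have h4 : s' (s'⁻¹ t) = t := by simp
    rw [h4, if_neg h1, if_neg hat, add_zero, Whitney.const h hR hv hg hg' h1 h2 hy hy'] at h3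
    have h5 : ∀ p q : ZMod 2, p + q = 0 → q = p := by decide
    exact h5 _ _ h3
  refine ⟨A1, A2, ?_⟩
  by_cases e1 : s' t = s t
  · have h3 := hg' t
    rw [e1, if_pos ht, if_pos hcast] at h3
    have h5 : ∀ p q : ZMod 2, p + q = 1 + 1 → q = p := by decide
    exact h5 _ _ h3
  · by_cases e2 : s' (s t) = t
    · have h3 := hg' (s t)
      rw [e2, if_neg hcst, if_neg hat, add_zero] at h3
      have h5 : ∀ p q : ZMod 2, p + q = 0 → p = q := by decide
      exact h5 _ _ h3
    · have h6 := A1 e1
      rw [A2 e2] at h6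
      exact absurd h6 (by
        have h5 : ∀ p : ZMod 2, p ≠ p + 1 := by decide
        exact h5 _)

/-- Proof.  Local statement: for every `t`, `s' t = s t` or `s' (s t) = t`.
Global: let `P = {t : s' t = s t}`, `Q = {t : s' (s t) = t}`; they are disjoint by `deg3`.  `P` is invariant under
`s` and under `a * s`.  So `P` is closed under `a` and `s`, hence empty or everything by `NS`. -/
theorem whitney {a s s' : Perm T} (h : Good a s) (hR : Rg3 a s)
    (hv : ∀ t t', s'.SameCycle t t' ↔ s.SameCycle t t') (hp : Pl a s') :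
    s' = s ∨ s' = s⁻¹ := by
  classical
  -- there is a dart outside the edges of every face
  have hout : ∀ t : T, ¬ (a * s).SameCycle t (s (s t)) ∧ ¬ (a * s).SameCycle t (a (s (s t))) := by
    intro t
    have hvt : s.SameCycle t (s (s t)) := by
      simp only [Perm.sameCycle_apply_right, Perm.SameCycle.refl]
    refine ⟨fun h1 => ?_, fun h1 => ?_⟩
    · exact Rg3.deg3 h hR t ((Bridge.at_vertex h (Perm.SameCycle.refl _ t) hvt).1 h1)
    · exact h.s_ne (s t) ((Bridge.at_vertex h (Perm.SameCycle.refl _ t) hvt).2 h1)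
  have hdisj : ∀ t, s' t = s t → s' (s t) = t → False := by
    intro t h1 h2
    have h3 : ∀ n : ℕ, (s' ^ n) t = t ∨ (s' ^ n) t = s t := by
      intro n
      induction n with
      | zero => left; simp
      | succ n ih =>
        rw [pow_succ', Perm.mul_apply]
        rcases ih with e | e
        · right; rw [e, h1]
        · left; rw [e, h2]
    have h4 : s'.SameCycle t (s (s t)) := (hv _ _).2 (by
      simp only [Perm.sameCycle_apply_right, Perm.SameCycle.refl])
    obtain ⟨n, hn⟩ := h4.exists_nat_pow_eq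
    rcases h3 n with e | e
    · exact Rg3.deg3 h hR t (hn.symm.trans e)
    · exact h.s_ne (s t) (hn.symm.trans e)
  have hloc : ∀ t, s' t = s t ∨ s' (s t) = t := by
    intro t
    obtain ⟨g, hg, hg'⟩ := side_fun h.inv hv hp t
    obtain ⟨h1, h2, h3⟩ := Whitney.loc h hR hv hg hg' (Perm.SameCycle.refl _ t) (hout t).1 (hout t).2
    by_contra hcon
    push Not at hcon
    have h4 := h1 hcon.1
    rw [h2 hcon.2] at h4
    have h5 : ∀ p : ZMod 2, p ≠ p + 1 := by decide
    exact h5 _ h4
  have hs : ∀ t, s' t = s t → s' (s t) = s (s t) := by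
    intro t h1
    rcases hloc (s t) with h2 | h2
    · exact h2
    · exfalso
      have h3 : s (s t) = t := s'.injective (h2.trans h1.symm)
      exact Rg3.deg3 h hR t h3
  have has : ∀ t, s' t = s t → s' (a (s t)) = s (a (s t)) := by
    intro t h1
    obtain ⟨g, hg, hg'⟩ := side_fun h.inv hv hp t
    obtain ⟨_, h2, h3⟩ := Whitney.loc h hR hv hg hg' (Perm.SameCycle.refl _ t) (hout t).1 (hout t).2
    have h4 : s' (s t) ≠ t := fun e => hdisj t h1 e
    have h5 := h2 h4
    have h6 : (a * s).SameCycle t (a (s t)) := (Bridge.step t t).2 (Perm.SameCycle.refl _ t)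
    obtain ⟨h7, _, _⟩ := Whitney.loc h hR hv hg hg' h6 (hout t).1 (hout t).2
    by_contra hne
    have h8 := h7 hne
    rw [hg, h3, h5] at h8
    have h9 : ∀ p : ZMod 2, p ≠ p + 1 := by decide
    exact h9 _ h8
  set P : Finset T := univ.filter fun t => s' t = s t with hPdef
  have mP : ∀ t, t ∈ P ↔ s' t = s t := by intro t; simp [hPdef]
  have hsP : ∀ t, t ∈ P → s t ∈ P := fun t ht => (mP _).2 (hs t ((mP t).1 ht))
  -- `s` maps `P` onto `P`
  have hsP' : ∀ t, s t ∈ P → t ∈ P := by
    intro t ht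
    obtain ⟨n, hn⟩ := (show s.SameCycle (s t) t from ⟨-1, by simp⟩).exists_nat_pow_eq
    have h1 : ∀ n : ℕ, (s ^ n) (s t) ∈ P := by
      intro n
      induction n with
      | zero => simpa using ht
      | succ n ih => rw [pow_succ', Perm.mul_apply]; exact hsP _ ih
    exact hn ▸ h1 n
  have haP : ∀ t, t ∈ P → a t ∈ P := by
    intro t ht
    have h1 : s⁻¹ t ∈ P := hsP' _ (by simpa using ht)
    have h2 := has _ ((mP _).1 h1)
    rw [mP]
    simpa using h2
  have hcl : Cl a P := by
    intro t
    refine ⟨fun h1 => ?_, haP t⟩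
    have := haP _ h1
    rwa [h.inv] at this
  have hcut : cut s P = 0 := by
    rw [cut, Finset.card_eq_zero, Finset.eq_empty_iff_forall_notMem]
    intro t ht
    rw [mem_bd] at ht
    exact ht ⟨hsP t, hsP' t⟩
  by_cases hne : P.Nonempty
  · by_cases hu : P = univ
    · left
      ext t
      exact (mP t).1 (hu ▸ mem_univ t)
    · have := h.ns P hcl hne hu
      omega
  · right
    ext t
    rw [Finset.not_nonempty_iff_eq_empty] at hne
    have h1 : ∀ t, s' (s t) = t := by
      intro t
      rcases hloc t with h2 | h2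
      · have h3 := (mP t).2 h2
        rw [hne] at h3
        simp at h3
      · exact h2
    have h2 := h1 (s⁻¹ t)
    simpa using h2

end

end PGr
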