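import Pool.Agent.PGc.CDefs

/-! # Module Rig1: elementary properties of rigid maps -/

set_option linter.unusedSectionVars false

namespace PGr
open Equiv Finset

namespace Rig1
variable {T : Type*} [Fintype T] [DecidableEq T] {a s : Perm T}

/-- the indicator of one corner -/
def ee (u t : T) : ZMod 2 := if t = u then 1 else 0

theorem ee_self (u : T) : ee u u = 1 := by simp [ee]
theorem ee_ne {u t : T} (h : t ≠ u) : ee u t = 0 := by simp [ee, h]

theorem sum_ee (S : Finset T) (u : T) : ∑ y ∈ S, ee u y = if u ∈ S then 1 else 0 := by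
  simp [ee]

theorem sum_pair_ee (f : Perm T) {u v : T} (h : f.SameCycle u v) (x : T) :
    ∑ y ∈ univ.filter (fun y => f.SameCycle x y), (ee u y + ee v y) = 0 := by
  rw [sum_add_distrib, sum_ee, sum_ee]
  simp only [mem_filter, mem_univ, true_and]
  by_cases hx : f.SameCycle x u
  · rw [if_pos hx, if_pos (hx.trans h)]; decide
  · rw [if_neg hx, if_neg (fun h' => hx (h'.trans h.symm))]; decide

/-- four corners, even on vertices and faces: the closed set with this boundary -/
theorem exists_closed (h : Good a s) {c1 c2 c3 c4 : T}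
    (h12 : s.SameCycle c1 c2) (h34 : s.SameCycle c3 c4)
    (h13 : (a * s).SameCycle c1 c3) (h24 : (a * s).SameCycle c2 c4)
    (n12 : c1 ≠ c2) (n13 : c1 ≠ c3) (n14 : c1 ≠ c4) (n23 : c2 ≠ c3) (n24 : c2 ≠ c4)
    (n34 : c3 ≠ c4) :
    ∃ A : Finset T, Cl a A ∧ bd s A = {c1, c2, c3, c4} := by
  obtain ⟨g, hg1, hg2⟩ := (Pl_iff_sums h.inv).mp h.pl
    (fun y => (ee c1 y + ee c2 y) + (ee c3 y + ee c4 y))
    (by
      intro t
      rw [sum_add_distrib, sum_pair_ee s h12, sum_pair_ee s h34, add_zero])
    (by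
      intro t
      have e : ∀ y, (ee c1 y + ee c2 y) + (ee c3 y + ee c4 y) =
          (ee c1 y + ee c3 y) + (ee c2 y + ee c4 y) := fun y => by ring
      simp_rw [e]
      rw [sum_add_distrib, sum_pair_ee _ h13, sum_pair_ee _ h24, add_zero])
  set A : Finset T := univ.filter fun x => g x = 1 with hA
  have hcl : Cl a A := by
    intro x
    simp only [hA, mem_filter, mem_univ, true_and, hg1]
  have z2 : ∀ u : ZMod 2, u = 0 ∨ u = 1 := by decide
  refine ⟨A, hcl, ?_⟩
  ext x
  have hx := hg2 x
  simp only [bd, hA, mem_filter, mem_univ, true_and, mem_insert, mem_singleton]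
  have key : ∀ u v : ZMod 2, (¬ (u = 1 ↔ v = 1)) ↔ u + v = 1 := by decide
  rw [key, hx]
  constructor
  · intro h1
    by_contra hcon
    push Not at hcon
    rw [ee_ne hcon.1, ee_ne hcon.2.1, ee_ne hcon.2.2.1, ee_ne hcon.2.2.2] at h1
    revert h1; decide
  · rintro (rfl | rfl | rfl | rfl)
    · rw [ee_self, ee_ne n12, ee_ne n13, ee_ne n14]; decide
    · rw [ee_self, ee_ne n12.symm, ee_ne n23, ee_ne n24]; decide
    · rw [ee_self, ee_ne n13.symm, ee_ne n23.symm, ee_ne n34]; decide
    · rw [ee_self, ee_ne n14.symm, ee_ne n24.symm, ee_ne n34.symm]; decide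

theorem bd_compl (s : Perm T) (A : Finset T) : bd s Aᶜ = bd s A := by
  ext t
  simp only [mem_bd, mem_compl, not_iff_not]

/-- a closed set with fewer than four darts is an edge -/
theorem eq_pair (hinv : ∀ t, a (a t) = t) (hfpf : ∀ t, a t ≠ t) {A : Finset T} (hA : Cl a A)
    (hc : A.card < 4) {e : T} (he : e ∈ A) : A = {e, a e} := by
  have hsub : ({e, a e} : Finset T) ⊆ A := by
    intro u hu
    simp only [mem_insert, mem_singleton] at hu
    rcases hu with rfl | rfl
    · exact he
    · exact (hA _).mpr he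
  by_contra hne
  obtain ⟨u, hu, hu'⟩ : ∃ u ∈ A, u ∉ ({e, a e} : Finset T) := by
    by_contra hcon
    push Not at hcon
    exact hne (Finset.Subset.antisymm hcon hsub)
  simp only [mem_insert, mem_singleton, not_or] at hu'
  have h4 : ({e, a e, u, a u} : Finset T) ⊆ A := by
    intro v hv
    simp only [mem_insert, mem_singleton] at hv
    rcases hv with rfl | rfl | rfl | rfl
    · exact he
    · exact (hA _).mpr he
    · exact hu
    · exact (hA _).mpr hu
  have hcard : ({e, a e, u, a u} : Finset T).card = 4 := by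
    have n1 : e ≠ a e := (hfpf e).symm
    have n2 : e ≠ u := fun h => hu'.1 h.symm
    have n3 : e ≠ a u := fun h => hu'.2 (by rw [h, hinv])
    have n4 : a e ≠ u := fun h => hu'.2 h.symm
    have n5 : a e ≠ a u := fun h => hu'.1 (a.injective h).symm
    have n6 : u ≠ a u := (hfpf u).symm
    rw [card_insert_of_notMem, card_insert_of_notMem, card_pair n6]
    · simp [n4, n5]
    · simp [n1, n2, n3]
  have := card_le_card h4
  omega

theorem card_four (hinv : ∀ t, a (a t) = t) (hfpf : ∀ t, a t ≠ t) {e u : T} (h1 : u ≠ e)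
    (h2 : u ≠ a e) : ({e, a e, u, a u} : Finset T).card = 4 := by
  have n1 : e ≠ a e := (hfpf e).symm
  have n2 : e ≠ u := fun h => h1 h.symm
  have n3 : e ≠ a u := fun h => h2 (by rw [h, hinv])
  have n4 : a e ≠ u := fun h => h2 h.symm
  have n5 : a e ≠ a u := fun h => h1 (a.injective h).symm
  have n6 : u ≠ a u := (hfpf u).symm
  rw [card_insert_of_notMem, card_insert_of_notMem, card_pair n6]
  · simp [n4, n5]
  · simp [n1, n2, n3]

theorem Cl_four (hinv : ∀ t, a (a t) = t) (e u : T) : Cl a ({e, a e, u, a u} : Finset T) := by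
  have h : ({e, a e, u, a u} : Finset T) = {e, a e} ∪ {u, a u} := by
    ext x; simp only [mem_insert, mem_singleton, mem_union, or_assoc]
  rw [h]
  exact (Cl_pair hinv e).union (Cl_pair hinv u)

/-- the boundary corners of an edge -/
theorem mem_bd_pair (h : Good a s) (e t : T) :
    t ∈ bd s ({e, a e} : Finset T) ↔ t = e ∨ t = a e ∨ s t = e ∨ s t = a e := by
  rw [mem_bd]
  simp only [mem_insert, mem_singleton]
  have f1 : s e ≠ e := h.s_ne e
  have f2 : s e ≠ a e := h.s_ne_a e
  have f3 : s (a e) ≠ a e := h.s_ne (a e)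
  have f4 : s (a e) ≠ e := fun h' => h.s_ne_a (a e) (by rw [h.inv]; exact h')
  constructor
  · intro hh; tauto
  · rintro (rfl | rfl | h1 | h1)
    · tauto
    · tauto
    · intro hh
      have : t = e ∨ t = a e := hh.mpr (Or.inl h1)
      rcases this with rfl | rfl
      · exact f1 h1
      · exact f4 h1
    · intro hh
      have : t = e ∨ t = a e := hh.mpr (Or.inr h1)
      rcases this with rfl | rfl
      · exact f2 h1
      · exact f3 h1

/-- in a rigid map a closed set with cut four, or its complement, is an edge -/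
theorem edge_of_cut (h : Good a s) (hR : Rg3 a s) {A : Finset T} (hA : Cl a A)
    (hc : cut s A = 4) : (∃ e, A = {e, a e}) ∨ ∃ e, Aᶜ = {e, a e} := by
  have hne : A.Nonempty := by
    rw [nonempty_iff_ne_empty]; rintro rfl; simp [cut, bd] at hc
  have hne' : Aᶜ.Nonempty := by
    rw [nonempty_iff_ne_empty]
    intro h0
    rw [← cut_compl, h0] at hc
    simp [cut, bd] at hc
  obtain ⟨e, he⟩ := hne
  obtain ⟨e', he'⟩ := hne'
  by_cases h1 : 4 ≤ A.card
  · by_cases h2 : A.card + 4 ≤ Fintype.card T
    · have := hR.2 A hA h1 h2; omega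
    · right
      refine ⟨e', eq_pair h.inv h.fpf hA.compl ?_ he'⟩
      have := card_compl A
      have := card_le_univ A
      omega
  · left
    exact ⟨e, eq_pair h.inv h.fpf hA (by omega) he⟩

theorem cut_le_four {s : Perm T} {A : Finset T} {x y z w : T} (h : bd s A ⊆ {x, y, z, w}) :
    cut s A ≤ 4 := (card_le_card h).trans card_le_four

/-- a digon -/
theorem no_digon (h : Good a s) (hR : Rg3 a s) {x y : T} (hxy : x ≠ y) (hxy' : y ≠ a x)
    (h1 : s x = y) (h2 : s (a y) = a x) : False := by
  have hcard := card_four h.inv h.fpf (Ne.symm hxy) hxy'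
  have hcut := hR.2 {x, a x, y, a y} (Cl_four h.inv x y) (by omega) (by have := hR.1; omega)
  have hle : cut s ({x, a x, y, a y} : Finset T) ≤ 4 := by
    refine cut_le_four (x := s⁻¹ x) (y := y) (z := s⁻¹ (a y)) (w := a x) ?_
    intro t ht
    rw [mem_bd] at ht
    simp only [mem_insert, mem_singleton] at ht ⊢
    rw [Perm.eq_inv_iff_eq, Perm.eq_inv_iff_eq]
    by_cases e1 : t = x
    · exfalso; apply ht; simp [e1, h1]
    by_cases e2 : t = a y
    · exfalso; apply ht; simp [e2, h2]
    by_cases e3 : s t = y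
    · exact absurd (s.injective (e3.trans h1.symm)) e1
    by_cases e4 : s t = a x
    · exact absurd (s.injective (e4.trans h2.symm)) e2
    simp only [e1, e2, e3, e4, false_or, or_false] at ht
    by_contra hcon
    simp only [not_or] at hcon
    simp [hcon] at ht
  omega

end Rig1

section
variable {T : Type*} [Fintype T] [DecidableEq T] {a s : Perm T}

/-- No parallel edges. -/
theorem Rg3.simple (h : Good a s) (hR : Rg3 a s) {x y : T} (h1 : s.SameCycle x y)
    (h2 : s.SameCycle (a x) (a y)) : x = y := by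
  by_contra hxy
  have vx : s.SameCycle (s⁻¹ x) x := ⟨1, by simp⟩
  have vy : s.SameCycle (s⁻¹ y) y := ⟨1, by simp⟩
  have n1 : s⁻¹ x ≠ s⁻¹ y := fun e => hxy (s⁻¹.injective e)
  have n2 : a x ≠ a y := fun e => hxy (a.injective e)
  have hsep : ∀ {u v : T}, s.SameCycle u x → s.SameCycle v (a x) → u ≠ v := by
    rintro u v hu hv rfl
    exact h.noLoop x (hu.symm.trans hv)
  obtain ⟨A, hA, hbd⟩ := Rig1.exists_closed h (c1 := s⁻¹ x) (c2 := s⁻¹ y) (c3 := a x) (c4 := a y)
    (vx.trans (h1.trans vy.symm)) h2 ⟨1, by simp⟩ ⟨1, by simp⟩ n1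
    (hsep vx (Perm.SameCycle.refl _ _)) (hsep vx h2.symm)
    (hsep (vy.trans h1.symm) (Perm.SameCycle.refl _ _)) (hsep (vy.trans h1.symm) h2.symm) n2
  have hc : cut s A = 4 := by
    rw [cut, hbd]
    rw [card_insert_of_notMem, card_insert_of_notMem, card_pair n2]
    · simp only [mem_insert, mem_singleton, not_or]
      exact ⟨hsep (vy.trans h1.symm) (Perm.SameCycle.refl _ _), hsep (vy.trans h1.symm) h2.symm⟩
    · simp only [mem_insert, mem_singleton, not_or]
      exact ⟨n1, hsep vx (Perm.SameCycle.refl _ _), hsep vx h2.symm⟩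
  obtain ⟨e, he⟩ : ∃ e, bd s ({e, a e} : Finset T) = {s⁻¹ x, s⁻¹ y, a x, a y} := by
    rcases Rig1.edge_of_cut h hR hA hc with ⟨e, he⟩ | ⟨e, he⟩
    · exact ⟨e, by rw [← he, hbd]⟩
    · exact ⟨e, by rw [← he, Rig1.bd_compl, hbd]⟩
  -- we may assume that `e` is at the vertex of `x`
  have key : ∀ e : T, bd s ({e, a e} : Finset T) = {s⁻¹ x, s⁻¹ y, a x, a y} →
      s.SameCycle e x → False := by
    intro e he hex
    have m1 : e ∈ bd s ({e, a e} : Finset T) := (Rig1.mem_bd_pair h e e).mpr (Or.inl rfl)
    have m2 : s⁻¹ e ∈ bd s ({e, a e} : Finset T) :=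
      (Rig1.mem_bd_pair h e _).mpr (Or.inr (Or.inr (Or.inl (by simp))))
    have m3 : s⁻¹ (a e) ∈ bd s ({e, a e} : Finset T) :=
      (Rig1.mem_bd_pair h e _).mpr (Or.inr (Or.inr (Or.inr (by simp))))
    have m4 : a e ∈ bd s ({e, a e} : Finset T) :=
      (Rig1.mem_bd_pair h e _).mpr (Or.inr (Or.inl rfl))
    rw [he] at m1 m2 m3 m4
    simp only [mem_insert, mem_singleton] at m1 m2 m3 m4
    have c1 : e = s⁻¹ x ∨ e = s⁻¹ y := by
      rcases m1 with m | m | m | m
      · exact Or.inl m
      · exact Or.inr m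
      · exact absurd m (hsep hex (Perm.SameCycle.refl _ _))
      · exact absurd m (hsep hex h2.symm)
    have hex' : s.SameCycle (s⁻¹ e) x := (Perm.SameCycle.symm ⟨-1, by simp⟩).trans hex
    have c2 : s⁻¹ e = s⁻¹ x ∨ s⁻¹ e = s⁻¹ y := by
      rcases m2 with m | m | m | m
      · exact Or.inl m
      · exact Or.inr m
      · exact absurd m (hsep hex' (Perm.SameCycle.refl _ _))
      · exact absurd m (hsep hex' h2.symm)
    have hne : e ≠ s⁻¹ e := fun e' => h.s_ne e (by conv_lhs => rw [e']; simp)
    have hex3 : s.SameCycle (a e) (a x) := by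
      rcases c2 with c | c
      · rw [s⁻¹.injective c]
      · rw [s⁻¹.injective c]; exact h2.symm
    have hex4 : s.SameCycle (s⁻¹ (a e)) (a x) := (Perm.SameCycle.symm ⟨-1, by simp⟩).trans hex3
    have c3 : s⁻¹ (a e) = a x ∨ s⁻¹ (a e) = a y := by
      rcases m3 with m | m | m | m
      · exact absurd m.symm (hsep vx hex4)
      · exact absurd m.symm (hsep (vy.trans h1.symm) hex4)
      · exact Or.inl m
      · exact Or.inr m
    have hne' : s⁻¹ (a e) ≠ a e := fun e' => h.s_ne (a e) (by conv_lhs => rw [← e']; simp)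
    rcases c2 with c | c
    · -- e = x
      have ex : e = x := s⁻¹.injective c
      rcases c1 with c' | c'
      · exact hne (c'.trans c.symm)
      · -- s x = y
        have sxy : s x = y := by rw [← ex, c']; simp
        rcases c3 with c3 | c3
        · exact hne' (by rw [c3, ex])
        · have : s (a y) = a x := by rw [← c3, ex]; simp
          exact Rig1.no_digon h hR hxy (fun h' => h.s_ne_a x (sxy.trans h')) sxy this
    · have ey : e = y := s⁻¹.injective c
      rcases c1 with c' | c'
      · have syx : s y = x := by rw [← ey, c']; simp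
        rcases c3 with c3 | c3
        · have : s (a x) = a y := by rw [← c3, ey]; simp
          exact Rig1.no_digon h hR (Ne.symm hxy) (fun h' => h.s_ne_a y (syx.trans h')) syx this
        · exact hne' (by rw [c3, ey])
      · exact hne (c'.trans c.symm)
  have m1 : e ∈ bd s ({e, a e} : Finset T) := (Rig1.mem_bd_pair h e e).mpr (Or.inl rfl)
  have m4 : a e ∈ bd s ({e, a e} : Finset T) := (Rig1.mem_bd_pair h e _).mpr (Or.inr (Or.inl rfl))
  have m2 : s⁻¹ x ∈ bd s ({e, a e} : Finset T) := by rw [he]; simp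
  by_cases hex : s.SameCycle e x
  · exact key e he hex
  · refine key (a e) ?_ ?_
    · rw [h.inv, pair_comm]; exact he
    · rw [Rig1.mem_bd_pair h] at m2
      rcases m2 with m | m | m | m
      · exact absurd (m ▸ vx) hex
      · exact m ▸ vx
      · have m' : x = e := by simpa using m
        exact absurd (m' ▸ Perm.SameCycle.refl s x) hex
      · have m' : x = a e := by simpa using m
        rw [← m']

/-- every vertex has degree at least 3 -/
theorem Rg3.deg3 (h : Good a s) (hR : Rg3 a s) (t : T) : s (s t) ≠ t := by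
  intro ht
  have n1 : s t ≠ t := h.s_ne t
  have n2 : s t ≠ a t := h.s_ne_a t
  have hcard := Rig1.card_four h.inv h.fpf n1 n2
  have hcut := hR.2 {t, a t, s t, a (s t)} (Rig1.Cl_four h.inv t (s t)) (by omega)
    (by have := hR.1; omega)
  have hle : cut s ({t, a t, s t, a (s t)} : Finset T) ≤ 4 := by
    refine Rig1.cut_le_four (x := a t) (y := s⁻¹ (a t)) (z := a (s t)) (w := s⁻¹ (a (s t))) ?_
    intro u hu
    rw [mem_bd] at hu
    simp only [mem_insert, mem_singleton] at hu ⊢
    rw [Perm.eq_inv_iff_eq, Perm.eq_inv_iff_eq]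
    by_cases e1 : u = t
    · exfalso; apply hu; simp [e1]
    by_cases e2 : u = s t
    · exfalso; apply hu; simp [e2, ht]
    by_cases e3 : s u = t
    · exact absurd (s.injective (e3.trans ht.symm)) e2
    by_cases e4 : s u = s t
    · exact absurd (s.injective e4) e1
    simp only [e1, e2, e3, e4, false_or] at hu
    by_contra hcon
    simp only [not_or] at hcon
    simp [hcon] at hu
  omega

/-- by `cut_dual` -/
theorem Rg3.dual (h : Good a s) (hR : Rg3 a s) : Rg3 a (a * s) :=
  ⟨hR.1, fun A hA h1 h2 => by rw [cut_dual hA]; exact hR.2 A hA h1 h2⟩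

/-- every cycle of `s` has at least three elements -/
theorem Rg3.card_ge (h : Good a s) (hR : Rg3 a s) : 3 * nV s ≤ Fintype.card T := by
  classical
  have : Fintype (Quotient (Perm.SameCycle.setoid s)) := Fintype.ofFinite _
  rw [nV, Nat.card_eq_fintype_card, ← card_univ (α := T), mul_comm]
  have e := card_eq_sum_card_fiberwise (s := (univ : Finset T))
    (t := (univ : Finset (Quotient (Perm.SameCycle.setoid s))))
    (f := fun x => (Quotient.mk (Perm.SameCycle.setoid s) x)) (fun x _ => mem_univ _)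
  rw [e, ← card_univ, ← smul_eq_mul]
  refine card_nsmul_le_sum _ _ _ ?_
  intro q _
  obtain ⟨t, rfl⟩ := Quotient.exists_rep q
  have hsub : ({t, s t, s (s t)} : Finset T) ⊆ univ.filter
      (fun x => (Quotient.mk (Perm.SameCycle.setoid s) x) =
        Quotient.mk (Perm.SameCycle.setoid s) t) := by
    intro u hu
    simp only [mem_insert, mem_singleton] at hu
    rw [mem_filter]
    refine ⟨mem_univ _, Quotient.sound ?_⟩
    show s.SameCycle u t
    rcases hu with rfl | rfl | rfl
    · exact Perm.SameCycle.refl _ _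
    · exact Perm.SameCycle.symm ⟨1, by simp⟩
    · exact Perm.SameCycle.symm ⟨2, by simp [pow_two]⟩
  refine le_trans ?_ (card_le_card hsub)
  have n1 : t ≠ s t := (h.s_ne t).symm
  have n2 : t ≠ s (s t) := (hR.deg3 h t).symm
  have n3 : s t ≠ s (s t) := (h.s_ne (s t)).symm
  rw [card_insert_of_notMem (by simp [n1, n2]), card_pair n3]

end

end PGr
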