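import Pool.Agent.PGc.CDefs
import Pool.Agent.PGr.TLower
import Pool.Agent.PGr.TUpper

/-! # Module TEq: the recursion for the root face length, as equalities -/

set_option linter.unusedSectionVars false

namespace PGr
open Equiv Finset
open scoped ENNReal Classical
variable (s y : ℝ≥0∞)

theorem tL_zero : tL s y 0 = 0 := by
  refine TUpper.Esel_false s y fun c h => ?_
  have := BMap.IsGood.two_le_rl c.rep.2
  omega

theorem aL_le_tL (l : ℕ) : aL s y l ≤ tL s y l :=
  TUpper.Esel_le s y fun c h => h.1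

theorem TEq_al_le (n l : ℕ) : al s y n l ≤ aL s y l :=
  TUpper.Esel_le s y fun c h => ⟨h.2.1, h.2.2⟩

theorem TEq_tl_le (n l : ℕ) : tl s y n l ≤ tL s y l :=
  TUpper.Esel_le s y fun c h => h.2

theorem TEq_aL_le (l : ℕ) (B : ℝ≥0∞) (h : ∀ n, al s y n l ≤ B) : aL s y l ≤ B := by
  rw [aL, Esel]
  refine tsum_le_of_trunc _ (fun c : GC => Fintype.card c.rep.1.D) B fun n => ?_
  refine le_trans (le_of_eq ?_) (h n)
  rw [al, Esel]
  refine tsum_congr fun c => ?_
  by_cases h1 : Fintype.card c.rep.1.D ≤ n <;>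
    by_cases h2 : (c.rep.1.rl = l + 1 ∧ ¬ IsSer c.rep.1)
  · rw [if_pos h1, if_pos h2, if_pos ⟨h1, h2⟩]
  · rw [if_pos h1, if_neg h2, if_neg (fun h => h2 h.2)]
  · rw [if_neg h1, if_neg (fun h => h1 h.1)]
  · rw [if_neg h1, if_neg (fun h => h1 h.1)]

theorem TEq_tL_le (l : ℕ) (B : ℝ≥0∞) (h : ∀ n, tl s y n l ≤ B) : tL s y l ≤ B := by
  rw [tL, Esel]
  refine tsum_le_of_trunc _ (fun c : GC => Fintype.card c.rep.1.D) B fun n => ?_
  refine le_trans (le_of_eq ?_) (h n)
  rw [tl, Esel]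
  refine tsum_congr fun c => ?_
  by_cases h1 : Fintype.card c.rep.1.D ≤ n <;>
    by_cases h2 : (c.rep.1.rl = l + 1)
  · rw [if_pos h1, if_pos h2, if_pos ⟨h1, h2⟩]
  · rw [if_pos h1, if_neg h2, if_neg (fun h => h2 h.2)]
  · rw [if_neg h1, if_neg (fun h => h1 h.1)]
  · rw [if_neg h1, if_neg (fun h => h1 h.1)]

/-- `aL_ge` and `al_le` (every class is counted in `al n` for large `n`, use `tsum_le_of_trunc`) -/
theorem aL_eq (l : ℕ) (hl : 0 < l) :
    aL s y l = (if l = 1 then y else 0) + y * ∑' m, (if l ≤ m then tL s y m else 0) := by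
  refine le_antisymm ?_ (aL_ge s y l hl)
  refine TEq_aL_le s y l _ fun n => ?_
  refine (al_mono s y n l).trans ((al_le s y n l hl).trans ?_)
  gcongr with m
  split_ifs
  · exact TEq_tl_le s y n m
  · exact le_rfl

/-- `tL_ge` and `tl_le` -/
theorem tL_eq (l : ℕ) :
    tL s y l = aL s y l + s * ∑ p ∈ antidiagonal l, aL s y p.1 * tL s y p.2 := by
  refine le_antisymm ?_ (tL_ge s y l)
  refine TEq_tL_le s y l _ fun n => ?_
  cases n with
  | zero => rw [tl_zero]; exact zero_le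
  | succ n =>
    refine (tl_le s y n l).trans ?_
    gcongr with p hp
    · exact TEq_al_le s y (n + 1) l
    · exact TEq_al_le s y n p.1
    · exact TEq_tl_le s y n p.2

end PGr
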