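import Pool.Agent.PGc.TwoFaces

/-! # Module Bridge: the edges outside a face form one bridge -/

set_option linter.unusedSectionVars false

namespace PGr
open Equiv Finset

section
variable {T : Type*} [Fintype T] [DecidableEq T] {a s : Perm T}

/-- the next corner of the same face -/
theorem Bridge.step (c x : T) :
    (a * s).SameCycle c (a (s x)) ↔ (a * s).SameCycle c x := by
  have : a (s x) = (a * s) x := rfl
  rw [this]
  exact Perm.sameCycle_apply_right

theorem Bridge.step' (_h : Good a s) (c x : T) :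
    (a * s).SameCycle c (s⁻¹ x) ↔ (a * s).SameCycle c (a x) := by
  rw [← Bridge.step c (s⁻¹ x)]
  simp

/-- the darts of the edges of a face `F` at a vertex of `F` -/
theorem Bridge.at_vertex (h : Good a s) {c z x : T} (hz : (a * s).SameCycle c z)
    (hx : s.SameCycle z x) :
    ((a * s).SameCycle c x → x = z) ∧ ((a * s).SameCycle c (a x) → x = s z) := by
  have key : ∀ y, s.SameCycle z y → (a * s).SameCycle c y → y = z := by
    intro y hy hcy
    by_contra hne
    exact h.noPinch (t := z) (t' := y) (Ne.symm hne) hy (hz.symm.trans hcy)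
  refine ⟨key x hx, fun hax => ?_⟩
  have h1 : (a * s).SameCycle c (s⁻¹ x) := (Bridge.step' h c x).2 hax
  have h2 := key (s⁻¹ x) (hx.trans ⟨-1, by simp⟩) h1
  rw [← h2]
  simp

/-- every edge of the face is at a vertex of the face -/
theorem Bridge.on_face (h : Good a s) {c x : T}
    (hx : (a * s).SameCycle c x ∨ (a * s).SameCycle c (a x)) :
    ∃ z, s.SameCycle z x ∧ (a * s).SameCycle c z := by
  rcases hx with hx | hx
  · exact ⟨x, Perm.SameCycle.refl _ _, hx⟩
  · exact ⟨s⁻¹ x, ⟨1, by simp⟩, (Bridge.step' h c x).2 hx⟩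

/-- no direct change between `B` and `B'` -/
theorem Bridge.no_change (h : Good a s) (hR : Rg3 a s) (c : T) {B B' : Finset T}
    (hB' : Cl a B') (hdisj : ∀ t ∈ B, t ∉ B')
    (hd : ∀ t ∈ B, ¬ (a * s).SameCycle c t ∧ ¬ (a * s).SameCycle c (a t))
    (hd' : ∀ t ∈ B', ¬ (a * s).SameCycle c t ∧ ¬ (a * s).SameCycle c (a t))
    (hall : ∀ t, t ∈ B ∨ t ∈ B' ∨ ((a * s).SameCycle c t ∨ (a * s).SameCycle c (a t)))
    (hno : ∀ x ∈ B, ∀ y ∈ B', s.SameCycle x y → ∃ z, s.SameCycle z x ∧ (a * s).SameCycle c z)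
    {t : T} (ht : t ∈ B) : s t ∉ B' := by
  intro hst
  obtain ⟨z, hzt, hz⟩ := hno t ht (s t) hst ⟨1, by simp⟩
  -- a corner of the face of `t` where one leaves `B'`
  have hex : ∃ x, (a * s).SameCycle t x ∧ x ∈ B' ∧ s x ∉ B' := by
    by_contra hcon
    push Not at hcon
    have h1 : ∀ n : ℕ, ((a * s) ^ n) ((a * s) t) ∈ B' := by
      intro n
      induction n with
      | zero => simpa [Perm.mul_apply, hB' (s t)] using hst
      | succ n ih =>
        rw [pow_succ', Perm.mul_apply, Perm.mul_apply, hB']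
        refine hcon _ ⟨n + 1, ?_⟩ ih
        simp [zpow_add, Perm.mul_apply]
    obtain ⟨n, hn⟩ := (show (a * s).SameCycle ((a * s) t) t from ⟨-1, by simp⟩).exists_nat_pow_eq
    exact hdisj t ht (hn ▸ h1 n)
  obtain ⟨x, htx, hx, hsx⟩ := hex
  have hxt : t ≠ x := fun e => hdisj t ht (e ▸ hx)
  obtain ⟨z', hz'x, hz'⟩ : ∃ z', s.SameCycle z' x ∧ (a * s).SameCycle c z' := by
    rcases hall (s x) with h1 | h1 | h1
    · obtain ⟨z', h2, h3⟩ := hno (s x) h1 x hx ⟨-1, by simp⟩
      exact ⟨z', h2.trans ⟨-1, by simp⟩, h3⟩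
    · exact absurd h1 hsx
    · obtain ⟨z', h2, h3⟩ := Bridge.on_face h h1
      exact ⟨z', h2.trans ⟨-1, by simp⟩, h3⟩
  have hv : ¬ s.SameCycle z z' := by
    intro hzz
    refine h.noPinch hxt ?_ htx
    exact hzt.symm.trans (hzz.trans hz'x)
  have h2 := Rg3.two_faces h hR (t₁ := z) (t₂ := z') (t₁' := t) (t₂' := x)
    (hz.symm.trans hz') htx (fun hh => (hd t ht).1 (hz.trans hh)) hzt hz'x hv
  rcases h2 with h2 | h2
  · refine (hd t ht).2 ?_
    rw [← h2, Bridge.step]
    exact hz
  · refine (hd' _ hst).1 ?_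
    rw [h2]; exact hz

/-- Let `F` be the face of `c` (the cycle of `a * s`), `C = F ∪ a F` the set of its edges.  If the closed
set `B` avoids `C`, is nonempty, and `B' := (B ∪ C)ᶜ` is nonempty, then `B` and `B'` share a vertex which
is not on `F`. -/
theorem Rg3.face_bridge (h : Good a s) (hR : Rg3 a s) (c : T) {B : Finset T} (hB : Cl a B)
    (hne : B.Nonempty) (hd : ∀ t ∈ B, ¬ (a * s).SameCycle c t)
    (hu : ∃ t, t ∉ B ∧ ¬ (a * s).SameCycle c t ∧ ¬ (a * s).SameCycle c (a t)) :
    ∃ x y, x ∈ B ∧ y ∉ B ∧ s.SameCycle x y ∧ ∀ z, s.SameCycle x z → ¬ (a * s).SameCycle c z := by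
  classical
  by_contra hcon
  have hcon' : ∀ x ∈ B, ∀ y, y ∉ B → s.SameCycle x y →
      ∃ z, s.SameCycle z x ∧ (a * s).SameCycle c z := by
    intro x hx y hy hxy
    by_contra h1
    push Not at h1
    exact hcon ⟨x, y, hx, hy, hxy, fun z hz => h1 z hz.symm⟩
  set B' : Finset T := univ.filter fun t =>
    t ∉ B ∧ ¬ (a * s).SameCycle c t ∧ ¬ (a * s).SameCycle c (a t) with hB'def
  have mB' : ∀ t, t ∈ B' ↔ t ∉ B ∧ ¬ (a * s).SameCycle c t ∧ ¬ (a * s).SameCycle c (a t) := by
    intro t; simp [hB'def]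
  have hB' : Cl a B' := by
    intro t
    rw [mB', mB', hB, h.inv]
    tauto
  have hdB : ∀ t ∈ B, ¬ (a * s).SameCycle c t ∧ ¬ (a * s).SameCycle c (a t) :=
    fun t ht => ⟨hd t ht, hd _ ((hB t).2 ht)⟩
  have hdB' : ∀ t ∈ B', ¬ (a * s).SameCycle c t ∧ ¬ (a * s).SameCycle c (a t) :=
    fun t ht => ((mB' t).1 ht).2
  have hdisj : ∀ t ∈ B, t ∉ B' := fun t ht ht' => ((mB' t).1 ht').1 ht
  have hall : ∀ t, t ∈ B ∨ t ∈ B' ∨ ((a * s).SameCycle c t ∨ (a * s).SameCycle c (a t)) := by
    intro t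
    rw [mB']
    tauto
  have hall' : ∀ t, t ∈ B' ∨ t ∈ B ∨ ((a * s).SameCycle c t ∨ (a * s).SameCycle c (a t)) := by
    intro t
    have := hall t
    tauto
  have nc1 : ∀ t ∈ B, s t ∉ B' := fun t ht =>
    Bridge.no_change h hR c hB' hdisj hdB hdB' hall
      (fun x hx y hy hxy => hcon' x hx y (fun hy' => hdisj y hy' hy) hxy) ht
  have nc2 : ∀ t ∈ B', s t ∉ B := fun t ht =>
    Bridge.no_change h hR c hB (fun t ht ht' => hdisj t ht' ht) hdB' hdB hall'
      (fun x hx y hy hxy => by
        obtain ⟨z, h1, h2⟩ := hcon' y hy x (fun hx' => hdisj x hx' hx) hxy.symm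
        exact ⟨z, h1.trans hxy.symm, h2⟩) ht
  -- the type of a vertex of the face
  have notC : ∀ {t x : T}, (a * s).SameCycle c t → s.SameCycle t x → x ≠ t → x ≠ s t →
      (x ∈ B ∨ x ∈ B') := by
    intro t x ht hx h1 h2
    rcases hall x with h3 | h3 | h3 | h3
    · exact Or.inl h3
    · exact Or.inr h3
    · exact absurd ((Bridge.at_vertex h ht hx).1 h3) h1
    · exact absurd ((Bridge.at_vertex h ht hx).2 h3) h2
  have type : ∀ {t : T}, (a * s).SameCycle c t → ∀ n : ℕ, (s ^ n) (s (s t)) ≠ t →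
      (s ^ n) (s (s t)) ≠ s t → ((s ^ n) (s (s t)) ∈ B ↔ s (s t) ∈ B) := by
    intro t ht n
    induction n with
    | zero => intro _ _; simp
    | succ n ih =>
      intro h1 h2
      rw [pow_succ', Perm.mul_apply] at h1 h2 ⊢
      set y := (s ^ n) (s (s t)) with hy
      have hty : s.SameCycle t y := by
        rw [hy]
        simp only [Perm.sameCycle_pow_right, Perm.sameCycle_apply_right, Perm.SameCycle.refl]
      have htsy : s.SameCycle t (s y) := hty.trans ⟨1, by simp⟩
      by_cases e1 : y = t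
      · exact absurd (by rw [e1]) h2
      by_cases e2 : y = s t
      · rw [e2]
      · rw [← ih e1 e2]
        rcases notC ht hty e1 e2 with h3 | h3
        · rcases notC ht htsy h1 h2 with h4 | h4
          · exact ⟨fun _ => h3, fun _ => h4⟩
          · exact absurd h4 (nc1 y h3)
        · rcases notC ht htsy h1 h2 with h4 | h4
          · exact absurd h4 (nc2 y h3)
          · exact ⟨fun h5 => absurd h4 (hdisj _ h5), fun h5 => absurd h3 (hdisj _ h5)⟩
  have type' : ∀ {t : T}, (a * s).SameCycle c t → (s⁻¹ t ∈ B ↔ s (s t) ∈ B) := by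
    intro t ht
    obtain ⟨n, hn⟩ := (show s.SameCycle (s (s t)) (s⁻¹ t) by
      rw [Perm.sameCycle_apply_left, Perm.sameCycle_apply_left]
      exact ⟨-1, by simp⟩).exists_nat_pow_eq
    have h1 := type ht n
    rw [hn] at h1
    refine h1 ?_ ?_
    · intro e
      apply h.s_ne t
      conv_lhs => rw [← e]
      simp
    · intro e
      apply Rg3.deg3 h hR t
      rw [← e]
      simp
  have typeC : ∀ {t : T}, (a * s).SameCycle c t → (s (s t) ∈ B ∨ s (s t) ∈ B') := fun {t} ht =>
    notC ht (by simp only [Perm.sameCycle_apply_right, Perm.SameCycle.refl])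
      (Rg3.deg3 h hR t) (h.s_ne (s t))
  have typeC' : ∀ {t : T}, (a * s).SameCycle c t → (s⁻¹ t ∈ B ∨ s⁻¹ t ∈ B') := fun {t} ht => by
    refine notC ht ⟨-1, by simp⟩ ?_ ?_
    · intro e
      apply h.s_ne t
      conv_lhs => rw [← e]
      simp
    · intro e
      apply Rg3.deg3 h hR t
      rw [← e]
      simp
  -- both types occur
  have occ : ∀ {X X' : Finset T}, Cl a X → X.Nonempty → X ≠ univ → (∀ t ∈ X, s t ∉ X') →
      (∀ t ∈ X', s t ∉ X) → (∀ t ∈ X, ¬ (a * s).SameCycle c t ∧ ¬ (a * s).SameCycle c (a t)) →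
      (∀ t, t ∈ X ∨ t ∈ X' ∨ ((a * s).SameCycle c t ∨ (a * s).SameCycle c (a t))) →
      ∃ t, (a * s).SameCycle c t ∧ (s⁻¹ t ∈ X ∨ s (s t) ∈ X) := by
    intro X X' hX hXne hXu n1 n2 hdX hallX
    have h4 := h.ns X hX hXne hXu
    have h5 : (bd s X).Nonempty := by
      rw [← Finset.card_pos]
      show 0 < cut s X
      omega
    obtain ⟨t, ht⟩ := h5
    rw [mem_bd] at ht
    by_cases htX : t ∈ X
    · have hst : s t ∉ X := fun h6 => ht ⟨fun _ => h6, fun _ => htX⟩
      have h7 : (a * s).SameCycle c (s t) ∨ (a * s).SameCycle c (a (s t)) := by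
        rcases hallX (s t) with h6 | h6 | h6
        · exact absurd h6 hst
        · exact absurd h6 (n1 t htX)
        · exact h6
      rcases h7 with h7 | h7
      · exact ⟨s t, h7, Or.inl (by simpa using htX)⟩
      · rw [Bridge.step] at h7
        exact absurd h7 (hdX t htX).1
    · have hst : s t ∈ X := by
        by_contra h6
        exact ht ⟨fun h7 => absurd h7 htX, fun h7 => absurd h7 h6⟩
      have h7 : (a * s).SameCycle c t ∨ (a * s).SameCycle c (a t) := by
        rcases hallX t with h6 | h6 | h6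
        · exact absurd h6 htX
        · exact absurd hst (n2 t h6)
        · exact h6
      rcases h7 with h7 | h7
      · exact absurd ((Bridge.step c t).2 h7) (hdX _ hst).2
      · refine ⟨s⁻¹ t, (Bridge.step' h c t).2 h7, Or.inr (by simpa using hst)⟩
  have hB'ne : B'.Nonempty := by
    obtain ⟨t, ht⟩ := hu
    exact ⟨t, (mB' t).2 ht⟩
  obtain ⟨t1, ht1, ht1'⟩ := occ hB hne
    (fun e => by obtain ⟨t, ht⟩ := hB'ne; exact hdisj t (e ▸ mem_univ t) ht) nc1 nc2 hdB hall
  obtain ⟨t2, ht2, ht2'⟩ := occ hB' hB'ne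
    (fun e => by obtain ⟨t, ht⟩ := hne; exact hdisj t ht (e ▸ mem_univ t)) nc2 nc1 hdB' hall'
  have ht1B : s (s t1) ∈ B := by
    rcases ht1' with h1 | h1
    · exact (type' ht1).1 h1
    · exact h1
  have ht2B : s (s t2) ∉ B := by
    intro h3
    rcases ht2' with h1 | h1
    · exact hdisj _ ((type' ht2).2 h3) h1
    · exact hdisj _ h3 h1
  -- a change of type along the face
  obtain ⟨t, ht, htB, htB'⟩ : ∃ t, (a * s).SameCycle c t ∧ s (s t) ∈ B ∧
      s (s (a (s t))) ∉ B := by
    by_contra hc2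
    push Not at hc2
    have h1 : ∀ n : ℕ, s (s (((a * s) ^ n) t1)) ∈ B := by
      intro n
      induction n with
      | zero => simpa using ht1B
      | succ n ih =>
        rw [pow_succ', Perm.mul_apply]
        refine hc2 _ (ht1.trans ⟨n, by simp⟩) ih
    obtain ⟨n, hn⟩ := (ht1.symm.trans ht2).exists_nat_pow_eq
    exact ht2B (hn ▸ h1 n)
  -- the face on the other side
  have hF' : (a * s).SameCycle c (a (s t)) := (Bridge.step c t).2 ht
  have hGF : ¬ (a * s).SameCycle c (s t) := by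
    intro hh
    exact h.noPinch (t := t) (t' := s t) (Ne.symm (h.s_ne t)) ⟨1, by simp⟩ (ht.symm.trans hh)
  have hy : s⁻¹ (a (s t)) ∉ B := fun h1 => htB' ((type' hF').1 h1)
  have hσy : (a * s) (s⁻¹ (a (s t))) = s t := by simp [Perm.mul_apply, h.inv]
  have walk : ∀ k : ℕ, (∀ i ≤ k, ((a * s) ^ i) ((a * s) (s t)) ≠ s t) →
      ((a * s) ^ k) ((a * s) (s t)) ∈ B := by
    intro k
    induction k with
    | zero =>
      intro _
      rw [pow_zero, Perm.one_apply, Perm.mul_apply, hB]
      exact htB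
    | succ k ih =>
      intro hk
      have h1 := ih fun i hi => hk i (by omega)
      have h2 := hk (k + 1) le_rfl
      rw [pow_succ', Perm.mul_apply] at h2 ⊢
      set z := ((a * s) ^ k) ((a * s) (s t)) with hz
      have hGz : (a * s).SameCycle (s t) z := ⟨(k : ℤ) + 1, by
        rw [hz, zpow_add, Perm.mul_apply]; simp⟩
      by_contra h3
      have h4 : s z ∉ B := fun h5 => h3 ((hB _).2 h5)
      rcases hall (s z) with h5 | h5 | h5
      · exact h4 h5
      · exact nc1 z h1 h5
      · rcases h5 with h5 | h5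
        · -- `s z` in the face, so `a (σ z)` is
          refine h2 ?_
          have h6 := Rg3.simple (h.dual) (Rg3.dual h hR) (x := (a * s) z) (y := s t)
            ((hGz.trans ⟨1, by simp⟩).symm) (by
              rw [Perm.mul_apply, h.inv]
              exact h5.symm.trans hF')
          exact h6
        · rw [Bridge.step] at h5
          exact hGF (h5.trans hGz.symm)
  obtain ⟨n, hn⟩ := (show (a * s).SameCycle ((a * s) (s t)) (s t) from
    ⟨-1, by simp⟩).exists_nat_pow_eq
  have hex : ∃ n, ((a * s) ^ n) ((a * s) (s t)) = s t := ⟨n, hn⟩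
  set m := Nat.find hex with hm
  have hmspec := Nat.find_spec hex
  rw [← hm] at hmspec
  rcases Nat.eq_zero_or_pos m with h0 | hpos
  · rw [h0, pow_zero, Perm.one_apply] at hmspec
    have h1 : s t ∈ B := by
      rw [← hmspec, Perm.mul_apply, hB]; exact htB
    exact (hdB _ h1).2 hF'
  · obtain ⟨k, hk⟩ := Nat.exists_eq_succ_of_ne_zero hpos.ne'
    have h1 := walk k fun i hi h2 => Nat.find_min hex (show i < Nat.find hex by omega) h2
    rw [hk, Nat.succ_eq_add_one, pow_succ', Perm.mul_apply] at hmspec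
    have h2 : ((a * s) ^ k) ((a * s) (s t)) = s⁻¹ (a (s t)) :=
      (a * s).injective (hmspec.trans hσy.symm)
    rw [h2] at h1
    exact hy h1

end

end PGr
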