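import Pool.Agent.PGr.Final
import Pool.Agent.PGr.NetSumC
import Pool.Agent.PGr.CompInj

/-!
# Exact equation for the growth constant: definitions
-/

set_option linter.unusedSectionVars false

namespace PGr
open Equiv Finset
open scoped ENNReal Classical

section maps
variable {T : Type*} [Fintype T] [DecidableEq T]

/-- the vertex of `t` is incident with an element of `A` and with an element outside `A` -/
def ShC (s : Perm T) (A : Finset T) (t : T) : Prop :=
  (∃ x ∈ A, s.SameCycle t x) ∧ ∃ x, x ∉ A ∧ s.SameCycle t x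

/-- at least four edges, and all nontrivial cuts are larger than `4`; for a rooted map `M`,
`Rigid M` unfolds to `Rg3 M.aa M.s` -/
def Rg3 (a s : Perm T) : Prop :=
  8 ≤ Fintype.card T ∧ ∀ A : Finset T, Cl a A → 4 ≤ A.card → A.card + 4 ≤ Fintype.card T →
    4 < cut s A

theorem rigid_iff (M : BMap) : Rigid M ↔ Rg3 M.aa M.s := Iff.rfl

end maps

section nets
universe u
variable {Λ : Type u}

/-- exchange the poles if `b` is true -/
def LNet.fl (b : Bool) (N : LNet Λ) : LNet Λ where
  D := N.D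
  V := N.V
  a := N.a
  inc := Sum.elim (fun d => N.inc (Sum.inl d)) (fun c => N.inc (Sum.inr (xor b c)))
  lab := N.lab

/-- `ψ` matches the cores `C`, `C'` as graphs with root dart, the networks on their edges, and the
labels of their internal vertices -/
structure CMatch {C C' : Core} (N : C.I → LNet Λ) (N' : C'.I → LNet Λ) (g : C.CV → Λ)
    (g' : C'.CV → Λ) (ψ : C.toB.T ≃ C'.toB.T) : Prop where
  aa : ∀ t, ψ (C.toB.aa t) = C'.toB.aa (ψ t)
  root : ∀ b, ψ (Sum.inr b) = Sum.inr b
  vtx : ∀ t t', C.s.SameCycle t t' ↔ C'.s.SameCycle (ψ t) (ψ t')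
  net : ∀ i c i' c', ψ (Sum.inl (i, c)) = Sum.inl (i', c') → NIso (N i) (LNet.fl (xor c c') (N' i'))
  lab : ∀ t, (∀ b, C.vinc t ≠ C.vinc (Sum.inr b)) → g' (C'.vinc (ψ t)) = g (C.vinc t)

/-- the set of common vertices of `A` and its complement -/
noncomputable def shV {T V : Type*} [Fintype T] [Fintype V] (inc : T → V) (A : Finset T) :
    Finset V := univ.filter (Sh inc A)

end nets

/-! ### sizes -/

/-- the size of a network whose vertices are labelled by rooted graphs: the sum of the sizes of the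
labels of its internal vertices -/
noncomputable def sg (N : LNet RC) : ℕ := ∑ x : N.Int, (N.lab x.1).rep.1.size

/-- weight `x ^ size` -/
noncomputable def wx (x : ℝ≥0∞) (c : RC) : ℝ≥0∞ := x ^ c.rep.1.size

/-- number of classes of rooted connected planar graphs with `j` vertices -/
noncomputable def rcount (j : ℕ) : ℕ := Nat.card {c : RC // c.rep.1.size = j}

/-- number of classes of networks of size `j` -/
noncomputable def dcount (j : ℕ) : ℕ := Nat.card {c : NC RC // sg c.rep.1 = j}

/-- truncated sums over networks -/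
noncomputable def Dt (x : ℝ≥0∞) (n : ℕ) (P : LNet RC → Prop) : ℝ≥0∞ :=
  ∑' c : NC RC, if P c.rep.1 ∧ sg c.rep.1 ≤ n then x ^ sg c.rep.1 else 0

/-- the same, every network counted with multiplicity equal to its size -/
noncomputable def Dp (x : ℝ≥0∞) (n : ℕ) (P : LNet RC → Prop) : ℝ≥0∞ :=
  ∑' c : NC RC, if P c.rep.1 ∧ sg c.rep.1 ≤ n then (sg c.rep.1 : ℝ≥0∞) * x ^ sg c.rep.1 else 0

/-- rooted graphs with at most `n` vertices, counted with multiplicity equal to the size -/
noncomputable def Kp (x : ℝ≥0∞) (n : ℕ) : ℝ≥0∞ :=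
  ∑' c : RC, if c.rep.1.size ≤ n then (c.rep.1.size : ℝ≥0∞) * x ^ c.rep.1.size else 0

/-- pieces with at most `n` vertices, counted with multiplicity `size - 1` -/
noncomputable def Pp (x : ℝ≥0∞) (n : ℕ) : ℝ≥0∞ :=
  ∑' c : RC, if Piece c.rep.1 ∧ c.rep.1.size ≤ n then
    ((c.rep.1.size - 1 : ℕ) : ℝ≥0∞) * x ^ (c.rep.1.size - 1) else 0

/-- derivative of `Rg` with respect to `E` -/
noncomputable def RgE (s E : ℝ≥0∞) : ℝ≥0∞ :=
  ∑' c : GC, if Rigid c.rep.1 then ((Fintype.card c.rep.1.D / 2 : ℕ) : ℝ≥0∞) *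
    (s ^ (nV c.rep.1.s - 2) * E ^ (Fintype.card c.rep.1.D / 2 - 1)) else 0

/-- derivative of `Rg` with respect to `s` -/
noncomputable def RgS (s E : ℝ≥0∞) : ℝ≥0∞ :=
  ∑' c : GC, if Rigid c.rep.1 then ((nV c.rep.1.s - 2 : ℕ) : ℝ≥0∞) *
    (s ^ (nV c.rep.1.s - 3) * E ^ (Fintype.card c.rep.1.D / 2)) else 0

/-! ### the critical curve -/

/-- parametrisation of the vertex weight on the critical curve -/
noncomputable def scr (t : ℝ) : ℝ := (1 + 3 * t) * (1 - t) ^ 3 / (16 * t ^ 3)

/-- parametrisation of the critical value of the generating function of networks -/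
noncomputable def ecr (t : ℝ) : ℝ := 3 * t ^ 2 / ((1 - t) * (1 + 3 * t))

/-- the solution `u` of `u (1 - v)^2 = s v (1 - u)^2` in `(0, 1)` -/
noncomputable def uf (s v : ℝ) : ℝ :=
  2 * (s * v / (1 - v) ^ 2) /
    (1 + 2 * (s * v / (1 - v) ^ 2) + Real.sqrt (1 + 4 * (s * v / (1 - v) ^ 2)))

/-- edge weight as a function of the parameter -/
noncomputable def Yf (s v : ℝ) : ℝ := v * (1 - uf s v) ^ 2

/-- generating function of the maps as a function of the parameter -/
noncomputable def Ef (s v : ℝ) : ℝ := v * (1 - uf s v - v) / (1 - v) ^ 2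

/-! ### plain graphs -/

/-- rooted connected planar graphs on `Fin n` -/
def RPl (n : ℕ) : Type := {p : SimpleGraph (Fin n) × Fin n // p.1.Connected ∧ IsPlanar p.1}

def rpSetoid (n : ℕ) : Setoid (RPl n) where
  r p q := ∃ f : p.1.1 ≃g q.1.1, f p.1.2 = q.1.2
  iseqv := ⟨fun _ => ⟨SimpleGraph.Iso.refl, rfl⟩,
    fun ⟨f, h⟩ => ⟨f.symm, by rw [← h]; exact f.symm_apply_apply _⟩,
    fun ⟨f, h⟩ ⟨g, h'⟩ => ⟨f.trans g, by rw [← h', ← h]; rfl⟩⟩

/-- number of unlabelled connected planar graphs on `n` vertices with a root vertex -/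
noncomputable def rr (n : ℕ) : ℕ := Nat.card (Quotient (rpSetoid n))

/-- deleting `v` leaves a connected graph (or nothing) -/
def NonCut {V : Type} (G : SimpleGraph V) (v : V) : Prop := (G.induce {v}ᶜ).Preconnected

/-- connected planar graphs on `Fin n` with a root arc whose ends are not cut vertices -/
def APl (n : ℕ) : Type := {p : SimpleGraph (Fin n) × Fin n × Fin n //
  p.1.Connected ∧ IsPlanar p.1 ∧ p.1.Adj p.2.1 p.2.2 ∧ NonCut p.1 p.2.1 ∧ NonCut p.1 p.2.2}

def apSetoid (n : ℕ) : Setoid (APl n) where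
  r p q := ∃ f : p.1.1 ≃g q.1.1, f p.1.2.1 = q.1.2.1 ∧ f p.1.2.2 = q.1.2.2
  iseqv := ⟨fun _ => ⟨SimpleGraph.Iso.refl, rfl, rfl⟩,
    fun ⟨f, h, h'⟩ => ⟨f.symm, by rw [← h]; exact f.symm_apply_apply _,
      by rw [← h']; exact f.symm_apply_apply _⟩,
    fun ⟨f, h1, h1'⟩ ⟨g, h2, h2'⟩ => ⟨f.trans g, by rw [← h2, ← h1]; rfl, by rw [← h2', ← h1']; rfl⟩⟩

/-- number of unlabelled connected planar graphs on `n` vertices with a root arc whose ends are
not cut vertices -/
noncomputable def bb (n : ℕ) : ℕ := Nat.card (Quotient (apSetoid n))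

/-- a simple graph with a root vertex as a rooted graph given by its darts -/
noncomputable def toRG {V : Type} [Fintype V] [DecidableEq V] (G : SimpleGraph V) (v : V) : RG where
  D := G.Dart
  V := V
  a := dsymm G
  inc := fun d => d.fst
  v0 := v

end PGr
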