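import Pool.Agent.PGc.Rig1
import Pool.Agent.PGr.SubMap

/-! # Module Four: closed sets sharing only two vertices with the rest -/

set_option linter.unusedSectionVars false

namespace PGr
open Equiv Finset

namespace Four
variable {T : Type*} [Fintype T] [DecidableEq T] {a s : Perm T}

/-- a boundary corner has a partner in its cycle -/
theorem partner (f : Perm T) {A : Finset T} {t : T} (ht : t ∈ bd f A) :
    ∃ t', t' ≠ t ∧ f.SameCycle t t' ∧ t' ∈ bd f A := by
  by_contra hcon
  push Not at hcon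
  have hsum := sum_cycle_eq_zero f (fun x => if x ∈ A then (1 : ZMod 2) else 0) t
  rw [Finset.sum_eq_single t] at hsum
  · rw [mem_bd] at ht
    by_cases h1 : t ∈ A <;> by_cases h2 : f t ∈ A
    · exact ht (by simp [h1, h2])
    · simp [h1, h2] at hsum
    · simp [h1, h2] at hsum
    · exact ht (by simp [h1, h2])
  · intro x hx hne
    rw [mem_filter] at hx
    have := hcon x hne hx.2
    rw [mem_bd, not_not] at this
    by_cases h1 : x ∈ A
    · rw [if_pos h1, if_pos (this.mp h1)]; decide
    · rw [if_neg h1, if_neg (fun h2 => h1 (this.mpr h2))]; decide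
  · intro hn
    exact absurd (mem_filter.mpr ⟨mem_univ _, Perm.SameCycle.refl _ _⟩) hn

theorem bd_dual {A : Finset T} (hA : Cl a A) : bd (a * s) A = bd s A := by
  ext t
  rw [mem_bd, mem_bd, Perm.mul_apply, hA]

theorem shC_of_bd {A : Finset T} {t : T} (ht : t ∈ bd s A) : ShC s A t := by
  rw [mem_bd] at ht
  by_cases h1 : t ∈ A
  · exact ⟨⟨t, h1, Perm.SameCycle.refl _ _⟩, s t, fun h2 => ht ⟨fun _ => h2, fun _ => h1⟩,
      ⟨1, by simp⟩⟩
  · have h2 : s t ∈ A := by
      by_contra h2
      exact ht ⟨fun h => absurd h h1, fun h => absurd h h2⟩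
    exact ⟨⟨s t, h2, ⟨1, by simp⟩⟩, t, h1, Perm.SameCycle.refl _ _⟩

theorem exists_bd_of_shC {A : Finset T} {t : T} (ht : ShC s A t) :
    ∃ z ∈ bd s A, s.SameCycle t z := by
  obtain ⟨⟨x, hx, hx'⟩, y, hy, hy'⟩ := ht
  obtain ⟨k, hk, hk'⟩ := SubMap.exit s hx hy (hx'.symm.trans hy')
  refine ⟨(s ^ k) x, ?_, hx'.trans ⟨k, by simp⟩⟩
  rw [mem_bd]
  intro h
  exact hk' (h.mp (hk k le_rfl))

end Four

section
variable {T : Type*} [Fintype T] [DecidableEq T] {a s : Perm T}

/-- A closed proper set shares two different vertices with its complement. -/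
theorem Good.two_shared (h : Good a s) {A : Finset T} (hA : Cl a A) (hne : A.Nonempty)
    (hu : A ≠ univ) : ∃ t t', ShC s A t ∧ ShC s A t' ∧ ¬ s.SameCycle t t' := by
  have h4 := h.ns A hA hne hu
  have hpos : 0 < (bd s A).card := by rw [cut] at h4; omega
  obtain ⟨t, ht⟩ := card_pos.mp hpos
  obtain ⟨t', hne', hsc, ht'⟩ := Four.partner (a * s) (A := A) (t := t)
    (by rw [Four.bd_dual hA]; exact ht)
  rw [Four.bd_dual hA] at ht'
  refine ⟨t, t', Four.shC_of_bd ht, Four.shC_of_bd ht', fun hs => ?_⟩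
  exact h.noPinch hne'.symm hs hsc

/-- Let all shared vertices of `A` be the vertices of `p` or of `q`, and let the corner `c` at `p` be a
boundary corner, `c ∉ A`, `s c ∈ A`.  Then there is a closed set `B` with cut 4 which contains `s c`, not
`c`, whose darts at `p` are in `A`, which shares only the vertices of `p` and `q` with its complement,
and has a dart at `q`. -/
theorem Good.exists_four (h : Good a s) {A : Finset T} (hA : Cl a A) {p q c : T}
    (hpq : ¬ s.SameCycle p q)
    (hsh : ∀ t, ShC s A t → s.SameCycle p t ∨ s.SameCycle q t)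
    (hp : s.SameCycle p c) (hc : c ∉ A) (hc' : s c ∈ A) :
    ∃ B : Finset T, Cl a B ∧ cut s B = 4 ∧ s c ∈ B ∧ c ∉ B ∧
      (∀ t, s.SameCycle p t → t ∈ B → t ∈ A) ∧
      (∀ t, ShC s B t → s.SameCycle p t ∨ s.SameCycle q t) ∧ ∃ x ∈ B, s.SameCycle q x := by
  have hcsc : s.SameCycle c (s c) := ⟨1, by simp⟩
  obtain ⟨k, hk, hk'⟩ := SubMap.exit s hc' hc hcsc.symm
  set c' := (s ^ k) (s c) with hc'def
  have hc'A : c' ∈ A := hk k le_rfl
  have hcc' : s.SameCycle c c' := hcsc.trans ⟨k, by simp [hc'def]⟩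
  have hne : c ≠ c' := fun e => hc (e ▸ hc'A)
  have hbc : c ∈ bd s A := by rw [mem_bd]; exact fun e => hc (e.mpr hc')
  have hbc' : c' ∈ bd s A := by rw [mem_bd]; exact fun e => hk' (e.mp hc'A)
  obtain ⟨d, hdc, hfd, hbd⟩ := Four.partner (a * s) (A := A) (t := c)
    (by rw [Four.bd_dual hA]; exact hbc)
  obtain ⟨d', hdc', hfd', hbd'⟩ := Four.partner (a * s) (A := A) (t := c')
    (by rw [Four.bd_dual hA]; exact hbc')
  rw [Four.bd_dual hA] at hbd hbd'
  have hd : s.SameCycle q d := by
    rcases hsh d (Four.shC_of_bd hbd) with h1 | h1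
    · exact absurd hfd (h.noPinch hdc.symm (hp.symm.trans h1))
    · exact h1
  have hd' : s.SameCycle q d' := by
    rcases hsh d' (Four.shC_of_bd hbd') with h1 | h1
    · exact absurd hfd' (h.noPinch hdc'.symm (hcc'.symm.trans (hp.symm.trans h1)))
    · exact h1
  have hsep : ∀ {u v : T}, s.SameCycle p u → s.SameCycle q v → u ≠ v := by
    rintro u v hu hv rfl
    exact hpq (hu.trans hv.symm)
  have hpc' : s.SameCycle p c' := hp.trans hcc'
  have hdd' : d ≠ d' := by
    rintro rfl
    exact h.noPinch hne hcc' (hfd.trans hfd'.symm)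
  have n1 : c ≠ d := hsep hp hd
  have n2 : c ≠ d' := hsep hp hd'
  have n3 : c' ≠ d := hsep hpc' hd
  have n4 : c' ≠ d' := hsep hpc' hd'
  obtain ⟨B, hB, hbB, hscB⟩ : ∃ B : Finset T, Cl a B ∧ bd s B = {c, c', d, d'} ∧ s c ∈ B := by
    obtain ⟨B0, hB0, hb0⟩ := Rig1.exists_closed h hcc' (hd.symm.trans hd') hfd hfd' hne n1 n2 n3 n4
      hdd'
    by_cases hm : s c ∈ B0
    · exact ⟨B0, hB0, hb0, hm⟩
    · exact ⟨B0ᶜ, hB0.compl, by rw [Rig1.bd_compl, hb0], mem_compl.mpr hm⟩
  have hcB : c ∉ B := by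
    have : c ∈ bd s B := by rw [hbB]; simp
    rw [mem_bd] at this
    exact fun e => this ⟨fun _ => hscB, fun _ => e⟩
  -- the arc from `s c` to `c'` is in `B`
  have harc : ∀ i ≤ k, (s ^ i) (s c) ∈ B := by
    intro i
    induction i with
    | zero => intro _; simpa using hscB
    | succ i ih =>
      intro hi
      have h1 := ih (by omega)
      have hu : (s ^ i) (s c) ∉ bd s B := by
        rw [hbB]
        simp only [mem_insert, mem_singleton, not_or]
        have hpu : s.SameCycle p ((s ^ i) (s c)) := hp.trans (hcsc.trans ⟨i, by simp⟩)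
        refine ⟨fun e => hc (e ▸ hk i (by omega)), fun e => ?_, hsep hpu hd, hsep hpu hd'⟩
        apply hk'
        have h2 := hk (i + 1) hi
        rw [pow_succ', Perm.mul_apply, e] at h2
        exact h2
      rw [mem_bd, not_not] at hu
      rw [pow_succ', Perm.mul_apply]
      exact hu.mp h1
  have hc'B : c' ∈ B := harc k le_rfl
  have hsc'B : s c' ∉ B := by
    have : c' ∈ bd s B := by rw [hbB]; simp
    rw [mem_bd] at this
    exact fun e => this ⟨fun _ => e, fun _ => hc'B⟩
  refine ⟨B, hB, ?_, hscB, hcB, ?_, ?_, ?_⟩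
  · rw [cut, hbB, card_insert_of_notMem, card_insert_of_notMem, card_pair hdd']
    · simp [n3, n4]
    · simp [hne, n1, n2]
  · intro t ht htB
    have hts : s.SameCycle t (s c') := ht.symm.trans (hpc'.trans ⟨1, by simp⟩)
    obtain ⟨m, hm, hm'⟩ := SubMap.exit s htB hsc'B hts
    have hpm : s.SameCycle p ((s ^ m) t) := ht.trans ⟨m, by simp⟩
    have hmb : (s ^ m) t ∈ bd s B := by
      rw [mem_bd]; exact fun e => hm' (e.mp (hm m le_rfl))
    have hmc : (s ^ m) t = c' := by
      rw [hbB] at hmb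
      simp only [mem_insert, mem_singleton] at hmb
      rcases hmb with e | e | e | e
      · exact absurd (e ▸ hm m le_rfl) hcB
      · exact e
      · exact absurd e (hsep hpm hd)
      · exact absurd e (hsep hpm hd')
    rcases le_or_gt m k with hle | hlt
    · have : t = (s ^ (k - m)) (s c) := by
        apply (s ^ m).injective
        rw [hmc, ← Perm.mul_apply, ← pow_add, hc'def]
        congr 2
        omega
      rw [this]
      exact hk _ (by omega)
    · exfalso
      apply hcB
      have : (s ^ (m - (k + 1))) t = c := by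
        apply (s ^ (k + 1)).injective
        rw [← Perm.mul_apply, ← pow_add]
        have e1 : k + 1 + (m - (k + 1)) = m := by omega
        rw [e1, hmc, hc'def, pow_succ, Perm.mul_apply]
      rw [← this]
      exact hm _ (by omega)
  · intro t ht
    obtain ⟨z, hz, htz⟩ := Four.exists_bd_of_shC ht
    rw [hbB] at hz
    simp only [mem_insert, mem_singleton] at hz
    rcases hz with rfl | rfl | rfl | rfl
    · exact Or.inl (hp.trans htz.symm)
    · exact Or.inl (hpc'.trans htz.symm)
    · exact Or.inr (hd.trans htz.symm)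
    · exact Or.inr (hd'.trans htz.symm)
  · have hdb : d ∈ bd s B := by rw [hbB]; simp
    rw [mem_bd] at hdb
    by_cases h1 : d ∈ B
    · exact ⟨d, h1, hd⟩
    · refine ⟨s d, ?_, hd.trans ⟨1, by simp⟩⟩
      by_contra h2
      exact hdb ⟨fun h => absurd h h1, fun h => absurd h h2⟩

end

end PGr
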