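import Pool.Agent.PGc.CDefs
import Pool.Agent.PGr.EReal
import Pool.Agent.PGr.Euler

/-! # Module SmallY: convergence for small edge weight -/

set_option linter.unusedSectionVars false

namespace PGr
open Equiv Finset
open scoped ENNReal Classical

/-- the root face has at most as many edges as the map: no edge has the same face on both sides
(`noLoop` of the dual) -/
theorem rl_le {M : BMap} (h : M.IsGood) : M.rl ≤ Fintype.card M.D / 2 + 1 := by
  have hd : Good M.aa (M.aa * M.s) := Good.dual h
  set f : M.T → M.T := fun t => (M.aa * M.s) t with hf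
  set x : M.T := Sum.inr true with hx
  have hrl : M.rl = Function.minimalPeriod f x := rfl
  set n := Function.minimalPeriod f x with hn
  have hiter : ∀ k, f^[k] x = ((M.aa * M.s) ^ k) x := by
    intro k
    rw [hf]
    exact (congrFun (Equiv.Perm.iterate_eq_pow (M.aa * M.s) k) x)
  set O : Finset M.T := (range n).image (fun k => f^[k] x) with hO
  have hcard : O.card = n := by
    rw [hO, card_image_of_injOn, card_range]
    intro i hi j hj hij
    simp only [coe_range, Set.mem_Iio] at hi hj
    exact (Function.iterate_eq_iterate_iff_of_lt_minimalPeriod hi hj).1 hij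
  have hsame : ∀ t ∈ O, ∀ t' ∈ O, (M.aa * M.s).SameCycle t t' := by
    have h1 : ∀ t ∈ O, (M.aa * M.s).SameCycle x t := by
      intro t ht
      rw [hO, mem_image] at ht
      obtain ⟨k, _, rfl⟩ := ht
      rw [hiter]
      exact ⟨k, by simp⟩
    intro t ht t' ht'
    exact (h1 t ht).symm.trans (h1 t' ht')
  have hdisj : Disjoint O (O.image M.aa) := by
    rw [Finset.disjoint_left]
    intro t ht ht'
    rw [mem_image] at ht'
    obtain ⟨t', ht1, rfl⟩ := ht'
    exact hd.noLoop t' (hsame t' ht1 _ ht)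
  have h2 : O.card + (O.image M.aa).card ≤ Fintype.card M.T := by
    rw [← card_union_of_disjoint hdisj]
    exact card_le_univ _
  rw [card_image_of_injective _ M.aa.injective, hcard] at h2
  have h3 : Fintype.card M.T = Fintype.card M.D + 2 := by
    rw [Fintype.card_sum, Fintype.card_bool]
  omega

/-- Euler's formula, and there are at least two faces (`two_le_nV` of the dual) -/
theorem nV_le {M : BMap} (h : M.IsGood) : nV M.s - 2 ≤ Fintype.card M.D / 2 := by
  have h1 := Good.euler h
  have h2 := Good.two_le_nV (Good.dual h)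
  have h3 : Fintype.card M.T = Fintype.card M.D + 2 := by
    rw [Fintype.card_sum, Fintype.card_bool]
  omega

/-- Proof: with `m` = number of nonroot edges, `l ≤ m`, `V - 2 ≤ m`, and `s ≤ 3 es`, `y ≤ ey / 1900`:
`s^(V-2) y^m 4^l ≤ (12/1900)^m es^(V-2) ey^m ≤ (12/1900) es^(V-2) ey^m`, and `Es es ey ≤ 1101/1000`. -/
theorem T4_le {s y : ℝ≥0∞} (hs : s ≤ ENNReal.ofReal (1 / 10)) (hy : y ≤ ENNReal.ofReal (1 / 4000)) :
    ∑' l, tL s y l * 4 ^ l ≤ ENNReal.ofReal (1 / 100) := by
  have hs3 : s ≤ 3 * es := by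
    refine hs.trans ?_
    have : (3 : ℝ≥0∞) = ENNReal.ofReal 3 := by simp
    rw [this, es, ← ENNReal.ofReal_mul (by norm_num)]
    apply ENNReal.ofReal_le_ofReal
    norm_num [rs]
  set c : ℝ≥0∞ := ENNReal.ofReal (1 / 1900) with hc
  have hyc : y ≤ c * ey := by
    refine hy.trans ?_
    rw [hc, ey, ← ENNReal.ofReal_mul (by norm_num)]
    apply ENNReal.ofReal_le_ofReal
    norm_num [ry]
  have h12 : 12 * c = ENNReal.ofReal (12 / 1900) := by
    have : (12 : ℝ≥0∞) = ENNReal.ofReal 12 := by simp
    rw [this, hc, ← ENNReal.ofReal_mul (by norm_num)]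
    norm_num
  have h12le : 12 * c ≤ 1 := by
    rw [h12, ← ENNReal.ofReal_one]
    apply ENNReal.ofReal_le_ofReal
    norm_num
  -- one class
  have hone : ∀ d : GC, ∑' l : ℕ, (if d.rep.1.rl = l + 1 then W s y d.rep.1 else 0) * 4 ^ l ≤
      (12 * c) * W es ey d.rep.1 := by
    intro d
    set M : BMap := d.rep.1 with hM
    have hg : M.IsGood := d.rep.2
    have hrl := rl_le hg
    have hV := nV_le hg
    set m : ℕ := Fintype.card M.D / 2 with hm
    have hm1 : 1 ≤ m := by
      have h3 : Fintype.card M.T = Fintype.card M.D + 2 := by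
        rw [Fintype.card_sum, Fintype.card_bool]
      have h4 := hg.big
      omega
    have h1 : ∑' l : ℕ, (if M.rl = l + 1 then W s y M else 0) * 4 ^ l ≤ W s y M * 4 ^ m := by
      have h5 : ∀ l : ℕ, l ≠ M.rl - 1 →
          (if M.rl = l + 1 then W s y M else 0) * (4 : ℝ≥0∞) ^ l = 0 := by
        intro l hl
        rw [if_neg (by omega), zero_mul]
      rw [tsum_eq_single (M.rl - 1) h5]
      gcongr
      · split_ifs
        · exact le_rfl
        · exact zero_le
      · norm_num
      · omega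
    refine h1.trans ?_
    have h6 : W s y M ≤ (3 * es) ^ (nV M.s - 2) * (c * ey) ^ m := by
      unfold W
      gcongr
    have h7 : (3 * es) ^ (nV M.s - 2) * (c * ey) ^ m * 4 ^ m ≤ (12 * c) ^ m * W es ey M := by
      have h8 : (3 : ℝ≥0∞) ^ (nV M.s - 2) ≤ 3 ^ m := pow_le_pow_right₀ (by norm_num) hV
      unfold W
      calc (3 * es) ^ (nV M.s - 2) * (c * ey) ^ m * 4 ^ m
          = 3 ^ (nV M.s - 2) * (4 ^ m * c ^ m * (es ^ (nV M.s - 2) * ey ^ m)) := by
            rw [mul_pow, mul_pow]; ring
        _ ≤ 3 ^ m * (4 ^ m * c ^ m * (es ^ (nV M.s - 2) * ey ^ m)) := by gcongr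
        _ = (12 * c) ^ m * (es ^ (nV M.s - 2) * ey ^ m) := by
            have : (12 : ℝ≥0∞) = 3 * 4 := by norm_num
            rw [this, mul_pow, mul_pow]; ring
    have h9 : (12 * c) ^ m ≤ (12 * c) ^ 1 := pow_le_pow_right_of_le_one' h12le hm1
    calc W s y M * 4 ^ m ≤ (3 * es) ^ (nV M.s - 2) * (c * ey) ^ m * 4 ^ m := by gcongr
      _ ≤ (12 * c) ^ m * W es ey M := h7
      _ ≤ (12 * c) ^ 1 * W es ey M := by gcongr
      _ = (12 * c) * W es ey M := by rw [pow_one]
  have hsum : ∑' l, tL s y l * 4 ^ l =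
      ∑' d : GC, ∑' l : ℕ, (if d.rep.1.rl = l + 1 then W s y d.rep.1 else 0) * 4 ^ l := by
    rw [ENNReal.tsum_comm]
    refine tsum_congr fun l => ?_
    rw [ENNReal.tsum_mul_right]
    unfold tL Esel
    congr 1
    refine tsum_congr fun i => ?_
    by_cases hi : i.rep.1.rl = l + 1
    · rw [if_pos hi, if_pos hi]
    · rw [if_neg hi, if_neg hi]
  rw [hsum]
  calc ∑' d : GC, ∑' l : ℕ, (if d.rep.1.rl = l + 1 then W s y d.rep.1 else 0) * 4 ^ l
      ≤ ∑' d : GC, (12 * c) * W es ey d.rep.1 := ENNReal.tsum_le_tsum hone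
    _ = (12 * c) * Es es ey := by
        rw [ENNReal.tsum_mul_left]
        congr 1
        unfold Es Esel
        simp
    _ ≤ ENNReal.ofReal (12 / 1900) * ENNReal.ofReal (1101 / 1000) := by
        rw [h12]
        gcongr
        exact Es_le
    _ ≤ ENNReal.ofReal (1 / 100) := by
        rw [← ENNReal.ofReal_mul (by norm_num)]
        apply ENNReal.ofReal_le_ofReal
        norm_num

end PGr
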