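import Pool.Agent.PGc.TEq
import Pool.Agent.PGc.SmallY

/-! # Module Kernel: the generating function for small edge weight (kernel method) -/

set_option linter.unusedSectionVars false

namespace PGr
open Equiv Finset
open scoped ENNReal Classical

private lemma Kernel_pow_le (l : ℕ) : (l : ℝ) * 2 ^ (l - 1) ≤ 4 ^ l := by
  have h1 : (l : ℝ) ≤ 2 ^ l := by
    have := (Nat.lt_two_pow_self (n := l)).le
    exact_mod_cast this
  have h2 : (2 : ℝ) ^ (l - 1) ≤ 2 ^ l := pow_le_pow_right₀ (by norm_num) (Nat.sub_le _ _)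
  calc (l : ℝ) * 2 ^ (l - 1) ≤ 2 ^ l * 2 ^ l := by
        apply mul_le_mul h1 h2 (by positivity) (by positivity)
    _ = 4 ^ l := by rw [← mul_pow]; norm_num

private lemma Kernel_summ {t : ℕ → ℝ} (ht : ∀ l, 0 ≤ t l) (hs : Summable fun l => t l * 4 ^ l)
    {w : ℝ} (h0 : 0 ≤ w) (h4 : w ≤ 4) : Summable fun l => t l * w ^ l := by
  refine Summable.of_nonneg_of_le (fun l => mul_nonneg (ht l) (pow_nonneg h0 l)) (fun l => ?_) hs
  exact mul_le_mul_of_nonneg_left (pow_le_pow_left₀ h0 h4 l) (ht l)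

private lemma Kernel_deriv {t : ℕ → ℝ} (ht : ∀ l, 0 ≤ t l) (hs : Summable fun l => t l * 4 ^ l)
    {w : ℝ} (h0 : 0 < w) (h2 : w < 2) :
    ∃ d, HasDerivAt (fun z => ∑' l, t l * z ^ l) d w := by
  refine ⟨_, hasDerivAt_tsum_of_isPreconnected (g := fun l z => t l * z ^ l)
    (g' := fun l z => t l * ((l : ℝ) * z ^ (l - 1))) (u := fun l => t l * 4 ^ l) (t := Set.Ioo 0 2)
    (y₀ := w) hs isOpen_Ioo isPreconnected_Ioo ?_ ?_ ⟨h0, h2⟩ ?_ ⟨h0, h2⟩⟩
  · intro l z _
    exact (hasDerivAt_pow l z).const_mul (t l)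
  · intro l z hz
    have hz0 : 0 ≤ z := hz.1.le
    rw [Real.norm_of_nonneg (mul_nonneg (ht l) (mul_nonneg (Nat.cast_nonneg l)
      (pow_nonneg hz0 _)))]
    refine mul_le_mul_of_nonneg_left ?_ (ht l)
    refine le_trans ?_ (Kernel_pow_le l)
    exact mul_le_mul_of_nonneg_left (pow_le_pow_left₀ hz0 hz.2.le _) (Nat.cast_nonneg l)
  · exact Kernel_summ ht hs h0.le (by linarith)

private lemma Kernel_cont {t : ℕ → ℝ} (ht : ∀ l, 0 ≤ t l) (hs : Summable fun l => t l * 4 ^ l) :
    ContinuousOn (fun z => ∑' l, t l * z ^ l) (Set.Icc 1 2) := by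
  refine continuousOn_tsum (u := fun l => t l * 4 ^ l) (fun l => by fun_prop) hs ?_
  intro l z hz
  have hz0 : 0 ≤ z := by linarith [hz.1]
  rw [Real.norm_of_nonneg (mul_nonneg (ht l) (pow_nonneg hz0 l))]
  exact mul_le_mul_of_nonneg_left (pow_le_pow_left₀ hz0 (by linarith [hz.2]) l) (ht l)

private lemma Kernel_real {s y : ℝ} (hs : 0 < s) (hs' : s ≤ 1 / 10) (hy : 0 < y)
    (hy' : y ≤ 1 / 4000) (a t : ℕ → ℝ) (ha0 : ∀ l, 0 ≤ a l) (hat : ∀ l, a l ≤ t l)
    (ht0 : t 0 = 0) (hsum : Summable (fun l => t l * 4 ^ l))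
    (hle : ∑' l, t l * 4 ^ l ≤ 1 / 100)
    (ha : ∀ l, 0 < l → a l = (if l = 1 then y else 0) + y * ∑' m, if l ≤ m then t m else 0)
    (ht : ∀ l, t l = a l + s * ∑ p ∈ antidiagonal l, a p.1 * t p.2) :
    ∃ u v : ℝ, 0 < u ∧ u < 1 / 2 ∧ 0 < v ∧ v < 1 / 2 ∧ y = v * (1 - u) ^ 2 ∧
      s * y = u * (1 - v) ^ 2 ∧ ∑' l, t l = v * (1 - u - v) / (1 - v) ^ 2 := by
  have htn : ∀ l, 0 ≤ t l := fun l => (ha0 l).trans (hat l)
  have hasum : Summable (fun l => a l * 4 ^ l) := by
    refine Summable.of_nonneg_of_le (fun l => mul_nonneg (ha0 l) (by positivity)) (fun l => ?_) hsum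
    exact mul_le_mul_of_nonneg_right (hat l) (by positivity)
  set T : ℝ → ℝ := fun z => ∑' l, t l * z ^ l with hT
  set A : ℝ → ℝ := fun z => ∑' l, a l * z ^ l with hA
  set E : ℝ := ∑' l, t l with hE
  have hst : Summable t := by
    have := Kernel_summ htn hsum (w := 1) (by norm_num) (by norm_num)
    simpa using this
  have hT4 : ∀ w, 0 ≤ w → w ≤ 4 → T w ≤ 1 / 100 := by
    intro w h0 h4
    refine le_trans ?_ hle
    refine Summable.tsum_le_tsum (fun l => ?_) (Kernel_summ htn hsum h0 h4) hsum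
    exact mul_le_mul_of_nonneg_left (pow_le_pow_left₀ h0 h4 l) (htn l)
  have hT0 : ∀ w, 0 ≤ w → 0 ≤ T w := by
    intro w h0
    exact tsum_nonneg (fun l => mul_nonneg (htn l) (pow_nonneg h0 l))
  have hE0 : 0 ≤ E := tsum_nonneg htn
  have hE1 : T 1 = E := by
    show ∑' l, t l * 1 ^ l = ∑' l, t l
    simp
  have hEle : E ≤ 1 / 100 := by
    rw [← hE1]; exact hT4 1 (by norm_num) (by norm_num)
  have ha00 : a 0 = 0 := le_antisymm (by rw [← ht0]; exact hat 0) (ha0 0)
  -- differences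
  have hdiff : ∀ l, a l - a (l + 1) = y * t l + (if l = 1 then y else 0) -
      (if l = 0 then y + y * E else 0) := by
    intro l
    rcases Nat.eq_zero_or_pos l with h | h
    · subst h
      rw [ha00, ha 1 (by norm_num), ht0]
      have : (∑' m, if 1 ≤ m then t m else 0) = E := by
        refine tsum_congr (fun m => ?_)
        rcases Nat.eq_zero_or_pos m with hm | hm
        · subst hm; simp [ht0]
        · rw [if_pos (show 1 ≤ m from hm)]
      rw [this]
      simp
    · rw [ha l h, ha (l + 1) (by omega)]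
      have h1 : (∑' m, if l ≤ m then t m else 0) - (∑' m, if l + 1 ≤ m then t m else 0) = t l := by
        rw [← Summable.tsum_sub]
        · rw [tsum_eq_single l]
          · simp
          · intro m hm
            by_cases h2 : l ≤ m
            · rw [if_pos h2, if_pos (by omega), sub_self]
            · rw [if_neg h2, if_neg (by omega), sub_self]
        · refine Summable.of_nonneg_of_le (fun m => ?_) (fun m => ?_) hst
          · split_ifs; exacts [htn m, le_rfl]
          · split_ifs; exacts [le_rfl, htn m]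
        · refine Summable.of_nonneg_of_le (fun m => ?_) (fun m => ?_) hst
          · split_ifs; exacts [htn m, le_rfl]
          · split_ifs; exacts [le_rfl, htn m]
      rw [if_neg (show ¬ l = 0 by omega), if_neg (show ¬ l + 1 = 1 by omega)]
      linear_combination y * h1
  -- functional equation for A
  have hAeq : ∀ w, 0 < w → w ≤ 4 → (w - 1) * A w = y * w * (w - 1 + T w - E) := by
    intro w h0 h4
    have s1 : Summable (fun l => a l * w ^ l) := Kernel_summ ha0 hasum h0.le h4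
    have s2 : Summable (fun l => t l * w ^ l) := Kernel_summ htn hsum h0.le h4
    have e1 : A w = w * ∑' l, a (l + 1) * w ^ l := by
      show ∑' l, a l * w ^ l = _
      rw [s1.tsum_eq_zero_add, ha00, zero_mul, zero_add, ← tsum_mul_left]
      refine tsum_congr (fun l => ?_)
      ring
    have s3 : Summable (fun l => a (l + 1) * w ^ l) := by
      have := (summable_nat_add_iff 1).2 s1
      have h5 := this.mul_left w⁻¹
      refine h5.congr (fun l => ?_)
      field_simp
      ring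
    have e2 : A w - ∑' l, a (l + 1) * w ^ l = y * T w + y * w - (y + y * E) := by
      show ∑' l, a l * w ^ l - ∑' l, a (l + 1) * w ^ l = _
      rw [← Summable.tsum_sub s1 s3]
      have e3 : ∀ l, a l * w ^ l - a (l + 1) * w ^ l = y * (t l * w ^ l) +
          (if l = 1 then y * w else 0) - (if l = 0 then y + y * E else 0) := by
        intro l
        rw [← sub_mul, hdiff l]
        rcases l with _ | _ | l
        · simp
        · simp; ring
        · simp; ring
      rw [tsum_congr e3, Summable.tsum_sub, Summable.tsum_add, tsum_mul_left, tsum_ite_eq,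
        tsum_ite_eq]
      · exact s2.mul_left y
      · exact (hasSum_ite_eq 1 (y * w)).summable
      · exact (s2.mul_left y).add (hasSum_ite_eq 1 (y * w)).summable
      · exact (hasSum_ite_eq 0 (y + y * E)).summable
    set B := ∑' l, a (l + 1) * w ^ l with hB
    rw [e1] at e2 ⊢
    linear_combination w * e2
  -- functional equation for T
  have hTeq : ∀ w, 0 ≤ w → w ≤ 4 → T w = A w + s * (A w * T w) := by
    intro w h0 h4
    have s1 : Summable (fun l => a l * w ^ l) := Kernel_summ ha0 hasum h0 h4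
    have s2 : Summable (fun l => t l * w ^ l) := Kernel_summ htn hsum h0 h4
    have n1 : Summable (fun l => ‖a l * w ^ l‖) := s1.norm
    have n2 : Summable (fun l => ‖t l * w ^ l‖) := s2.norm
    have e1 : A w * T w = ∑' l, ∑ p ∈ antidiagonal l, (a p.1 * w ^ p.1) * (t p.2 * w ^ p.2) :=
      tsum_mul_tsum_eq_tsum_sum_antidiagonal_of_summable_norm n1 n2
    have s3 : Summable (fun l => ∑ p ∈ antidiagonal l, (a p.1 * w ^ p.1) * (t p.2 * w ^ p.2)) :=
      (summable_norm_sum_mul_antidiagonal_of_summable_norm n1 n2).of_norm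
    rw [e1]
    show ∑' l, t l * w ^ l = ∑' l, a l * w ^ l + _
    rw [← tsum_mul_left, ← Summable.tsum_add s1 (s3.mul_left s)]
    refine tsum_congr (fun l => ?_)
    have e2 : ∑ p ∈ antidiagonal l, (a p.1 * w ^ p.1) * (t p.2 * w ^ p.2) =
        (∑ p ∈ antidiagonal l, a p.1 * t p.2) * w ^ l := by
      rw [Finset.sum_mul]
      refine Finset.sum_congr rfl (fun p hp => ?_)
      rw [← mem_antidiagonal.1 hp, pow_add]
      ring
    rw [e2]
    calc t l * w ^ l = (a l + s * ∑ p ∈ antidiagonal l, a p.1 * t p.2) * w ^ l := by rw [← ht l]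
      _ = _ := by ring
  -- the quadratic equation
  set Bf : ℝ → ℝ := fun w => y * w + s * y * w * (w - 1 - E) - (w - 1) with hBf
  set g : ℝ → ℝ := fun w => 2 * s * y * w * T w + Bf w with hg
  have hquad : ∀ w, 0 < w → w ≤ 4 → g w ^ 2 = Bf w ^ 2 - 4 * s * y ^ 2 * w ^ 2 * (w - 1 - E) := by
    intro w h0 h4
    have e1 := hAeq w h0 h4
    have e2 := hTeq w h0.le h4
    have e3 : (w - 1) * T w = y * w * (w - 1 + T w - E) * (1 + s * T w) := by
      rw [← e1]; linear_combination (w - 1) * e2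
    simp only [hg, hBf]
    linear_combination (-4 * s * y * w) * e3
  have hg1 : 0 < g 1 := by
    simp only [hg, hBf]
    rw [hE1]
    have : 0 ≤ s * y * E := by positivity
    nlinarith
  have hg2 : g 2 < 0 := by
    simp only [hg, hBf]
    have h1 := hT4 2 (by norm_num) (by norm_num)
    have h2 := hT0 2 (by norm_num)
    have h3 : s * y ≤ 1 / 10 * (1 / 4000) := mul_le_mul hs' hy' hy.le (by norm_num)
    have h4 : 0 < s * y := mul_pos hs hy
    have h5 : s * y * T 2 ≤ 1 / 10 * (1 / 4000) * (1 / 100) :=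
      mul_le_mul h3 h1 h2 (by norm_num)
    have h6 : 0 ≤ s * y * E := by positivity
    nlinarith
  have hgc : ContinuousOn g (Set.Icc 1 2) := by
    have h1 : ContinuousOn T (Set.Icc 1 2) := Kernel_cont htn hsum
    have h2 : Continuous Bf := by
      simp only [hBf]; fun_prop
    have h3 : ContinuousOn (fun w : ℝ => 2 * s * y * w) (Set.Icc 1 2) := by fun_prop
    exact (h3.mul h1).add h2.continuousOn
  obtain ⟨W, hW, hWg⟩ : ∃ W ∈ Set.Icc (1 : ℝ) 2, g W = 0 := by
    have := intermediate_value_Icc' (by norm_num : (1 : ℝ) ≤ 2) hgc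
    obtain ⟨W, hW, h⟩ := this ⟨hg2.le, hg1.le⟩
    exact ⟨W, hW, h⟩
  have hW1 : 1 < W := by
    rcases lt_or_eq_of_le hW.1 with h | h
    · exact h
    · rw [← h] at hWg; exact absurd hWg hg1.ne'
  have hW2 : W < 2 := by
    rcases lt_or_eq_of_le hW.2 with h | h
    · exact h
    · rw [h] at hWg; exact absurd hWg hg2.ne
  have hW0 : 0 < W := by linarith
  -- derivative
  obtain ⟨d, hd⟩ := Kernel_deriv htn hsum hW0 hW2
  have hder : 2 * Bf W * (y + s * y * (W - 1 - E) + s * y * W - 1) -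
      4 * s * y ^ 2 * (2 * W * (W - 1 - E) + W ^ 2) = 0 := by
    have hBd : HasDerivAt Bf (y + s * y * (W - 1 - E) + s * y * W - 1) W := by
      have h1 : HasDerivAt (fun w : ℝ => w) 1 W := hasDerivAt_id W
      have h2 : HasDerivAt (fun w : ℝ => w - 1 - E) 1 W := (h1.sub_const 1).sub_const E
      have h3 := ((h1.const_mul y).fun_add (((h1.const_mul (s * y)).fun_mul h2))).fun_sub
        (h1.sub_const 1)
      exact h3.congr_deriv (by ring)
    have hgd : HasDerivAt g (2 * s * y * (1 * T W + W * d) +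
        (y + s * y * (W - 1 - E) + s * y * W - 1)) W := by
      have h1 : HasDerivAt (fun w : ℝ => w) 1 W := hasDerivAt_id W
      have h2 := ((h1.fun_mul hd).const_mul (2 * s * y)).fun_add hBd
      have h3 : g = fun w => 2 * s * y * (w * ∑' l, t l * w ^ l) + Bf w := by
        funext w
        simp only [hg, hT]
        ring
      rw [h3]
      exact h2
    have hl : HasDerivAt (fun w => g w ^ 2) 0 W := by
      have := hgd.fun_pow 2
      rw [hWg] at this
      exact this.congr_deriv (by simp)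
    have hr : HasDerivAt (fun w => Bf w ^ 2 - 4 * s * y ^ 2 * w ^ 2 * (w - 1 - E))
        (2 * Bf W * (y + s * y * (W - 1 - E) + s * y * W - 1) -
          4 * s * y ^ 2 * (2 * W * (W - 1 - E) + W ^ 2)) W := by
      have h1 : HasDerivAt (fun w : ℝ => w) 1 W := hasDerivAt_id W
      have h2 : HasDerivAt (fun w : ℝ => w - 1 - E) 1 W := (h1.sub_const 1).sub_const E
      have h3 := (hBd.fun_pow 2).fun_sub ((((h1.fun_pow 2).const_mul (4 * s * y ^ 2))).fun_mul h2)
      exact h3.congr_deriv (by norm_num; ring)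
    have heq : (fun w => g w ^ 2) =ᶠ[nhds W]
        (fun w => Bf w ^ 2 - 4 * s * y ^ 2 * w ^ 2 * (w - 1 - E)) := by
      filter_upwards [Ioo_mem_nhds hW0 (show W < 4 by linarith)] with w hw
      exact hquad w hw.1 hw.2.le
    exact ((hr.congr_of_eventuallyEq heq).unique hl)
  -- algebra
  set τ := T W with hτ
  have hτ0 : 0 ≤ τ := hT0 W hW0.le
  have hτ1 : τ ≤ 1 / 100 := hT4 W hW0.le (by linarith)
  have hsy : 0 < s * y := mul_pos hs hy
  have hsyle : s * y ≤ 1 / 40000 := by
    have : s * y ≤ 1 / 10 * (1 / 4000) := mul_le_mul hs' hy' hy.le (by norm_num)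
    linarith
  have hB : Bf W = -(2 * s * y * W * τ) := by
    have : 2 * s * y * W * T W + Bf W = 0 := hWg
    linarith
  have hq : (0 : ℝ) = Bf W ^ 2 - 4 * s * y ^ 2 * W ^ 2 * (W - 1 - E) := by
    have := hquad W hW0 (by linarith)
    rw [hWg] at this
    simpa using this
  have e1 : s * τ ^ 2 = W - 1 - E := by
    rw [hB] at hq
    have h1 : 4 * s * y ^ 2 * W ^ 2 * (s * τ ^ 2 - (W - 1 - E)) = 0 := by
      linear_combination -hq
    have h2 : 4 * s * y ^ 2 * W ^ 2 ≠ 0 := by positivity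
    have := (mul_eq_zero.1 h1).resolve_left h2
    linarith
  have e2 : y * W * (1 + s * τ) ^ 2 = W - 1 := by
    have h1 : y * W + s * y * W * (W - 1 - E) - (W - 1) = -(2 * s * y * W * τ) := hB
    rw [← e1] at h1
    linear_combination h1
  have e3 : τ * (1 - y * (1 + s * τ) ^ 2) = y * W * (1 + s * τ) := by
    rw [hB, ← e1] at hder
    have h1 : 4 * s * y * W * (τ * (1 - y * (1 + s * τ) ^ 2) - y * W * (1 + s * τ)) = 0 := by
      linear_combination hder
    have h2 : 4 * s * y * W ≠ 0 := by positivity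
    have := (mul_eq_zero.1 h1).resolve_left h2
    linarith
  have e4 : τ * (1 - s * y * W ^ 2) = y * W ^ 2 := by
    have h1 : W * (1 - y * (1 + s * τ) ^ 2) = 1 := by linear_combination -e2
    have h2 : τ = y * W ^ 2 * (1 + s * τ) := by
      calc τ = τ * (W * (1 - y * (1 + s * τ) ^ 2)) := by rw [h1, mul_one]
        _ = W * (τ * (1 - y * (1 + s * τ) ^ 2)) := by ring
        _ = W * (y * W * (1 + s * τ)) := by rw [e3]
        _ = _ := by ring
    linear_combination h2
  have hW4 : W ^ 2 < 4 := by nlinarith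
  have hu1 : s * y * W ^ 2 < 1 / 2 := by
    have : s * y * W ^ 2 ≤ 1 / 40000 * 4 :=
      mul_le_mul hsyle hW4.le (by positivity) (by norm_num)
    linarith
  have hu0 : 0 < s * y * W ^ 2 := by positivity
  have h1u : (1 - s * y * W ^ 2) ≠ 0 := by linarith
  have e5 : (1 + s * τ) * (1 - s * y * W ^ 2) = 1 := by linear_combination s * e4
  have e6 : y * W = (W - 1) * (1 - s * y * W ^ 2) ^ 2 := by
    calc y * W = y * W * ((1 + s * τ) * (1 - s * y * W ^ 2)) ^ 2 := by rw [e5]; ring
      _ = (y * W * (1 + s * τ) ^ 2) * (1 - s * y * W ^ 2) ^ 2 := by ring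
      _ = _ := by rw [e2]
  refine ⟨s * y * W ^ 2, 1 - 1 / W, hu0, hu1, ?_, ?_, ?_, ?_, ?_⟩
  · have : 1 / W < 1 := by rw [div_lt_one hW0]; exact hW1
    linarith
  · have : 1 / 2 < 1 / W := one_div_lt_one_div_of_lt hW0 hW2
    linarith
  · have : 1 - 1 / W = (W - 1) / W := by field_simp
    rw [this, div_mul_eq_mul_div, ← e6]
    field_simp
  · have : 1 - (1 - 1 / W) = 1 / W := by ring
    rw [this]
    field_simp
  · have h1 : 1 - (1 - 1 / W) = 1 / W := by ring
    have h2 : E = W - 1 - s * τ ^ 2 := by linarith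
    have h3 : s * τ ^ 2 = s * y * W ^ 2 * (W * (W - 1)) := by
      -- s τ² (1-u)² = s y² W⁴ , y W = (W-1)(1-u)²
      have h4 : (s * τ ^ 2 - s * y * W ^ 2 * (W * (W - 1))) * (1 - s * y * W ^ 2) ^ 2 = 0 := by
        have h5 : s * τ ^ 2 * (1 - s * y * W ^ 2) ^ 2 = s * (y * W ^ 2) ^ 2 := by
          rw [← e4]; ring
        have h6 : s * y * W ^ 2 * (W * (W - 1)) * (1 - s * y * W ^ 2) ^ 2 =
            s * y * W ^ 2 * (W * (y * W)) := by
          rw [e6]; ring
        linear_combination h5 - h6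
      have h7 := (mul_eq_zero.1 h4).resolve_right (pow_ne_zero 2 h1u)
      linarith
    show E = _
    rw [h2, h3, h1]
    field_simp
    ring

/-- Proof.  Real power series `T(w) = Σ tL_l w^l`, `A(w) = Σ aL_l w^l`, convergent for `|w| ≤ 4` (`T4_le`, `aL_le_tL`),
with `T(4) ≤ 1/100`; `E = T(1)`.  By `aL_eq`, `tL_eq` (for `w ≠ 1`)
`A(w) = y w (1 + (T(w) - E)/(w - 1))`, `T(w) = A(w) + s A(w) T(w)`.
`φ(w) := (1 + s T(w)) y w / (w - 1) + s A(w) - 1` is continuous on `(1, 2]`, tends to `+∞` at `1` and is negative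
at `2`; let `φ(W) = 0`, `1 < W < 2`.  With `Φ(T, w) = (1 + s T) y w (1 + (T - E)/(w-1)) - T` one has `Φ(T(w), w) = 0` and
`∂Φ/∂T = φ` there, so differentiating at `W`: `∂Φ/∂w = 0`, which is
`(1 + s T)(y - y (T - E)/(W-1)^2) = 0`, that is `T(W) - E = (W-1)^2`.  So `A(W) = y W^2`, `T = y W^2/(1 - s y W^2)`,
`y W/(W-1) = (1 - s y W^2)^2`.  Put `v = 1 - 1/W`, `u = s y W^2`. -/
theorem kernel {s y : ℝ} (hs : 0 < s) (hs' : s ≤ 1 / 10) (hy : 0 < y) (hy' : y ≤ 1 / 4000) :
    ∃ u v : ℝ, 0 < u ∧ u < 1 / 2 ∧ 0 < v ∧ v < 1 / 2 ∧ y = v * (1 - u) ^ 2 ∧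
      s * y = u * (1 - v) ^ 2 ∧
      Es (ENNReal.ofReal s) (ENNReal.ofReal y) = ENNReal.ofReal (v * (1 - u - v) / (1 - v) ^ 2) := by
  set S := ENNReal.ofReal s with hS
  set Y := ENNReal.ofReal y with hY
  have h4 : ∑' l, tL S Y l * 4 ^ l ≤ ENNReal.ofReal (1 / 100) :=
    T4_le (ENNReal.ofReal_le_ofReal hs') (ENNReal.ofReal_le_ofReal hy')
  have h4top : ∑' l, tL S Y l * 4 ^ l ≠ ⊤ := ne_top_of_le_ne_top ENNReal.ofReal_ne_top h4
  have hterm : ∀ l, tL S Y l * 4 ^ l ≠ ⊤ := ENNReal.ne_top_of_tsum_ne_top h4top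
  have htop : ∀ l, tL S Y l ≠ ⊤ := by
    intro l h
    apply hterm l
    rw [h, ENNReal.top_mul]
    positivity
  have hatop : ∀ l, aL S Y l ≠ ⊤ := fun l => ne_top_of_le_ne_top (htop l) (aL_le_tL S Y l)
  have hle1 : ∀ l, tL S Y l ≤ tL S Y l * 4 ^ l := by
    intro l
    calc tL S Y l = tL S Y l * 1 := (mul_one _).symm
      _ ≤ _ := mul_le_mul_right (one_le_pow₀ (by norm_num)) _
  have hsumtop : ∑' l, tL S Y l ≠ ⊤ := ne_top_of_le_ne_top h4top (ENNReal.tsum_le_tsum hle1)
  have hreal4 : ∀ l, (tL S Y l * 4 ^ l).toReal = (tL S Y l).toReal * 4 ^ l := by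
    intro l
    rw [ENNReal.toReal_mul, ENNReal.toReal_pow]
    norm_num
  have key := Kernel_real hs hs' hy hy' (fun l => (aL S Y l).toReal) (fun l => (tL S Y l).toReal)
    (fun l => ENNReal.toReal_nonneg) (fun l => ENNReal.toReal_mono (htop l) (aL_le_tL S Y l))
    (by show (tL S Y 0).toReal = 0; rw [tL_zero]; rfl)
    (by
      have := ENNReal.summable_toReal h4top
      exact this.congr (fun l => (hreal4 l)))
    (by
      have h1 : ∑' l, (tL S Y l).toReal * 4 ^ l = (∑' l, tL S Y l * 4 ^ l).toReal := by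
        rw [ENNReal.tsum_toReal_eq hterm]
        exact tsum_congr (fun l => (hreal4 l).symm)
      rw [h1]
      have := ENNReal.toReal_mono ENNReal.ofReal_ne_top h4
      rwa [ENNReal.toReal_ofReal (by norm_num)] at this)
    (by
      intro l hl
      have h1 : ∀ m, (if l ≤ m then tL S Y m else 0) ≠ ⊤ := by
        intro m; split_ifs; exacts [htop m, ENNReal.zero_ne_top]
      have h2 : ∑' m, (if l ≤ m then tL S Y m else 0) ≠ ⊤ := by
        refine ne_top_of_le_ne_top hsumtop (ENNReal.tsum_le_tsum (fun m => ?_))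
        split_ifs; exacts [le_rfl, zero_le']
      have h3 : (∑' m, (if l ≤ m then tL S Y m else 0)).toReal =
          ∑' m, (if l ≤ m then (tL S Y m).toReal else 0) := by
        rw [ENNReal.tsum_toReal_eq h1]
        refine tsum_congr (fun m => ?_)
        split_ifs <;> rfl
      show (aL S Y l).toReal = _
      rw [aL_eq S Y l hl, ENNReal.toReal_add, ENNReal.toReal_mul, h3]
      · congr 1
        · split_ifs
          · exact ENNReal.toReal_ofReal hy.le
          · rfl
        · rw [hY, ENNReal.toReal_ofReal hy.le]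
      · split_ifs; exacts [ENNReal.ofReal_ne_top, ENNReal.zero_ne_top]
      · exact ENNReal.mul_ne_top ENNReal.ofReal_ne_top h2)
    (by
      intro l
      show (tL S Y l).toReal = _
      have h1 : ∀ p ∈ antidiagonal l, aL S Y p.1 * tL S Y p.2 ≠ ⊤ :=
        fun p _ => ENNReal.mul_ne_top (hatop _) (htop _)
      have h2 : S * ∑ p ∈ antidiagonal l, aL S Y p.1 * tL S Y p.2 ≠ ⊤ :=
        ENNReal.mul_ne_top ENNReal.ofReal_ne_top (ENNReal.sum_ne_top.2 h1)
      rw [tL_eq S Y l, ENNReal.toReal_add (hatop l) h2, ENNReal.toReal_mul,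
        ENNReal.toReal_sum h1, hS, ENNReal.toReal_ofReal hs.le]
      congr 2
      exact Finset.sum_congr rfl (fun p _ => ENNReal.toReal_mul))
  obtain ⟨u, v, h1, h2, h3, h5, h6, h7, h8⟩ := key
  refine ⟨u, v, h1, h2, h3, h5, h6, h7, ?_⟩
  rw [Es_eq_tsum, ← h8, ← ENNReal.tsum_toReal_eq htop, ENNReal.ofReal_toReal hsumtop]

end PGr
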