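import Pool.Agent.PGc.RigidQ2
import Pool.Agent.PGr.SubMap
import Pool.Agent.PGr.CompNS

/-! # Module MapDec: a map without prefixes is a composite with a rigid core -/

set_option linter.unusedSectionVars false

namespace PGr
open Equiv Finset

namespace MapDec

section
variable {M : BMap} {C : Core} (part : M.D → C.I) (lst : (C.I × Bool) ⊕ Bool → M.T)

/-- the part of `i` -/
def P (i : C.I) : Finset M.T :=
  (univ.filter fun d => part d = i).map ⟨Sum.inl, Sum.inl_injective⟩

variable {part lst}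

theorem mem_inl {i : C.I} {d : M.D} : (Sum.inl d : M.T) ∈ P part i ↔ part d = i := by
  simp [P]

theorem mem_inr {i : C.I} {b : Bool} : (Sum.inr b : M.T) ∉ P part i := by
  simp [P]

theorem cl (h1 : ∀ d, part (M.a d) = part d) (i : C.I) : Cl M.aa (P part i) := by
  rintro (d | b)
  · have h : M.aa (Sum.inl d) = Sum.inl (M.a d) := rfl
    rw [h, mem_inl, mem_inl, h1]
  · have h : M.aa (Sum.inr b) = Sum.inr (!b) := rfl
    rw [h]
    exact iff_of_false mem_inr mem_inr

theorem last1 (h4 : ∀ b, lst (Sum.inr b) = Sum.inr b)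
    (h5 : ∀ i b, ∃ d, lst (Sum.inl (i, b)) = Sum.inl d ∧ part d = i)
    (h6 : ∀ d, (∀ d', M.s (Sum.inl d) = Sum.inl d' → part d' ≠ part d) ↔ ∃ x, lst x = Sum.inl d)
    {i : C.I} {t : M.T} (ht : t ∈ P part i) (hs : M.s t ∉ P part i) :
    ∃ b, t = lst (Sum.inl (i, b)) := by
  rcases t with e | b
  · rw [mem_inl] at ht
    obtain ⟨x, hx⟩ := (h6 e).1 (by
      intro d' hd' h1
      rw [hd', mem_inl] at hs
      exact hs (h1.trans ht))
    rcases x with ⟨i', b⟩ | b
    · obtain ⟨d, hd1, hd2⟩ := h5 i' b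
      rw [hx] at hd1
      obtain rfl := Sum.inl_injective hd1
      subst hd2
      subst ht
      exact ⟨b, hx.symm⟩
    · rw [h4] at hx
      exact absurd hx Sum.inr_ne_inl
  · exact absurd ht mem_inr

theorem last_mem (h5 : ∀ i b, ∃ d, lst (Sum.inl (i, b)) = Sum.inl d ∧ part d = i) (i : C.I)
    (b : Bool) : lst (Sum.inl (i, b)) ∈ P part i := by
  obtain ⟨d, hd1, hd2⟩ := h5 i b
  rw [hd1, mem_inl]
  exact hd2

theorem last2 (h5 : ∀ i b, ∃ d, lst (Sum.inl (i, b)) = Sum.inl d ∧ part d = i)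
    (h6 : ∀ d, (∀ d', M.s (Sum.inl d) = Sum.inl d' → part d' ≠ part d) ↔ ∃ x, lst x = Sum.inl d)
    (i : C.I) (b : Bool) : M.s (lst (Sum.inl (i, b))) ∉ P part i := by
  intro h1
  obtain ⟨d, hd1, hd2⟩ := h5 i b
  rw [hd1] at h1
  rcases h2 : M.s (Sum.inl d) with d' | b'
  · rw [h2, mem_inl] at h1
    exact (h6 d).2 ⟨_, hd1⟩ d' h2 (h1.trans hd2.symm)
  · rw [h2] at h1
    exact mem_inr h1

/-- a dart which is not a last dart is followed by a dart of the same part -/
theorem step (h4 : ∀ b, lst (Sum.inr b) = Sum.inr b)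
    (h6 : ∀ d, (∀ d', M.s (Sum.inl d) = Sum.inl d' → part d' ≠ part d) ↔ ∃ x, lst x = Sum.inl d)
    {t : M.T} (ht : ∀ x, lst x ≠ t) : ∃ d d', t = Sum.inl d ∧ M.s t = Sum.inl d' ∧
      part d' = part d := by
  rcases t with d | b
  · have h1 : ¬ ∃ x, lst x = Sum.inl d := fun ⟨x, hx⟩ => ht x hx
    rw [← h6] at h1
    push Not at h1
    obtain ⟨d', h2, h3⟩ := h1
    exact ⟨d, d', rfl, h2, h3⟩
  · exact absurd (h4 b) (ht _)

theorem run_inr (h4 : ∀ b, lst (Sum.inr b) = Sum.inr b)
    (h6 : ∀ d, (∀ d', M.s (Sum.inl d) = Sum.inl d' → part d' ≠ part d) ↔ ∃ x, lst x = Sum.inl d)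
    {t : M.T} {k : ℕ} {b : Bool} (hk : 0 < k) (h : (M.s ^ k) t = Sum.inr b)
    (hmin : ∀ i, 0 < i → i < k → ∀ z, lst z ≠ (M.s ^ i) t) : M.s t = Sum.inr b := by
  obtain ⟨m, rfl⟩ : ∃ m, k = m + 1 := ⟨k - 1, by omega⟩
  by_cases hm : m = 0
  · subst hm
    simpa using h
  · obtain ⟨d, d', h7, h8, h9⟩ := step h4 h6 (hmin m (by omega) (by omega))
    rw [pow_succ', Perm.mul_apply, h8] at h
    exact absurd h Sum.inl_ne_inr

theorem run_inl (h4 : ∀ b, lst (Sum.inr b) = Sum.inr b)
    (h6 : ∀ d, (∀ d', M.s (Sum.inl d) = Sum.inl d' → part d' ≠ part d) ↔ ∃ x, lst x = Sum.inl d)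
    {j : C.I} {t : M.T} (k : ℕ) (hk : 0 < k) (h : (M.s ^ k) t ∈ P part j)
    (hmin : ∀ i, 0 < i → i < k → ∀ z, lst z ≠ (M.s ^ i) t) : M.s t ∈ P part j := by
  induction k with
  | zero => omega
  | succ m ih =>
    by_cases hm : m = 0
    · subst hm
      simpa using h
    · obtain ⟨d, d', h7, h8, h9⟩ := step h4 h6 (hmin m (by omega) (by omega))
      apply ih (by omega) _ (fun i hi hi' => hmin i hi (by omega))
      rw [pow_succ', Perm.mul_apply, h8, mem_inl] at h
      rw [h7, mem_inl]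
      exact h9.symm.trans h

end

theorem ret_last {M : BMap} (hM : M.IsGood) {C : Core} {part : M.D → C.I}
    {lst : (C.I × Bool) ⊕ Bool → M.T} (h1 : ∀ d, part (M.a d) = part d)
    (h4 : ∀ b, lst (Sum.inr b) = Sum.inr b)
    (h5 : ∀ i b, ∃ d, lst (Sum.inl (i, b)) = Sum.inl d ∧ part d = i)
    (h6 : ∀ d, (∀ d', M.s (Sum.inl d) = Sum.inl d' → part d' ≠ part d) ↔ ∃ x, lst x = Sum.inl d)
    (h8 : ∀ i, cut M.s (P part i) = 4) {x : (C.I × Bool) ⊕ Bool} {j : C.I} {b : Bool} {k : ℕ}
    (hk : 0 < k) (h : (M.s ^ k) (lst x) = lst (Sum.inl (j, b)))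
    (hmin : ∀ i, 0 < i → i < k → ∀ z, lst z ≠ (M.s ^ i) (lst x)) :
    (ret M.s (P part j) ⟨lst (Sum.inl (j, b)), last_mem h5 j b⟩).1 = M.s (lst x) := by
  have hw : M.s (lst x) ∈ P part j :=
    run_inl h4 h6 k hk (by rw [h]; exact last_mem h5 j b) hmin
  have hx : lst x ∉ P part j := by
    intro hx
    rcases x with ⟨i, b'⟩ | b'
    · obtain ⟨d, hd1, hd2⟩ := h5 i b'
      rw [hd1, mem_inl] at hx
      obtain rfl : i = j := hd2.symm.trans hx
      exact last2 h5 h6 i b' hw
    · rw [h4] at hx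
      exact mem_inr hx
  obtain ⟨u, hu⟩ := (ret M.s (P part j)).surjective ⟨M.s (lst x), hw⟩
  have hul : M.s u.1 ∉ P part j := by
    intro hmem
    have e1 := ret_of_mem M.s (P part j) u hmem
    rw [hu] at e1
    have e2 : M.s (lst x) = M.s u.1 := congrArg Subtype.val e1
    exact hx (by rw [M.s.injective e2]; exact u.2)
  obtain ⟨b'', hb''⟩ := last1 h4 h5 h6 u.2 hul
  have hcyc : M.s.SameCycle (lst (Sum.inl (j, b))) u.1 := by
    have c1 : M.s.SameCycle (lst x) (lst (Sum.inl (j, b))) := ⟨k, by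
      rw [zpow_natCast]
      exact h⟩
    have c2 : (ret M.s (P part j)).SameCycle u ⟨M.s (lst x), hw⟩ := ⟨1, by rw [zpow_one, hu]⟩
    rw [sameCycle_ret] at c2
    have c3 : M.s.SameCycle (lst x) (M.s (lst x)) := ⟨1, by rw [zpow_one]⟩
    exact c1.symm.trans (c3.trans c2.symm)
  have hub : u.1 = lst (Sum.inl (j, b)) := by
    by_contra hne
    exact hM.last_ne (cl h1 j) (h8 j) (last_mem h5 j b) u.2 (last2 h5 h6 j b) hul
      (fun e => hne e.symm) hcyc
  have hu2 : u = ⟨lst (Sum.inl (j, b)), last_mem h5 j b⟩ := Subtype.ext hub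
  rw [← hu2, hu]

theorem main {M : BMap} (hM : M.IsGood) {C : Core} (part : M.D → C.I)
    (lst : (C.I × Bool) ⊕ Bool → M.T) (h1 : ∀ d, part (M.a d) = part d)
    (h3 : Function.Injective lst) (h4 : ∀ b, lst (Sum.inr b) = Sum.inr b)
    (h5 : ∀ i b, ∃ d, lst (Sum.inl (i, b)) = Sum.inl d ∧ part d = i)
    (h6 : ∀ d, (∀ d', M.s (Sum.inl d) = Sum.inl d' → part d' ≠ part d) ↔ ∃ x, lst x = Sum.inl d)
    (h8 : ∀ i, cut M.s (P part i) = 4)
    (h9 : ∀ x, ∃ k, 0 < k ∧ (M.s ^ k) (lst x) = lst (C.s x) ∧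
          ∀ i, 0 < i → i < k → ∀ z, lst z ≠ (M.s ^ i) (lst x)) :
    ∃ N : C.I → GB, BIso M (comp C N) := by
  let z : ∀ i : C.I, Bool → {x // x ∈ P part i} := fun i b =>
    ⟨lst (Sum.inl (i, b)), last_mem h5 i b⟩
  have hz : ∀ i, z i true ≠ z i false := by
    intro i h
    have e1 : lst (Sum.inl (i, true)) = lst (Sum.inl (i, false)) := congrArg Subtype.val h
    have e2 := h3 e1
    simp at e2
  have hg : ∀ i, Good (ext (subA M.aa (P part i) (cl h1 i)))
      (insS (ret M.s (P part i)) (z i true) (z i false)) := fun i =>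
    hM.subMap (cl h1 i) (h8 i) (last2 h5 h6 i true) (last2 h5 h6 i false) (hz i)
  let N : C.I → GB := fun i =>
    ⟨{ D := {x // x ∈ P part i}, a := subA M.aa (P part i) (cl h1 i),
       s := insS (ret M.s (P part i)) (z i true) (z i false) }, hg i⟩
  have hNs : ∀ i (t : {x // x ∈ P part i} ⊕ Bool),
      (N i).1.s t = insS (ret M.s (P part i)) (z i true) (z i false) t := fun _ _ => rfl
  have hfst : ∀ j b, fstD (N j) b = ret M.s (P part j) (z j b) := by
    intro j b
    have e1 := fstD_spec (N j) b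
    rw [hNs] at e1
    cases b
    · rw [insS_false _ (hz j)] at e1
      exact (Sum.inl_injective e1).symm
    · rw [insS_true _ (hz j)] at e1
      exact (Sum.inl_injective e1).symm
  let e : (Σ i, {x // x ∈ P part i}) ⊕ Bool → M.T := Sum.elim (fun p => p.2.1) Sum.inr
  have he : Function.Bijective e := by
    constructor
    · rintro (⟨i, ⟨t, ht⟩⟩ | b) (⟨i', ⟨t', ht'⟩⟩ | b') h
      · have e1 : t = t' := h
        subst e1
        rcases t with d | b
        · rw [mem_inl] at ht ht'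
          subst ht
          subst ht'
          rfl
        · exact absurd ht mem_inr
      · have e1 : t = Sum.inr b' := h
        subst e1
        exact absurd ht mem_inr
      · have e1 : Sum.inr b = t' := h
        subst e1
        exact absurd ht' mem_inr
      · have e1 : (Sum.inr b : M.T) = Sum.inr b' := h
        rw [Sum.inr_injective e1]
    · rintro (d | b)
      · exact ⟨Sum.inl ⟨part d, Sum.inl d, mem_inl.2 rfl⟩, rfl⟩
      · exact ⟨Sum.inr b, rfl⟩
  have hjump : ∀ x, e (jump C N (C.s x)) = M.s (lst x) := by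
    intro x
    obtain ⟨k, hk, hk1, hk2⟩ := h9 x
    rcases hy : C.s x with ⟨j, b⟩ | b
    · show (fstD (N j) b).1 = _
      rw [hfst]
      rw [hy] at hk1
      exact ret_last hM h1 h4 h5 h6 h8 hk hk1 hk2
    · show Sum.inr b = _
      rw [hy, h4] at hk1
      exact (run_inr h4 h6 hk hk1 hk2).symm
  refine ⟨N, BIso.symm ⟨Equiv.ofBijective e he, ?_, ?_, rfl⟩⟩
  · rintro (⟨i, x⟩ | b)
    · rfl
    · rfl
  · rintro (⟨i, x⟩ | b)
    · show e ((comp C N).s (Sum.inl ⟨i, x⟩)) = M.s x.1
      by_cases hx : M.s x.1 ∈ P part i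
      · have hx0 : ∀ b, x ≠ z i b := by
          intro b hb
          apply last2 h5 h6 i b
          have : x.1 = lst (Sum.inl (i, b)) := congrArg Subtype.val hb
          rw [← this]
          exact hx
        have e1 : (N i).1.s (Sum.inl x) = Sum.inl (ret M.s (P part i) x) :=
          insS_inl _ (hz i) (hx0 true) (hx0 false)
        rw [comp_s_in C N e1]
        show (ret M.s (P part i) x).1 = _
        rw [ret_of_mem M.s (P part i) x hx]
      · obtain ⟨b, hb⟩ := last1 h4 h5 h6 x.2 hx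
        have hxz : x = z i b := Subtype.ext hb
        have e1 : (N i).1.s (Sum.inl x) = Sum.inr b := by
          rw [hxz, hNs]
          cases b
          · exact insS_c1 _ (hz i)
          · exact insS_c0 _ (hz i)
        rw [comp_s_out C N e1, hjump, hb]
    · show e ((comp C N).s (Sum.inr b)) = M.s (Sum.inr b)
      rw [comp_s_root, hjump, h4]

end MapDec

/-- Proof: take `part`, `lst` from `exists_rigid_core2`.  The net of `i` has the nonroot darts
`P_i = {d : part d = i}` (as a subset of `M.T`, with cut 4), the involution `subA` and the rotation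
`insS (ret s P_i) z_true z_false`, where `z_b = lst (inl (i, b))` are the two last darts of `P_i`
(`exists_last`: there are exactly two darts of `P_i` followed by a dart outside); it is good by `Good.subMap`.
The identity on darts is the isomorphism: for a dart `d` not of the form `lst x`, `s d` is in the same part and
is the first return `ret`.  For `x`: `s (lst x)` is outside the part of `x`, in the part `j` of the next last dart
`lst (C.s x)`, `C.s x = (j, b)` (all darts in between are not last darts, so they are in the same part), and in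
`insS (ret s P_j) z_true z_false` the dart after the root dart `inr b` is `ret s P_j z_b`, which is `s (lst x)`: going on
from `z_b` in the cycle of `s`, the part `P_j` is next entered at its first dart in this cycle (`last_ne`: there is
only one arc of `P_j` at this vertex, so it is entered at `s (lst x)`). -/
theorem exists_comp {M : BMap} (hM : M.IsGood) (h6 : 4 ≤ Fintype.card M.D)
    (hp : ∀ A, ¬ Pref M A) :
    ∃ Q : BMap, Q.IsGood ∧ Rigid Q ∧ ∀ C : Core, BIso C.toB Q →
      ∃ N : C.I → GB, BIso M (comp C N) := by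
  obtain ⟨Q, hQ, hQr, hC⟩ := exists_rigid_core2 hM h6 hp
  refine ⟨Q, hQ, hQr, fun C hCQ => ?_⟩
  obtain ⟨part, lst, hp1, hp2, hp3, hp4, hp5, hp6, hp7, hp8, hp9⟩ := hC C hCQ
  exact MapDec.main hM part lst hp1 hp3 hp4 hp5 hp6 hp8 hp9

end PGr
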