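import Mathlib

/-! # Module NumD: closing the derivative inequalities -/

set_option linter.unusedSectionVars false

namespace PGr
open Real

/-- cubic upper bound of the exponential -/
theorem NumD_exp {y : ℝ} (h0 : 0 ≤ y) (h1 : y ≤ 1) :
    exp y ≤ 1 + y + y ^ 2 / 2 + y ^ 3 / 6 + y ^ 4 * (5 / 96) := by
  have h := Real.exp_bound' h0 h1 (n := 4) (by norm_num)
  refine h.trans (le_of_eq ?_)
  simp only [Finset.sum_range_succ, Finset.sum_range_zero, Nat.factorial]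
  norm_num
  ring

/-- Numerical check (x ∈ [10/277, 0.0481], K ≤ 0.048, D ≤ 1.13).  With `m = MX / (1 - x) ≤ 1.2003`,
`x MP ≤ 0.0507`: `δX ≤ 2 m (2 K D + RE) δX + (D² + RS) κ + ... ≤ 0.734 δX + 0.284`, `κ ≤ 0.0538 + 0.0033 δX`. -/
theorem num_close {x K D κ π' δ δ' δX MP MX RE RS : ℝ} (hx : 10 / 277 ≤ x) (hx' : x ≤ 481 / 10000)
    (hK : x ≤ K) (hK' : K ≤ 48 / 1000) (hD : 1 ≤ D) (hD' : D ≤ 113 / 100)
    (hκ : 0 ≤ κ) (hπ : 0 ≤ π') (hδ : 0 ≤ δ) (hδ' : 0 ≤ δ') (hδX : 0 ≤ δX) (hMP0 : 0 ≤ MP) (hMX0 : 0 ≤ MX)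
    (hRE0 : 0 ≤ RE) (hRS0 : 0 ≤ RS)
    (hMP : MP ≤ exp (41 / 40 * (K / x - 1))) (hMX : MX ≤ exp (41 / 40 * (D - 1)))
    (hRE : RE ≤ 19 / 100) (hRS : RS ≤ 4)
    (h1 : κ ≤ x * (MP * (1 + (1 - x)⁻¹ * π'))) (h2 : π' ≤ κ * ((1 + D) / 2) + K * δ')
    (h3 : δ' ≤ MX * ((1 - x)⁻¹ * δX)) (h4 : δ ≤ 2 * (MX * ((1 - x)⁻¹ * δX)))
    (h5 : δX ≤ κ * D ^ 2 + 2 * (K * D * δ) + (RS * κ + RE * δ)) :
    κ ≤ 1 / 10 ∧ δ ≤ 3 := by
  have hx0 : 0 < x := by linarith [show (0 : ℝ) < 10 / 277 by norm_num]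
  have hK0 : 0 ≤ K := hx0.le.trans hK
  -- the bound of `x * MP`
  have hxMP : x * MP ≤ 507 / 10000 := by
    set y : ℝ := K / x - 1 with hy
    have hy0 : 0 ≤ y := by
      rw [hy, sub_nonneg, le_div_iff₀ hx0]; linarith
    have hy1 : y ≤ 3296 / 10000 := by
      rw [hy, sub_le_iff_le_add, div_le_iff₀ hx0]
      nlinarith
    have hKy : K = x * (1 + y) := by
      rw [hy]; field_simp; ring
    have he := NumD_exp (y := 41 / 40 * y) (by positivity) (by linarith)
    have hy2 : y ^ 2 ≤ 3296 / 10000 * y := by nlinarith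
    have hy3 : y ^ 3 ≤ (3296 / 10000) ^ 2 * y := by
      have : y ^ 3 = y * y ^ 2 := by ring
      rw [this]
      nlinarith
    have hy4 : y ^ 4 ≤ (3296 / 10000) ^ 3 * y := by
      have : y ^ 4 = y * y ^ 3 := by ring
      rw [this]
      nlinarith
    have hb : exp (41 / 40 * y) ≤ 10563 / 10000 * (1 + y) - 1 / 20000 * (1 + y) := by
      refine he.trans ?_
      rw [mul_pow, mul_pow, mul_pow]
      nlinarith
    calc x * MP ≤ x * exp (41 / 40 * y) := mul_le_mul_of_nonneg_left hMP hx0.le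
      _ ≤ x * (10563 / 10000 * (1 + y) - 1 / 20000 * (1 + y)) := mul_le_mul_of_nonneg_left hb hx0.le
      _ = (10563 / 10000 - 1 / 20000) * K := by rw [hKy]; ring
      _ ≤ 507 / 10000 := by nlinarith
  have hinv0 : 0 ≤ (1 - x)⁻¹ := inv_nonneg.2 (by linarith)
  have hinv : (1 - x)⁻¹ ≤ 105054 / 100000 := by
    rw [inv_le_comm₀ (by linarith) (by norm_num)]
    norm_num
    linarith
  have hMX' : MX ≤ 114254 / 100000 := by
    refine hMX.trans ?_
    have hle : exp (41 / 40 * (D - 1)) ≤ exp (13325 / 100000) := by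
      apply exp_le_exp.2
      linarith
    refine hle.trans ((NumD_exp (y := 13325 / 100000) (by norm_num) (by norm_num)).trans ?_)
    norm_num
  have hm : MX * (1 - x)⁻¹ ≤ 12003 / 10000 := by
    calc MX * (1 - x)⁻¹ ≤ 114254 / 100000 * (105054 / 100000) :=
          mul_le_mul hMX' hinv hinv0 (by norm_num)
      _ ≤ _ := by norm_num
  have a1 : κ ≤ 507 / 10000 * (1 + 105054 / 100000 * π') := by
    have e : x * (MP * (1 + (1 - x)⁻¹ * π')) = (x * MP) * (1 + (1 - x)⁻¹ * π') := by ring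
    rw [e] at h1
    refine h1.trans ?_
    refine mul_le_mul hxMP ?_ ?_ (by norm_num)
    · have := mul_le_mul_of_nonneg_right hinv hπ
      linarith
    · have := mul_nonneg hinv0 hπ
      linarith
  have a2 : π' ≤ 1065 / 1000 * κ + 48 / 1000 * δ' := by
    have e1 : κ * ((1 + D) / 2) ≤ κ * (1065 / 1000) := mul_le_mul_of_nonneg_left (by linarith) hκ
    have e2 : K * δ' ≤ 48 / 1000 * δ' := mul_le_mul_of_nonneg_right hK' hδ'
    linarith
  have a3 : δ' ≤ 12003 / 10000 * δX := by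
    have e : MX * ((1 - x)⁻¹ * δX) = MX * (1 - x)⁻¹ * δX := by ring
    rw [e] at h3
    exact h3.trans (mul_le_mul_of_nonneg_right hm hδX)
  have a4 : δ ≤ 24006 / 10000 * δX := by
    have e : 2 * (MX * ((1 - x)⁻¹ * δX)) = 2 * (MX * (1 - x)⁻¹ * δX) := by ring
    rw [e] at h4
    have := mul_le_mul_of_nonneg_right hm hδX
    linarith
  have a5 : δX ≤ 52769 / 10000 * κ + 29848 / 100000 * δ := by
    have e1 : κ * D ^ 2 ≤ κ * (113 / 100) ^ 2 := by
      apply mul_le_mul_of_nonneg_left _ hκ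
      exact pow_le_pow_left₀ (by linarith) hD' 2
    have e2 : K * D * δ ≤ 48 / 1000 * (113 / 100) * δ := by
      apply mul_le_mul_of_nonneg_right _ hδ
      exact mul_le_mul hK' hD' (by linarith) (by norm_num)
    have e3 : RS * κ ≤ 4 * κ := mul_le_mul_of_nonneg_right hRS hκ
    have e4 : RE * δ ≤ 19 / 100 * δ := mul_le_mul_of_nonneg_right hRE hδ
    linarith
  constructor <;> linarith

/-- the constant 41/40 is admissible in `MS_le` for weights `≤ x ≤ 0.0481` -/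
theorem num_c2 {x : ℝ} (h0 : 0 < x) (hx : x ≤ 481 / 10000) : 1 / (1 - x) ≤ exp (41 / 40 * x) := by
  have h := Real.sum_le_exp_of_nonneg (x := 41 / 40 * x) (by positivity) 4
  simp only [Finset.sum_range_succ, Finset.sum_range_zero, Nat.factorial] at h
  norm_num at h
  refine le_trans ?_ h
  rw [div_le_iff₀ (by linarith)]
  have h2 : x ^ 2 ≤ 481 / 10000 * x := by nlinarith
  have h3 : x ^ 3 ≤ (481 / 10000) ^ 2 * x := by
    have : x ^ 3 = x * x ^ 2 := by ring
    rw [this]; nlinarith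
  have e : (1 + 41 / 40 * x + (41 / 40 * x) ^ 2 / 2 + (41 / 40 * x) ^ 3 / 6) * (1 - x) =
      1 + x * (1 / 40 + (41 ^ 2 / (2 * 40 ^ 2) - 41 / 40) * x +
        (41 ^ 3 / (6 * 40 ^ 3) - 41 ^ 2 / (2 * 40 ^ 2)) * x ^ 2 - 41 ^ 3 / (6 * 40 ^ 3) * x ^ 3) := by
    ring
  rw [e]
  have hpos : 0 ≤ 1 / 40 + (41 ^ 2 / (2 * 40 ^ 2) - 41 / 40) * x +
        (41 ^ 3 / (6 * 40 ^ 3) - 41 ^ 2 / (2 * 40 ^ 2)) * x ^ 2 - 41 ^ 3 / (6 * 40 ^ 3) * x ^ 3 := by
    norm_num
    nlinarith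
  nlinarith [mul_nonneg h0.le hpos]

/-- Bootstrapping: the bounds `k ≤ S`, `d ≤ E` propagate.  Proof: let `x*` be the supremum of the `x ≤ ρ + η` such that
`k ≤ S`, `d ≤ E` on `[ρ, x]`; on `[ρ, x*]` the derivatives are bounded, so `k x* ≤ k ρ + A η < S`, `d x* < E` (mean value
inequality), and by continuity `x* = ρ + η`. -/
theorem bootstrap (k d k' d' : ℝ → ℝ) {ρ η S E A B : ℝ} (hη : 0 ≤ η)
    (hk : ∀ x ∈ Set.Icc ρ (ρ + η), HasDerivAt k (k' x) x)
    (hd : ∀ x ∈ Set.Icc ρ (ρ + η), HasDerivAt d (d' x) x)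
    (h0 : k ρ + A * η < S) (h1 : d ρ + B * η < E) (hA : 0 ≤ A) (hB : 0 ≤ B)
    (hb : ∀ x ∈ Set.Icc ρ (ρ + η), k x ≤ S → d x ≤ E → k' x ≤ A ∧ d' x ≤ B) :
    k (ρ + η) ≤ S ∧ d (ρ + η) ≤ E := by
  set s : Set ℝ := {x | k x ≤ k ρ + A * (x - ρ) ∧ d x ≤ d ρ + B * (x - ρ)} with hs
  have hkc : ContinuousOn k (Set.Icc ρ (ρ + η)) := fun x hx => (hk x hx).continuousAt.continuousWithinAt
  have hdc : ContinuousOn d (Set.Icc ρ (ρ + η)) := fun x hx => (hd x hx).continuousAt.continuousWithinAt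
  have hclosed : IsClosed (s ∩ Set.Icc ρ (ρ + η)) := by
    have e : s ∩ Set.Icc ρ (ρ + η) =
        {x ∈ Set.Icc ρ (ρ + η) | k x ≤ k ρ + A * (x - ρ)} ∩
        {x ∈ Set.Icc ρ (ρ + η) | d x ≤ d ρ + B * (x - ρ)} := by
      ext x
      simp only [hs, Set.mem_inter_iff, Set.mem_ofPred_eq]
      tauto
    rw [e]
    apply IsClosed.inter
    · exact isClosed_Icc.isClosed_le hkc (by fun_prop)
    · exact isClosed_Icc.isClosed_le hdc (by fun_prop)
  have hsub : Set.Icc ρ (ρ + η) ⊆ s := by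
    apply hclosed.Icc_subset_of_forall_mem_nhdsWithin
    · simp [hs]
    · rintro x ⟨⟨hx1, hx2⟩, hxI⟩
      have hxI' : x ∈ Set.Icc ρ (ρ + η) := ⟨hxI.1, hxI.2.le⟩
      have hkx : k x < S := by
        have : A * (x - ρ) ≤ A * η := mul_le_mul_of_nonneg_left (by linarith [hxI.2]) hA
        linarith
      have hdx : d x < E := by
        have : B * (x - ρ) ≤ B * η := mul_le_mul_of_nonneg_left (by linarith [hxI.2]) hB
        linarith
      have ev1 := (hk x hxI').continuousAt.eventually_lt continuousAt_const hkx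
      have ev2 := (hd x hxI').continuousAt.eventually_lt continuousAt_const hdx
      obtain ⟨ε, hε, hball⟩ := Metric.eventually_nhds_iff.1 (ev1.and ev2)
      have hmem : Set.Ioo x (min (x + ε) (ρ + η)) ∈ nhdsWithin x (Set.Ioi x) := by
        apply Ioo_mem_nhdsGT
        exact lt_min (by linarith) hxI.2
      refine Filter.mem_of_superset hmem ?_
      rintro y ⟨hy1, hy2⟩
      have hy3 : y < x + ε := lt_of_lt_of_le hy2 (min_le_left _ _)
      have hy4 : y < ρ + η := lt_of_lt_of_le hy2 (min_le_right _ _)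
      have hIcc : ∀ z ∈ Set.Icc x y, z ∈ Set.Icc ρ (ρ + η) := fun z hz =>
        ⟨hxI.1.trans hz.1, hz.2.trans hy4.le⟩
      have hz : ∀ z ∈ Set.Icc x y, k' z ≤ A ∧ d' z ≤ B := by
        intro z hz
        have hd1 : dist z x < ε := by
          rw [Real.dist_eq, abs_of_nonneg (by linarith [hz.1])]
          linarith [hz.2]
        obtain ⟨g1, g2⟩ := hball hd1
        exact hb z (hIcc z hz) g1.le g2.le
      have mv : ∀ (f f' : ℝ → ℝ) (C : ℝ), (∀ z ∈ Set.Icc x y, HasDerivAt f (f' z) z) →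
          (∀ z ∈ Set.Icc x y, f' z ≤ C) → f y - f x ≤ C * (y - x) := by
        intro f f' C hf hC
        refine Convex.image_sub_le_mul_sub_of_deriv_le (convex_Icc x y)
          (fun z hz => (hf z hz).continuousAt.continuousWithinAt) ?_ ?_ x
          (Set.left_mem_Icc.2 hy1.le) y (Set.right_mem_Icc.2 hy1.le) hy1.le
        · intro z hz
          exact (hf z (interior_subset hz)).differentiableAt.differentiableWithinAt
        · intro z hz
          rw [(hf z (interior_subset hz)).deriv]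
          exact hC z (interior_subset hz)
      have m1 := mv k k' A (fun z hz => hk z (hIcc z hz)) (fun z hz' => (hz z hz').1)
      have m2 := mv d d' B (fun z hz => hd z (hIcc z hz)) (fun z hz' => (hz z hz').2)
      constructor
      · nlinarith
      · nlinarith
  have hend := hsub (Set.right_mem_Icc.2 (by linarith : ρ ≤ ρ + η))
  rw [hs, Set.mem_ofPred_eq] at hend
  have e : ρ + η - ρ = η := by ring
  rw [e] at hend
  exact ⟨by linarith [hend.1], by linarith [hend.2]⟩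

end PGr
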