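import Pool.Agent.PGc.CDefs

/-! # Module Pring: Pringsheim's theorem -/

set_option linter.unusedSectionVars false

namespace PGr
open Set
open scoped ENNReal

theorem Pring_ne_top (c : ℕ → ℝ≥0∞) {b : ℝ} (hb : 0 < b)
    (h : ∑' n, c n * ENNReal.ofReal b ^ n ≠ ⊤) (n : ℕ) : c n ≠ ⊤ := by
  intro hn
  apply h
  have h1 : c n * ENNReal.ofReal b ^ n ≤ ∑' n, c n * ENNReal.ofReal b ^ n := ENNReal.le_tsum n
  rw [hn, ENNReal.top_mul (pow_ne_zero _ (ENNReal.ofReal_pos.2 hb).ne')] at h1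
  exact top_le_iff.1 h1

theorem Pring_term (c : ℕ → ℝ≥0∞) (hc : ∀ n, c n ≠ ⊤) {z : ℝ} (hz : 0 ≤ z) (n : ℕ) :
    c n * ENNReal.ofReal z ^ n = ENNReal.ofReal ((c n).toReal * z ^ n) := by
  rw [ENNReal.ofReal_mul ENNReal.toReal_nonneg, ENNReal.ofReal_toReal (hc n), ENNReal.ofReal_pow hz]

theorem Pring_toReal (c : ℕ → ℝ≥0∞) (hc : ∀ n, c n ≠ ⊤) {z : ℝ} (hz : 0 ≤ z) :
    (∑' n, c n * ENNReal.ofReal z ^ n).toReal = ∑' n, (c n).toReal * z ^ n := by
  rw [ENNReal.tsum_toReal_eq]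
  · refine tsum_congr (fun n => ?_)
    rw [Pring_term c hc hz, ENNReal.toReal_ofReal (by positivity)]
  · intro n
    rw [Pring_term c hc hz]
    exact ENNReal.ofReal_ne_top

theorem Pring_summable (c : ℕ → ℝ≥0∞) (hc : ∀ n, c n ≠ ⊤) {z : ℝ} (hz : 0 ≤ z)
    (h : ∑' n, c n * ENNReal.ofReal z ^ n ≠ ⊤) : Summable fun n => (c n).toReal * z ^ n := by
  have h1 := ENNReal.summable_toReal h
  refine h1.congr (fun n => ?_)
  rw [Pring_term c hc hz, ENNReal.toReal_ofReal (by positivity)]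

theorem Pring_ne (c : ℕ → ℝ≥0∞) (hc : ∀ n, c n ≠ ⊤) {z : ℝ} (hz : 0 ≤ z)
    (h : Summable fun n => (c n).toReal * z ^ n) : ∑' n, c n * ENNReal.ofReal z ^ n ≠ ⊤ := by
  have h1 : ∑' n, c n * ENNReal.ofReal z ^ n = ENNReal.ofReal (∑' n, (c n).toReal * z ^ n) := by
    rw [ENNReal.ofReal_tsum_of_nonneg (fun n => by positivity) h]
    exact tsum_congr (fun n => Pring_term c hc hz n)
  rw [h1]
  exact ENNReal.ofReal_ne_top

theorem Pring_mono (c : ℕ → ℝ≥0∞) {y z : ℝ} (hyz : y ≤ z)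
    (h : ∑' n, c n * ENNReal.ofReal z ^ n ≠ ⊤) : ∑' n, c n * ENNReal.ofReal y ^ n ≠ ⊤ := by
  refine ne_top_of_le_ne_top h (ENNReal.tsum_le_tsum (fun n => ?_))
  gcongr

theorem Pring_ball (a : ℕ → ℝ) (ha : ∀ n, 0 ≤ a n) {ρ : ℝ} (hρ : 0 < ρ)
    (h : Summable fun n => a n * ρ ^ n) :
    HasFPowerSeriesOnBall (fun z : ℝ => ∑' n, a n * z ^ n)
      (FormalMultilinearSeries.ofScalars ℝ a) 0 (ENNReal.ofReal ρ) := by
  have h1 : ENNReal.ofReal ρ ≤ (FormalMultilinearSeries.ofScalars ℝ a).radius := by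
    have h2 := (FormalMultilinearSeries.ofScalars ℝ a).le_radius_of_summable_norm
      (r := Real.toNNReal ρ) (by
        refine h.congr (fun n => ?_)
        rw [FormalMultilinearSeries.ofScalars_norm, Real.norm_of_nonneg (ha n),
          Real.coe_toNNReal ρ hρ.le])
    exact h2
  have h3 : 0 < ENNReal.ofReal ρ := ENNReal.ofReal_pos.2 hρ
  have h4 := ((FormalMultilinearSeries.ofScalars ℝ a).hasFPowerSeriesOnBall
    (h3.trans_le h1)).mono h3 h1
  have h5 : (FormalMultilinearSeries.ofScalars ℝ a).sum = fun z : ℝ => ∑' n, a n * z ^ n := by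
    funext z
    exact FormalMultilinearSeries.ofScalars_sum_eq a z
  rw [h5] at h4
  exact h4

/-- a convergent power series with nonnegative coefficients is analytic inside -/
theorem nonneg_series_analytic (c : ℕ → ℝ≥0∞) {b : ℝ} (hb : 0 < b)
    (h : ∑' n, c n * ENNReal.ofReal b ^ n ≠ ⊤) {x : ℝ} (h0 : 0 < x) (hx : x < b) :
    AnalyticAt ℝ (fun z => (∑' n, c n * ENNReal.ofReal z ^ n).toReal) x := by
  have hc := Pring_ne_top c hb h
  have h1 := Pring_ball (fun n => (c n).toReal) (fun n => ENNReal.toReal_nonneg) hb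
    (Pring_summable c hc hb.le h)
  have h2 : AnalyticAt ℝ (fun z : ℝ => ∑' n, (c n).toReal * z ^ n) x := by
    refine h1.analyticAt_of_mem ?_
    rw [Metric.mem_eball, edist_dist, dist_zero_right, Real.norm_of_nonneg h0.le]
    exact (ENNReal.ofReal_lt_ofReal_iff hb).2 hx
  refine h2.congr ?_
  filter_upwards [lt_mem_nhds h0] with z hz
  exact (Pring_toReal c hc hz.le).symm

theorem Pring_pow {x b : ℝ} (h0 : 0 ≤ x) (hx : x < b) (n : ℕ) :
    (n : ℝ) * x ^ (n - 1) ≤ b ^ n / (b - x) := by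
  rw [le_div_iff₀ (by linarith)]
  have h1 : ∀ m : ℕ, (m : ℝ) * x ^ (m - 1) * (b - x) ≤ b ^ m - x ^ m := by
    intro m
    induction m with
    | zero => simp
    | succ m ih =>
      rw [Nat.add_sub_cancel]
      have h2 : (m : ℝ) * x ^ m * (b - x) ≤ x * (b ^ m - x ^ m) := by
        rcases Nat.eq_zero_or_pos m with hm | hm
        · subst hm; simp
        · obtain ⟨j, rfl⟩ := Nat.exists_eq_succ_of_ne_zero hm.ne'
          rw [Nat.succ_sub_one] at ih
          calc ((j.succ : ℕ) : ℝ) * x ^ (j.succ) * (b - x)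
              = x * (((j.succ : ℕ) : ℝ) * x ^ j * (b - x)) := by rw [pow_succ]; ring
            _ ≤ x * (b ^ j.succ - x ^ j.succ) := mul_le_mul_of_nonneg_left ih h0
      have h3 : x ^ m ≤ b ^ m := pow_le_pow_left₀ h0 hx.le m
      push_cast
      rw [pow_succ b, pow_succ x]
      nlinarith [mul_le_mul_of_nonneg_right h3 (sub_nonneg.2 hx.le)]
  have h4 := h1 n
  have h5 : 0 ≤ x ^ n := pow_nonneg h0 n
  linarith

/-- derivative of such a series -/
theorem nonneg_series_deriv (c : ℕ → ℝ≥0∞) {b : ℝ} (hb : 0 < b)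
    (h : ∑' n, c n * ENNReal.ofReal b ^ n ≠ ⊤) {x : ℝ} (h0 : 0 < x) (hx : x < b) :
    ∑' n : ℕ, (n : ℝ≥0∞) * (c n * ENNReal.ofReal x ^ (n - 1)) ≠ ⊤ ∧
    HasDerivAt (fun z => (∑' n, c n * ENNReal.ofReal z ^ n).toReal)
      (∑' n : ℕ, (n : ℝ≥0∞) * (c n * ENNReal.ofReal x ^ (n - 1))).toReal x := by
  have hc := Pring_ne_top c hb h
  have hsum := Pring_summable c hc hb.le h
  set a : ℕ → ℝ := fun n => (c n).toReal with ha
  have ha0 : ∀ n, 0 ≤ a n := fun n => ENNReal.toReal_nonneg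
  have hterm : ∀ (n : ℕ) (z : ℝ), 0 ≤ z → (n : ℝ≥0∞) * (c n * ENNReal.ofReal z ^ (n - 1)) =
      ENNReal.ofReal ((n : ℝ) * (a n * z ^ (n - 1))) := by
    intro n z hz
    rw [ENNReal.ofReal_mul (Nat.cast_nonneg n), ENNReal.ofReal_natCast,
      ENNReal.ofReal_mul ENNReal.toReal_nonneg, ENNReal.ofReal_toReal (hc n), ENNReal.ofReal_pow hz]
  have hbd : ∀ (z : ℝ), 0 ≤ z → z < b → ∀ n : ℕ,
      (n : ℝ) * (a n * z ^ (n - 1)) ≤ (1 / (b - z)) * (a n * b ^ n) := by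
    intro z hz hzb n
    have h1 := mul_le_mul_of_nonneg_left (Pring_pow hz hzb n) (ha0 n)
    calc (n : ℝ) * (a n * z ^ (n - 1)) = a n * ((n : ℝ) * z ^ (n - 1)) := by ring
      _ ≤ a n * (b ^ n / (b - z)) := h1
      _ = (1 / (b - z)) * (a n * b ^ n) := by ring
  have hs1 : ∀ z : ℝ, 0 ≤ z → z < b → Summable fun n : ℕ => (n : ℝ) * (a n * z ^ (n - 1)) := by
    intro z hz hzb
    refine Summable.of_nonneg_of_le (fun n => ?_) (hbd z hz hzb) (hsum.mul_left _)
    have := ha0 n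
    positivity
  have e1 : ∑' n : ℕ, (n : ℝ≥0∞) * (c n * ENNReal.ofReal x ^ (n - 1)) =
      ENNReal.ofReal (∑' n : ℕ, (n : ℝ) * (a n * x ^ (n - 1))) := by
    rw [ENNReal.ofReal_tsum_of_nonneg (fun n => by have := ha0 n; positivity) (hs1 x h0.le hx)]
    exact tsum_congr (fun n => hterm n x h0.le)
  refine ⟨by rw [e1]; exact ENNReal.ofReal_ne_top, ?_⟩
  rw [e1, ENNReal.toReal_ofReal (tsum_nonneg (fun n => by have := ha0 n; positivity))]
  -- the derivative
  set ρ : ℝ := (x + b) / 2 with hρ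
  have hxρ : x < ρ := by rw [hρ]; linarith
  have hρb : ρ < b := by rw [hρ]; linarith
  have h1 : HasDerivAt (fun z : ℝ => ∑' n, a n * z ^ n)
      (∑' n : ℕ, (n : ℝ) * (a n * x ^ (n - 1))) x := by
    refine hasDerivAt_tsum_of_isPreconnected (u := fun n : ℕ => (n : ℝ) * (a n * ρ ^ (n - 1)))
      (t := Ioo 0 ρ) (g := fun n z => a n * z ^ n)
      (g' := fun n z => (n : ℝ) * (a n * z ^ (n - 1))) (y₀ := x)
      (hs1 ρ (by linarith) hρb) isOpen_Ioo isPreconnected_Ioo ?_ ?_ ⟨h0, hxρ⟩ ?_ ⟨h0, hxρ⟩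
    · intro n z _
      have h2 := (hasDerivAt_pow n z).const_mul (a n)
      refine h2.congr_deriv ?_
      ring
    · intro n z hz
      have hz0 : 0 ≤ z := hz.1.le
      rw [Real.norm_of_nonneg (by have := ha0 n; positivity)]
      have h3 : z ^ (n - 1) ≤ ρ ^ (n - 1) := pow_le_pow_left₀ hz0 hz.2.le _
      have := ha0 n
      gcongr
    · exact Pring_summable c hc h0.le (Pring_mono c hx.le h)
  refine h1.congr_of_eventuallyEq ?_
  filter_upwards [lt_mem_nhds h0] with z hz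
  exact Pring_toReal c hc hz.le

theorem Pring_binom (c : ℕ → ℝ≥0∞) (x t : ℝ≥0∞) :
    ∑' n, c n * (x + t) ^ n =
      ∑' k, (∑' n, c n * ((n.choose k : ℝ≥0∞) * x ^ (n - k))) * t ^ k := by
  have h1 : ∀ n : ℕ, c n * (x + t) ^ n =
      ∑' k, c n * ((n.choose k : ℝ≥0∞) * x ^ (n - k)) * t ^ k := by
    intro n
    rw [add_comm x t, add_pow, Finset.mul_sum, tsum_eq_sum (s := Finset.range (n + 1))]
    · refine Finset.sum_congr rfl (fun k _ => ?_)
      ring
    · intro k hk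
      rw [Finset.mem_range] at hk
      rw [Nat.choose_eq_zero_of_lt (by omega)]
      simp
  simp_rw [h1]
  rw [ENNReal.tsum_comm]
  refine tsum_congr (fun k => ?_)
  rw [ENNReal.tsum_mul_right]

theorem Pring_eqOn (c : ℕ → ℝ≥0∞) (r ε : ℝ) (hε : 0 < ε) (hr : 0 < r) (g : ℝ → ℝ)
    (hg : ∀ x ∈ Ioo 0 r, AnalyticAt ℝ g x)
    (h : ∀ x, 0 < x → x < ε → 0 ≤ g x ∧ ∑' n, c n * ENNReal.ofReal x ^ n = ENNReal.ofReal (g x))
    (hP : ∀ x, 0 < x → x < r → ∑' n, c n * ENNReal.ofReal x ^ n ≠ ⊤) :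
    EqOn (fun z => (∑' n, c n * ENNReal.ofReal z ^ n).toReal) g (Ioo 0 r) := by
  have hF : AnalyticOnNhd ℝ (fun z => (∑' n, c n * ENNReal.ofReal z ^ n).toReal) (Ioo 0 r) := by
    intro x hx
    have hx1 : x < (x + r) / 2 := by linarith [hx.2]
    have hx2 : (x + r) / 2 < r := by linarith [hx.2]
    have hx3 : 0 < (x + r) / 2 := by linarith [hx.1]
    exact nonneg_series_analytic c hx3 (hP _ hx3 hx2) hx.1 hx1
  have hm : 0 < min ε r := lt_min hε hr
  refine hF.eqOn_of_preconnected_of_eventuallyEq (fun x hx => hg x hx) isPreconnected_Ioo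
    (z₀ := min ε r / 2) ⟨by linarith, by linarith [min_le_right ε r]⟩ ?_
  have h1 : min ε r / 2 ∈ Ioo 0 ε := ⟨by linarith, by linarith [min_le_left ε r]⟩
  filter_upwards [isOpen_Ioo.mem_nhds h1] with z hz
  obtain ⟨h2, h3⟩ := h z hz.1 hz.2
  show (∑' n, c n * ENNReal.ofReal z ^ n).toReal = g z
  rw [h3, ENNReal.toReal_ofReal h2]

/-- the extension step -/
theorem Pring_step (c : ℕ → ℝ≥0∞) (r : ℝ) (hr : 0 < r) (g : ℝ → ℝ)
    (hgr : AnalyticAt ℝ g r)
    (hP : ∀ x, 0 < x → x < r → ∑' n, c n * ENNReal.ofReal x ^ n ≠ ⊤)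
    (heq : EqOn (fun z => (∑' n, c n * ENNReal.ofReal z ^ n).toReal) g (Ioo 0 r)) (M : ℝ)
    (hM : r < M) :
    ∃ r', r < r' ∧ r' < M ∧ ∑' n, c n * ENNReal.ofReal r' ^ n ≠ ⊤ := by
  obtain ⟨p, R, hp⟩ := hgr
  obtain ⟨R', hR'0, hR'⟩ : ∃ R' : ℝ, 0 < R' ∧ ENNReal.ofReal R' < R := by
    obtain ⟨q, hq1, hq2⟩ := ENNReal.lt_iff_exists_nnreal_btwn.1 hp.r_pos
    refine ⟨q, ?_, ?_⟩
    · exact_mod_cast hq1
    · rw [ENNReal.ofReal_coe_nnreal]; exact hq2
  set δ : ℝ := min (min (R' / 4) (r / 2)) ((M - r) / 2) with hδ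
  have hδ0 : 0 < δ := lt_min (lt_min (by linarith) (by linarith)) (by linarith)
  have hδ1 : δ ≤ R' / 4 := (min_le_left _ _).trans (min_le_left _ _)
  have hδ2 : δ ≤ r / 2 := (min_le_left _ _).trans (min_le_right _ _)
  have hδ3 : δ ≤ (M - r) / 2 := min_le_right _ _
  set x1 : ℝ := r - δ with hx1
  have hx10 : 0 < x1 := by rw [hx1]; linarith
  -- finite coefficients
  have hr2 : 0 < r / 2 := by linarith
  have hc : ∀ n, c n ≠ ⊤ := Pring_ne_top c hr2 (hP _ hr2 (by linarith))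
  set T : ℕ → ℝ≥0∞ := fun k => ∑' n, c n * ((n.choose k : ℝ≥0∞) * ENNReal.ofReal x1 ^ (n - k)) with hT
  have hbin : ∀ t : ℝ, 0 ≤ t → ∑' n, c n * ENNReal.ofReal (x1 + t) ^ n =
      ∑' k, T k * ENNReal.ofReal t ^ k := by
    intro t ht
    rw [ENNReal.ofReal_add hx10.le ht, Pring_binom]
  have hTfin : ∑' k, T k * ENNReal.ofReal (δ / 2) ^ k ≠ ⊤ := by
    rw [← hbin _ (by linarith)]
    exact hP _ (by linarith) (by rw [hx1]; linarith)
  have hTc : ∀ k, T k ≠ ⊤ := Pring_ne_top T (by linarith) hTfin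
  have hG := Pring_ball (fun k => (T k).toReal) (fun k => ENNReal.toReal_nonneg)
    (show 0 < δ / 2 by linarith) (Pring_summable T hTc (by linarith) hTfin)
  have hG1 := hG.comp_sub x1
  rw [zero_add] at hG1
  have hp1 := hp.changeOrigin (y := -δ) (by
    refine lt_of_le_of_lt ?_ hR'
    rw [← ENNReal.ofReal_coe_nnreal]
    refine ENNReal.ofReal_le_ofReal ?_
    rw [coe_nnnorm, norm_neg, Real.norm_of_nonneg hδ0.le]
    linarith)
  have hx1' : r + -δ = x1 := by rw [hx1]; ring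
  rw [hx1'] at hp1
  -- they agree near `x1`
  have hev : ∀ᶠ z in nhds x1, (fun z : ℝ => ∑' n, (T n).toReal * (z - x1) ^ n) z = g z := by
    refine (AnalyticAt.frequently_eq_iff_eventually_eq hG1.analyticAt hp1.analyticAt).1 ?_
    have h1 : ∀ᶠ z in nhdsWithin x1 (Ioi x1),
        (fun z : ℝ => ∑' n, (T n).toReal * (z - x1) ^ n) z = g z := by
      have h2 : Ioo x1 r ∈ nhdsWithin x1 (Ioi x1) := Ioo_mem_nhdsGT (by rw [hx1]; linarith)
      filter_upwards [h2] with z hz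
      have h3 := heq ⟨hx10.trans hz.1, hz.2⟩
      rw [← h3]
      have h4 := hbin (z - x1) (by linarith [hz.1])
      have h5 : x1 + (z - x1) = z := by ring
      rw [h5] at h4
      show ∑' n, (T n).toReal * (z - x1) ^ n = (∑' n, c n * ENNReal.ofReal z ^ n).toReal
      rw [h4, Pring_toReal T hTc (by linarith [hz.1])]
    refine (h1.frequently).filter_mono ?_
    exact nhdsWithin_mono _ (fun z (hz : x1 < z) => hz.ne')
  have heqs := HasFPowerSeriesAt.eq_formalMultilinearSeries_of_eventually hG1.hasFPowerSeriesAt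
    hp1.hasFPowerSeriesAt hev
  have hrad : ((Real.toNNReal (2 * δ) : NNReal) : ℝ≥0∞) <
      (FormalMultilinearSeries.ofScalars ℝ (fun k => (T k).toReal)).radius := by
    rw [heqs]
    refine lt_of_lt_of_le ?_ hp1.r_le
    rw [lt_tsub_iff_right]
    refine lt_of_le_of_lt ?_ hR'
    have e1 : ((‖(-δ : ℝ)‖₊ : NNReal) : ℝ≥0∞) = ENNReal.ofReal δ := by
      rw [← ENNReal.ofReal_coe_nnreal, coe_nnnorm, norm_neg, Real.norm_of_nonneg hδ0.le]
    rw [e1]
    show ENNReal.ofReal (2 * δ) + ENNReal.ofReal δ ≤ ENNReal.ofReal R'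
    rw [← ENNReal.ofReal_add (by linarith) hδ0.le]
    exact ENNReal.ofReal_le_ofReal (by linarith)
  have hsum := (FormalMultilinearSeries.ofScalars ℝ (fun k => (T k).toReal)).summable_norm_mul_pow hrad
  have hsum2 : Summable fun n => (T n).toReal * (2 * δ) ^ n := by
    refine hsum.congr (fun n => ?_)
    rw [FormalMultilinearSeries.ofScalars_norm, Real.norm_of_nonneg ENNReal.toReal_nonneg,
      Real.coe_toNNReal _ (by linarith)]
  have hfin := Pring_ne T hTc (by linarith) hsum2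
  rw [← hbin _ (by linarith)] at hfin
  refine ⟨x1 + 2 * δ, by rw [hx1]; linarith, by rw [hx1]; linarith, hfin⟩

/-- Power series with nonnegative coefficients which agrees near `0` with a function analytic on `(0, b)`.
Proof: let `r` be the supremum of the `x ≤ b` for which the series converges on `(0, x)`; on `(0, r)` the series is
analytic and equals `g` (identity theorem on the preconnected set `(0, r)`).  If `r < b`, `g` is analytic at `r`,
so for `x₁ < r` close to `r` its Taylor series at `x₁` converges absolutely at `r + δ` (the radius of convergence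
at `x₁` is at least that at `r` minus `|r - x₁|`).  Its coefficients are `Σ_n c_n C(n, k) x₁^(n-k) ≥ 0`, and
`Σ_k Σ_n c_n C(n,k) x₁^(n-k) (r + δ - x₁)^k = Σ_n c_n (r + δ)^n` (all terms nonnegative), so the series converges
at `r + δ`, contradiction. -/
theorem pringsheim (c : ℕ → ℝ≥0∞) (b ε : ℝ) (hε : 0 < ε) (hεb : ε ≤ b) (g : ℝ → ℝ)
    (hg : ∀ x ∈ Ioo 0 b, AnalyticAt ℝ g x)
    (h : ∀ x, 0 < x → x < ε → 0 ≤ g x ∧ ∑' n, c n * ENNReal.ofReal x ^ n = ENNReal.ofReal (g x)) :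
    ∀ x, 0 < x → x < b → 0 ≤ g x ∧ ∑' n, c n * ENNReal.ofReal x ^ n = ENNReal.ofReal (g x) := by
  have hb : 0 < b := hε.trans_le hεb
  have hP : ∀ x, 0 < x → x < b → ∑' n, c n * ENNReal.ofReal x ^ n ≠ ⊤ := by
    by_contra hcon
    push Not at hcon
    obtain ⟨x0, hx00, hx0b, hx0⟩ := hcon
    set A : Set ℝ := {x | 0 < x ∧ x < b ∧ ∑' n, c n * ENNReal.ofReal x ^ n ≠ ⊤} with hA
    have hεA : ε / 2 ∈ A := by
      refine ⟨by linarith, by linarith, ?_⟩
      rw [(h (ε / 2) (by linarith) (by linarith)).2]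
      exact ENNReal.ofReal_ne_top
    have hub : ∀ x ∈ A, x ≤ x0 := by
      intro x hx
      by_contra hlt
      rw [not_le] at hlt
      exact Pring_mono c hlt.le hx.2.2 hx0
    have hbdd : BddAbove A := ⟨x0, hub⟩
    set r := sSup A with hr
    have hr0 : 0 < r := lt_of_lt_of_le (by linarith) (le_csSup hbdd hεA)
    have hrx0 : r ≤ x0 := csSup_le ⟨_, hεA⟩ hub
    have hPr : ∀ x, 0 < x → x < r → ∑' n, c n * ENNReal.ofReal x ^ n ≠ ⊤ := by
      intro x _ hxr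
      obtain ⟨y, hy, hxy⟩ := exists_lt_of_lt_csSup ⟨_, hεA⟩ hxr
      exact Pring_mono c hxy.le hy.2.2
    have heq := Pring_eqOn c r ε hε hr0 g (fun x hx => hg x ⟨hx.1, by linarith [hx.2]⟩) h hPr
    obtain ⟨r', h1, h2, h3⟩ := Pring_step c r hr0 g (hg r ⟨hr0, by linarith⟩) hPr heq b (by linarith)
    have h4 : r' ∈ A := ⟨by linarith, h2, h3⟩
    exact absurd (le_csSup hbdd h4) (not_le.2 h1)
  have heq := Pring_eqOn c b ε hε hb g hg h hP
  intro x h0 hx
  have h1 := heq ⟨h0, hx⟩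
  have h2 : (∑' n, c n * ENNReal.ofReal x ^ n).toReal = g x := h1
  refine ⟨h2 ▸ ENNReal.toReal_nonneg, ?_⟩
  rw [← h2, ENNReal.ofReal_toReal (hP x h0 hx)]

end PGr
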