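import Pool.Agent.PGc.RgExpl

/-! # Module RgDer: bounds for the derivatives of `Rg` -/

set_option linter.unusedSectionVars false

namespace PGr
open Set
open scoped ENNReal

/-- Proof: by `nonneg_series_deriv`, `RgE s E` is the derivative of `Rg s E = Rf s (V E)`; with
`dYf/dEf = (1-u)^2 (1-v)^2 ≥ 0` it is `1/(1+E)^2 + 1/(1+sE)^2 - 1 - (1-u)^2 (1-v)^2`. -/
theorem RgE_le {t : ℝ} (h0 : 0 < t) (h1 : t < 1) (hs : scr t ≤ 1 / 10) {E : ℝ} (hE : 0 < E)
    (hE' : E < ecr t) :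
    RgE (ENNReal.ofReal (scr t)) (ENNReal.ofReal E) ≤
      ENNReal.ofReal (1 / (1 + E) ^ 2 + 1 / (1 + scr t * E) ^ 2 - 1) := by
  obtain ⟨V, hV, -⟩ := exists_inverse h0 h1
  have hsp : 0 < scr t := scr_pos h0 h1
  set s : ℝ := scr t with hsdef
  -- the value of `Rg`
  have hval : ∀ z ∈ Ioo 0 (ecr t), 0 ≤ Rf s (V z) ∧
      Rg (ENNReal.ofReal s) (ENNReal.ofReal z) = ENNReal.ofReal (Rf s (V z)) := by
    intro z hz
    obtain ⟨-, hv0, hvt, hEf⟩ := hV z hz
    have h := Rg_expl h0 h1 hs hv0 hvt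
    rw [hEf] at h
    exact h
  obtain ⟨hVan, hv0, hvt, hEfv⟩ := hV E ⟨hE, hE'⟩
  set v : ℝ := V E with hv
  have hv1 : v < 1 := hvt.trans h1
  -- the inverse function
  have hVd : HasDerivAt V (deriv V E) E := hVan.differentiableAt.hasDerivAt
  have hEd := Ef_hasDerivAt hsp hv0 hv1
  have hYd := Yf_hasDerivAt hsp hv0 hv1
  have hq : 0 < qf s v := qf_pos hv0 hvt h1
  have hu0 : 0 < uf s v := uf_pos hsp hv0 hv1
  have hu1 : uf s v < 1 := uf_lt_one hsp hv0 hv1
  set e' : ℝ := qf s v / ((1 + uf s v) * (1 - v) ^ 3) with he'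
  set y' : ℝ := (1 - uf s v) ^ 2 * qf s v / ((1 + uf s v) * (1 - v)) with hy'
  have h1v : 0 < 1 - v := by linarith
  have he'0 : 0 < e' := by positivity
  have hy'0 : 0 ≤ y' := by positivity
  have hmem : Ioo 0 (ecr t) ∈ nhds E := Ioo_mem_nhds hE hE'
  have hcomp : HasDerivAt (fun z => Ef s (V z)) (e' * deriv V E) E :=
    HasDerivAt.comp E (h₂ := Ef s) (by rw [← hv]; exact hEd) hVd
  have hid : HasDerivAt (fun z : ℝ => Ef s (V z)) 1 E := by
    refine (hasDerivAt_id E).congr_of_eventuallyEq ?_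
    filter_upwards [hmem] with z hz
    exact (hV z hz).2.2.2
  have hone : e' * deriv V E = 1 := hcomp.unique hid
  have hV'0 : 0 ≤ deriv V E := by
    by_contra hneg
    push Not at hneg
    have := mul_neg_of_pos_of_neg he'0 hneg
    linarith
  have hYV : HasDerivAt (fun z => Yf s (V z)) (y' * deriv V E) E :=
    HasDerivAt.comp E (h₂ := Yf s) (by rw [← hv]; exact hYd) hVd
  -- the derivative of the explicit formula
  have hsE : 0 < 1 + s * E := by positivity
  have h1E : 0 < 1 + E := by positivity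
  have hA : HasDerivAt (fun z : ℝ => s * z ^ 2 / (1 + s * z)) (1 - 1 / (1 + s * E) ^ 2) E := by
    have a1 : HasDerivAt (fun z : ℝ => s * z ^ 2) (s * (2 * E)) E := by
      have := (hasDerivAt_pow 2 E).const_mul s
      simpa using this
    have a2 : HasDerivAt (fun z : ℝ => 1 + s * z) s E := by
      have := ((hasDerivAt_id E).const_mul s).const_add 1
      simpa using this
    refine (a1.fun_div a2 hsE.ne').congr_deriv ?_
    field_simp
    ring
  have hB : HasDerivAt (fun z : ℝ => z ^ 2 / (1 + z)) (1 - 1 / (1 + E) ^ 2) E := by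
    have a1 : HasDerivAt (fun z : ℝ => z ^ 2) (2 * E) E := by
      have := hasDerivAt_pow 2 E
      simpa using this
    have a2 : HasDerivAt (fun z : ℝ => 1 + z) 1 E := by
      have := (hasDerivAt_id E).const_add 1
      simpa using this
    refine (a1.fun_div a2 h1E.ne').congr_deriv ?_
    field_simp
    ring
  have hF : HasDerivAt (fun z : ℝ => z - Yf s (V z) - s * z ^ 2 / (1 + s * z) - z ^ 2 / (1 + z))
      (1 - y' * deriv V E - (1 - 1 / (1 + s * E) ^ 2) - (1 - 1 / (1 + E) ^ 2)) E :=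
    (((hasDerivAt_id E).sub hYV).sub hA).sub hB
  -- the series
  obtain ⟨b, hb1, hb2⟩ := exists_between hE'
  have hb0 : 0 < b := hE.trans hb1
  have hfin : ∑' n, rc' (ENNReal.ofReal s) n * ENNReal.ofReal b ^ n ≠ ⊤ := by
    rw [← Rg_series, (hval b ⟨hb0, hb2⟩).2]
    exact ENNReal.ofReal_ne_top
  obtain ⟨hne, hder⟩ := nonneg_series_deriv (rc' (ENNReal.ofReal s)) hb0 hfin hE hb1
  rw [← RgE_series] at hne hder
  have hder2 : HasDerivAt
      (fun z : ℝ => z - Yf s (V z) - s * z ^ 2 / (1 + s * z) - z ^ 2 / (1 + z))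
      (RgE (ENNReal.ofReal s) (ENNReal.ofReal E)).toReal E := by
    refine hder.congr_of_eventuallyEq ?_
    filter_upwards [hmem] with z hz
    obtain ⟨g1, g2⟩ := hval z hz
    rw [← Rg_series, g2, ENNReal.toReal_ofReal g1, Rf, (hV z hz).2.2.2]
  have heq := hder2.unique hF
  have hle : (RgE (ENNReal.ofReal s) (ENNReal.ofReal E)).toReal ≤
      1 / (1 + E) ^ 2 + 1 / (1 + s * E) ^ 2 - 1 := by
    rw [heq]
    have := mul_nonneg hy'0 hV'0
    linarith
  rw [← ENNReal.ofReal_toReal hne]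
  exact ENNReal.ofReal_le_ofReal hle

/-- numeric consequence -/
theorem RgE_le' {t : ℝ} (h0 : 0 < t) (h1 : t < 1) (hs : scr t ≤ 1 / 10) (hs' : 10 / 277 ≤ scr t)
    {E : ℝ} (hE : 1 ≤ E) (hE' : E < ecr t) :
    RgE (ENNReal.ofReal (scr t)) (ENNReal.ofReal E) ≤ ENNReal.ofReal (19 / 100) := by
  refine (RgE_le h0 h1 hs (by linarith) hE').trans (ENNReal.ofReal_le_ofReal ?_)
  have a1 : 1 / (1 + E) ^ 2 ≤ 1 / (2 : ℝ) ^ 2 := by
    apply one_div_le_one_div_of_le (by norm_num)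
    exact pow_le_pow_left₀ (by norm_num) (by linarith) 2
  have a2 : 1 / (1 + scr t * E) ^ 2 ≤ 1 / (287 / 277 : ℝ) ^ 2 := by
    apply one_div_le_one_div_of_le (by norm_num)
    apply pow_le_pow_left₀ (by norm_num)
    nlinarith
  have a3 : (1 : ℝ) / 2 ^ 2 + 1 / (287 / 277 : ℝ) ^ 2 - 1 ≤ 19 / 100 := by norm_num
  linarith

/-- by `RgS_le` -/
theorem RgS_le' {t : ℝ} (h0 : 0 < t) (h1 : t < 1) (hs : scr t ≤ 1 / 10) (hs' : 10 / 277 ≤ scr t)
    {E : ℝ} (hE : 1 ≤ E) (hE' : E < ecr t) (hE2 : E ≤ 113 / 100) :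
    RgS (ENNReal.ofReal (scr t)) (ENNReal.ofReal E) ≤ ENNReal.ofReal 4 := by
  have hsp : 0 < scr t := scr_pos h0 h1
  have h := RgS_le (ENNReal.ofReal (scr t)) (ENNReal.ofReal E)
  have hR := RgE_le' h0 h1 hs hs' hE hE'
  set X := RgS (ENNReal.ofReal (scr t)) (ENNReal.ofReal E) with hX
  have h2 : 3 * (ENNReal.ofReal (scr t) * X) ≤
      ENNReal.ofReal (2 * (E * (19 / 100))) := by
    refine h.trans ?_
    rw [ENNReal.ofReal_mul (by norm_num), ENNReal.ofReal_mul (by linarith)]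
    have e2 : ENNReal.ofReal (2 : ℝ) = 2 := by simp
    rw [e2]
    gcongr
  have hXtop : X ≠ ⊤ := by
    intro htop
    rw [htop, ENNReal.mul_top (by simpa using hsp), ENNReal.mul_top (by norm_num)] at h2
    exact absurd (top_le_iff.1 h2) ENNReal.ofReal_ne_top
  have h3 : 3 * (scr t * X.toReal) ≤ 2 * (E * (19 / 100)) := by
    have e : 3 * (ENNReal.ofReal (scr t) * X) = ENNReal.ofReal (3 * (scr t * X.toReal)) := by
      rw [ENNReal.ofReal_mul (by norm_num), ENNReal.ofReal_mul hsp.le, ENNReal.ofReal_toReal hXtop]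
      simp
    rw [e] at h2
    exact (ENNReal.ofReal_le_ofReal_iff (by positivity)).1 h2
  rw [← ENNReal.ofReal_toReal hXtop]
  apply ENNReal.ofReal_le_ofReal
  by_contra hcon
  push Not at hcon
  have h4 : 10 / 277 * 4 < scr t * X.toReal := by
    calc 10 / 277 * 4 ≤ scr t * 4 := mul_le_mul_of_nonneg_right hs' (by norm_num)
      _ < scr t * X.toReal := mul_lt_mul_of_pos_left hcon hsp
  linarith

end PGr
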