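import Pool.Agent.PGc.RgSmall
import Pool.Agent.PGc.Pring

/-! # Module RgExpl: the value of `Rg` below the critical point -/

set_option linter.unusedSectionVars false

namespace PGr
open Set
open scoped ENNReal

/-- Proof: `Rg_series`, `Rg_small` (for `v` small; `Yf` is continuous at `0`, and `Ef` maps `(0, δ)` onto an interval
`(0, ε)`), `pringsheim` with `g E = Rf (scr t) (V E)`, `V` from `exists_inverse`. -/
theorem Rg_expl {t v : ℝ} (h0 : 0 < t) (h1 : t < 1) (hs : scr t ≤ 1 / 10) (hv : 0 < v)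
    (hv' : v < t) :
    0 ≤ Rf (scr t) v ∧
    Rg (ENNReal.ofReal (scr t)) (ENNReal.ofReal (Ef (scr t) v)) = ENNReal.ofReal (Rf (scr t) v) := by
  have hs0 := scr_pos h0 h1
  have ht := half_lt h0 h1 hs
  obtain ⟨V, hV, hV'⟩ := exists_inverse h0 h1
  have hcrit := Ef_crit h0 h1
  have hmono := Ef_strictMonoOn h0 h1
  have hYmono := Yf_strictMonoOn h0 h1
  -- a small parameter
  obtain ⟨δ, hδ0, hδ1, hδ⟩ : ∃ δ : ℝ, 0 < δ ∧ δ < 1 / 2 ∧ Yf (scr t) δ ≤ 1 / 4000 := by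
    have hc : ContinuousWithinAt (Yf (scr t)) (Ico 0 1) 0 :=
      Yf_continuousOn hs0 0 (left_mem_Ico.2 one_pos)
    have h2 : ∀ᶠ x in nhdsWithin (0 : ℝ) (Ico 0 1), Yf (scr t) x < 1 / 4000 := by
      have := hc.eventually_lt (g := fun _ => (1 / 4000 : ℝ)) continuousWithinAt_const
        (by rw [Yf_zero]; norm_num)
      exact this
    have h3 : ∀ᶠ x in nhdsWithin (0 : ℝ) (Ioi 0), Yf (scr t) x < 1 / 4000 ∧ x < 1 / 2 ∧ 0 < x := by
      have h4 : ∀ᶠ x in nhdsWithin (0 : ℝ) (Ioi 0), x < 1 / 2 := by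
        have : ∀ᶠ x in nhds (0 : ℝ), x < 1 / 2 := gt_mem_nhds (by norm_num)
        exact this.filter_mono nhdsWithin_le_nhds
      have h5 : ∀ᶠ x in nhdsWithin (0 : ℝ) (Ioi 0), 0 < x := eventually_mem_nhdsWithin
      have h6 : ∀ᶠ x in nhdsWithin (0 : ℝ) (Ioi 0), Yf (scr t) x < 1 / 4000 := by
        have h7 : nhdsWithin (0 : ℝ) (Ioo 0 1) ≤ nhdsWithin (0 : ℝ) (Ico 0 1) :=
          nhdsWithin_mono _ Ioo_subset_Ico_self
        have h8 := h2.filter_mono h7
        rwa [nhdsWithin_Ioo_eq_nhdsGT one_pos] at h8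
      filter_upwards [h4, h5, h6] with x a b c
      exact ⟨c, a, b⟩
    obtain ⟨δ, h⟩ := h3.exists
    exact ⟨δ, h.2.2, h.2.1, h.1.le⟩
  have hε0 : 0 < Ef (scr t) δ := by
    have := hmono (left_mem_Icc.2 h0.le) ⟨hδ0.le, by linarith⟩ hδ0
    rwa [Ef_zero] at this
  have hεb : Ef (scr t) δ ≤ ecr t := by
    rw [← hcrit]
    exact hmono.monotoneOn ⟨hδ0.le, by linarith⟩ (right_mem_Icc.2 h0.le) (by linarith)
  have key := pringsheim (rc' (ENNReal.ofReal (scr t))) (ecr t) (Ef (scr t) δ) hε0 hεb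
    (fun x => Rf (scr t) (V x)) ?_ ?_
  · have hx0 : 0 < Ef (scr t) v := by
      have := hmono (left_mem_Icc.2 h0.le) ⟨hv.le, hv'.le⟩ hv
      rwa [Ef_zero] at this
    have hxb : Ef (scr t) v < ecr t := by
      rw [← hcrit]
      exact hmono ⟨hv.le, hv'.le⟩ (right_mem_Icc.2 h0.le) hv'
    have h := key _ hx0 hxb
    rw [hV' v ⟨hv, hv'⟩, ← Rg_series] at h
    exact h
  · intro x hx
    obtain ⟨a1, a2, a3, a4⟩ := hV x hx
    have b1 : AnalyticAt ℝ (fun z => Ef (scr t) (V z)) x :=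
      AnalyticAt.fun_comp (Ef_analyticAt hs0 a2 (by linarith)) a1
    have b2 : AnalyticAt ℝ (fun z => Yf (scr t) (V z)) x :=
      AnalyticAt.fun_comp (Yf_analyticAt hs0 a2 (by linarith)) a1
    have hx0 : 0 < Ef (scr t) (V x) := by rw [a4]; exact hx.1
    unfold Rf
    refine AnalyticAt.sub (AnalyticAt.sub (b1.sub b2) ?_) ?_
    · refine (analyticAt_const.mul (b1.pow 2)).div (analyticAt_const.add (analyticAt_const.mul b1)) ?_
      positivity
    · refine (b1.pow 2).div (analyticAt_const.add b1) ?_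
      positivity
  · intro x hx0 hxε
    have hxb : x < ecr t := lt_of_lt_of_le hxε hεb
    obtain ⟨_, a2, a3, a4⟩ := hV x ⟨hx0, hxb⟩
    have hlt : V x < δ := by
      by_contra hcon
      push Not at hcon
      have := hmono.monotoneOn ⟨hδ0.le, by linarith⟩ ⟨a2.le, a3.le⟩ hcon
      rw [a4] at this
      linarith
    have hY : Yf (scr t) (V x) ≤ 1 / 4000 :=
      (hYmono.monotoneOn ⟨a2.le, a3.le⟩ ⟨hδ0.le, by linarith⟩ hlt.le).trans hδ
    have h := Rg_small h0 h1 hs a2 (by linarith) hY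
    rw [a4, Rg_series] at h
    exact h

end PGr
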