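import Pool.Agent.PGc.RigLe
import Pool.Agent.PGc.Kernel
import Pool.Agent.PGc.Curve
import Pool.Agent.PGc.RgSer

/-! # Module RgSmall: the value of `Rg` for small arguments -/

set_option linter.unusedSectionVars false

namespace PGr
open Set
open scoped ENNReal

/-- the explicit value of `Rg s (Ef s v)` -/
noncomputable def Rf (s v : ℝ) : ℝ :=
  Ef s v - Yf s v - s * Ef s v ^ 2 / (1 + s * Ef s v) - Ef s v ^ 2 / (1 + Ef s v)

theorem RgSmall_Yf_pos {s v : ℝ} (hs : 0 < s) (h0 : 0 < v) (h1 : v < 1) : 0 < Yf s v := by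
  have := uf_lt_one hs h0 h1
  unfold Yf
  have h2 : 0 < 1 - uf s v := by linarith
  positivity

/-- the solution of the kernel method is on the right branch: `u = uf s v` (`uf_unique`); both `v` and the given
parameter are `< 1/2 < t` (`half_lt`), where `Yf` is strictly monotone -/
theorem Es_eq {t v : ℝ} (h0 : 0 < t) (h1 : t < 1) (hs : scr t ≤ 1 / 10) (hv : 0 < v) (hv' : v < 1 / 2)
    (hy : Yf (scr t) v ≤ 1 / 4000) :
    Es (ENNReal.ofReal (scr t)) (ENNReal.ofReal (Yf (scr t) v)) = ENNReal.ofReal (Ef (scr t) v) := by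
  have hs0 := scr_pos h0 h1
  have ht := half_lt h0 h1 hs
  have hy0 : 0 < Yf (scr t) v := RgSmall_Yf_pos hs0 hv (by linarith)
  obtain ⟨u', v', hu0, hu1, hv0, hv1, e1, e2, e3⟩ := kernel hs0 hs hy0 hy
  have hu : u' = uf (scr t) v' := by
    refine uf_unique hs0 hv0 (by linarith) hu0 (by linarith) ?_
    rw [← e2, e1]
    ring
  have e4 : Yf (scr t) v' = Yf (scr t) v := by
    rw [e1, hu]
    rfl
  have e5 : v' = v := (Yf_strictMonoOn h0 h1).injOn ⟨hv0.le, by linarith⟩ ⟨hv.le, by linarith⟩ e4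
  rw [e3, hu, e5]
  rfl

/-- from `E_eq`, `ser_eq`, `par_eq` (all terms are finite): `Ser = s (E - Ser) E`, so `Ser = s E^2 / (1 + s E)` -/
theorem Rg_small {t v : ℝ} (h0 : 0 < t) (h1 : t < 1) (hs : scr t ≤ 1 / 10) (hv : 0 < v)
    (hv' : v < 1 / 2) (hy : Yf (scr t) v ≤ 1 / 4000) :
    0 ≤ Rf (scr t) v ∧
    Rg (ENNReal.ofReal (scr t)) (ENNReal.ofReal (Ef (scr t) v)) = ENNReal.ofReal (Rf (scr t) v) := by
  have hs0 := scr_pos h0 h1
  have ht := half_lt h0 h1 hs
  have hy0 : 0 < Yf (scr t) v := RgSmall_Yf_pos hs0 hv (by linarith)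
  have hE0 : 0 < Ef (scr t) v := by
    have := Ef_strictMonoOn h0 h1 (left_mem_Icc.2 h0.le) ⟨hv.le, by linarith⟩ hv
    rwa [Ef_zero] at this
  have hEs := Es_eq h0 h1 hs hv hv' hy
  set s : ℝ := scr t with hsdef
  set y : ℝ := Yf s v with hydef
  set E : ℝ := Ef s v with hEdef
  set S : ℝ≥0∞ := ENNReal.ofReal s with hS
  set Y : ℝ≥0∞ := ENNReal.ofReal y with hY
  have hEtop : Es S Y ≠ ⊤ := by rw [hEs]; exact ENNReal.ofReal_ne_top
  have hErr : (Es S Y).toReal = E := by rw [hEs, ENNReal.toReal_ofReal hE0.le]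
  have hSr : S.toReal = s := ENNReal.toReal_ofReal hs0.le
  have hYr : Y.toReal = y := ENNReal.toReal_ofReal hy0.le
  have hfin : ∀ P : BMap → Prop, Esel S Y P ≠ ⊤ := fun P =>
    ne_top_of_le_ne_top hEtop (le_trans le_self_add (Esel_add S Y P).le)
  have hadd : ∀ P : BMap → Prop, (Esel S Y P).toReal + (Esel S Y fun M => ¬ P M).toReal = E := by
    intro P
    rw [← ENNReal.toReal_add (hfin _) (hfin _), Esel_add, ← hErr]
  have e1 := hadd IsSer
  have e2 := hadd IsPar
  have e3 : (Esel S Y IsSer).toReal = s * (Esel S Y fun M => ¬ IsSer M).toReal * E := by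
    have h := congrArg ENNReal.toReal (ser_eq S Y)
    rwa [ENNReal.toReal_mul, ENNReal.toReal_mul, hSr, hErr] at h
  have e4 : (Esel S Y IsPar).toReal = (Esel S Y fun M => ¬ IsPar M).toReal * E := by
    have h := congrArg ENNReal.toReal (par_eq S Y)
    rwa [ENNReal.toReal_mul, hErr] at h
  have hEeq := E_eq S Y
  have hRtop : Rg S (Es S Y) ≠ ⊤ := by
    have h2 : Rg S (Es S Y) ≤ Es S Y := by
      conv_rhs => rw [hEeq]
      exact le_add_self
    exact ne_top_of_le_ne_top hEtop h2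
  have e5 : E = y + (Esel S Y IsSer).toReal + (Esel S Y IsPar).toReal +
      (Rg S (Es S Y)).toReal := by
    have h := congrArg ENNReal.toReal hEeq
    rw [ENNReal.toReal_add (ENNReal.add_ne_top.2 ⟨ENNReal.add_ne_top.2
        ⟨ENNReal.ofReal_ne_top, hfin _⟩, hfin _⟩) hRtop,
      ENNReal.toReal_add (ENNReal.add_ne_top.2 ⟨ENNReal.ofReal_ne_top, hfin _⟩) (hfin _),
      ENNReal.toReal_add ENNReal.ofReal_ne_top (hfin _), hErr, hYr] at h
    exact h
  have e6 : (Esel S Y IsSer).toReal = s * E ^ 2 / (1 + s * E) := by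
    rw [eq_div_iff (by positivity)]
    have : (Esel S Y fun M => ¬ IsSer M).toReal = E - (Esel S Y IsSer).toReal := by linarith
    rw [this] at e3
    linear_combination e3
  have e7 : (Esel S Y IsPar).toReal = E ^ 2 / (1 + E) := by
    rw [eq_div_iff (by positivity)]
    have : (Esel S Y fun M => ¬ IsPar M).toReal = E - (Esel S Y IsPar).toReal := by linarith
    rw [this] at e4
    linear_combination e4
  have e8 : (Rg S (Es S Y)).toReal = Rf s v := by
    rw [e6, e7] at e5
    unfold Rf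
    linarith
  constructor
  · rw [← e8]
    exact ENNReal.toReal_nonneg
  · rw [← hEs, ← e8, ENNReal.ofReal_toReal hRtop]

end PGr
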