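import Pool.Agent.PGc.Rig1

/-! # Module TwoFaces: two faces sharing two vertices share an edge -/

set_option linter.unusedSectionVars false

namespace PGr
open Equiv Finset

section
variable {T : Type*} [Fintype T] [DecidableEq T] {a s : Perm T}

/-- a closed set with less than four elements contains no two consecutive darts -/
theorem TwoFaces_small (h : Good a s) {B : Finset T} (hB : Cl a B) (hc : B.card < 4) {x : T}
    (hx : x ∈ B) : s x ∉ B := by
  intro hs
  have h1 := h.s_ne x
  have h2 := h.s_ne_a x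
  have e1 : a x ≠ x := h.fpf x
  have e2 : a (s x) ≠ s x := h.fpf (s x)
  have e3 : a (s x) ≠ x := by
    intro h3
    apply h2
    rw [← h.inv (s x), h3]
  have e4 : a (s x) ≠ a x := fun h3 => h1 (a.injective h3)
  have hsub : ({x, a x, s x, a (s x)} : Finset T) ⊆ B := by
    intro u hu
    simp only [mem_insert, mem_singleton] at hu
    rcases hu with rfl | rfl | rfl | rfl
    · exact hx
    · exact (hB x).2 hx
    · exact hs
    · exact (hB (s x)).2 hs
  have hcard : ({x, a x, s x, a (s x)} : Finset T).card = 4 := by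
    rw [card_insert_of_notMem, card_insert_of_notMem, card_insert_of_notMem, card_singleton]
    · simp only [mem_singleton]; exact e2.symm
    · simp only [mem_insert, mem_singleton]
      rintro (h3 | h3)
      · exact h2 h3.symm
      · exact e4 h3.symm
    · simp only [mem_insert, mem_singleton]
      rintro (h3 | h3 | h3)
      · exact e1 h3.symm
      · exact h1 h3.symm
      · exact e3 h3.symm
  have := card_le_card hsub
  omega

theorem TwoFaces_sum (f : Perm T) {x y z w : T} (h1 : f.SameCycle x y) (h2 : f.SameCycle z w)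
    (t : T) :
    ∑ u ∈ univ.filter (fun u => f.SameCycle t u),
      (((if u = x then 1 else 0) + (if u = y then 1 else 0)) +
        ((if u = z then 1 else 0) + (if u = w then 1 else 0)) : ZMod 2) = 0 := by
  classical
  have key : ∀ v : T, ∑ u ∈ univ.filter (fun u => f.SameCycle t u),
      (if u = v then (1 : ZMod 2) else 0) = if f.SameCycle t v then 1 else 0 := by
    intro v
    rw [sum_ite_eq']
    simp only [mem_filter, mem_univ, true_and]
  rw [sum_add_distrib, sum_add_distrib, sum_add_distrib, key, key, key, key]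
  have e1 : f.SameCycle t x ↔ f.SameCycle t y := ⟨fun h => h.trans h1, fun h => h.trans h1.symm⟩
  have e2 : f.SameCycle t z ↔ f.SameCycle t w := ⟨fun h => h.trans h2, fun h => h.trans h2.symm⟩
  have two : ∀ c : ZMod 2, c + c = 0 := by decide
  simp only [e1, e2, two]

/-- Two different faces sharing two vertices share the edge between them.  Here: the corners `t₁`, `t₂` are
in one face, `t₁'`, `t₂'` in another one, `t₁, t₁'` at one vertex and `t₂, t₂'` at another one; then the
closed set with these four boundary corners, or its complement, is a single edge, so one of the two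
sectors at the vertex of `t₁` consists of one dart: `s t₁ = t₁'` or `s t₁' = t₁`. -/
theorem Rg3.two_faces (h : Good a s) (hR : Rg3 a s) {t₁ t₂ t₁' t₂' : T}
    (hf : (a * s).SameCycle t₁ t₂) (hf' : (a * s).SameCycle t₁' t₂')
    (hff : ¬ (a * s).SameCycle t₁ t₁') (hv : s.SameCycle t₁ t₁') (hv' : s.SameCycle t₂ t₂')
    (hvv : ¬ s.SameCycle t₁ t₂) : s t₁ = t₁' ∨ s t₁' = t₁ := by
  classical
  set j : T → ZMod 2 := fun u => ((if u = t₁ then 1 else 0) + (if u = t₁' then 1 else 0)) +
        ((if u = t₂ then 1 else 0) + (if u = t₂' then 1 else 0)) with hj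
  have hj1 : ∀ t, ∑ x ∈ univ.filter (fun x => s.SameCycle t x), j x = 0 :=
    fun t => by convert TwoFaces_sum s hv hv' t
  have hj2 : ∀ t, ∑ x ∈ univ.filter (fun x => (a * s).SameCycle t x), j x = 0 := by
    intro t
    have h1 := TwoFaces_sum (a * s) hf hf' t
    rw [← h1]
    convert rfl using 2 with u hu
    simp only [hj]
    ring
  obtain ⟨p, hp1, hp2⟩ := (Pl_iff_sums h.inv).1 h.pl j hj1 hj2
  have n1 : t₁ ≠ t₁' := fun h1 => hff (h1 ▸ Perm.SameCycle.refl _ _)
  have n2 : t₁ ≠ t₂ := fun h1 => hvv (h1 ▸ Perm.SameCycle.refl _ _)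
  have n3 : t₁ ≠ t₂' := fun h1 => hvv (h1 ▸ hv'.symm)
  have hjt : j t₁ = 1 := by
    show (((if t₁ = t₁ then 1 else 0) + (if t₁ = t₁' then 1 else 0)) +
        ((if t₁ = t₂ then 1 else 0) + (if t₁ = t₂' then 1 else 0)) : ZMod 2) = 1
    rw [if_pos rfl, if_neg n1, if_neg n2, if_neg n3]
    decide
  have hj0 : ∀ u, j u ≠ 0 → u = t₁ ∨ u = t₁' ∨ u = t₂ ∨ u = t₂' := by
    intro u hu
    by_contra hcon
    push Not at hcon
    apply hu
    simp only [hj]
    rw [if_neg hcon.1, if_neg hcon.2.1, if_neg hcon.2.2.1, if_neg hcon.2.2.2]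
    decide
  have hjv : ∀ u, j u ≠ 0 → s.SameCycle t₁ u → u = t₁ ∨ u = t₁' := by
    intro u hu hs
    rcases hj0 u hu with h1 | h1 | h1 | h1
    · exact Or.inl h1
    · exact Or.inr h1
    · rw [h1] at hs; exact absurd hs hvv
    · rw [h1] at hs; exact absurd (hs.trans hv'.symm) hvv
  set A : Finset T := univ.filter fun t => p t = 1 with hA
  have hmem : ∀ t, t ∈ A ↔ p t = 1 := fun t => by simp [hA]
  have hclA : Cl a A := by
    intro t
    rw [hmem, hmem, hp1]
  have hz : ∀ c d : ZMod 2, (¬ (c = 1 ↔ d = 1)) ↔ c + d ≠ 0 := by decide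
  have hbd : ∀ t, ¬ (t ∈ A ↔ s t ∈ A) ↔ j t ≠ 0 := by
    intro t
    rw [hmem, hmem, hz, hp2]
  have hcut : cut s A ≤ 4 := by
    unfold cut
    refine (card_le_card (t := {t₁, t₁', t₂, t₂'}) ?_).trans card_le_four
    intro u hu
    rw [mem_bd, hbd] at hu
    simp only [mem_insert, mem_singleton]
    exact hj0 u hu
  -- the small side
  obtain ⟨B, hB, hBc, hBd⟩ : ∃ B : Finset T, Cl a B ∧ B.card < 4 ∧
      ∀ t, ¬ (t ∈ B ↔ s t ∈ B) ↔ j t ≠ 0 := by
    by_cases h1 : A.card < 4
    · exact ⟨A, hclA, h1, hbd⟩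
    · refine ⟨Aᶜ, hclA.compl, ?_, ?_⟩
      · by_contra h2
        have h3 := card_compl A
        have h4 := card_le_univ A
        have := hR.2 A hclA (by omega) (by omega)
        omega
      · intro t
        rw [← hbd, mem_compl, mem_compl]
        tauto
  have ht := (hBd t₁).2 (by rw [hjt]; decide)
  have hinv : s (s⁻¹ t₁) = t₁ := s.apply_symm_apply t₁
  by_cases hm : t₁ ∈ B
  · right
    have hu : s⁻¹ t₁ ∉ B := by
      intro h1
      have h2 := TwoFaces_small h hB hBc h1
      rw [hinv] at h2
      exact h2 hm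
    have hju : j (s⁻¹ t₁) ≠ 0 := by
      rw [← hBd, hinv]
      tauto
    have hsc : s.SameCycle t₁ (s⁻¹ t₁) := ⟨-1, by simp⟩
    rcases hjv _ hju hsc with h1 | h1
    · rw [h1] at hu; exact absurd hm hu
    · rw [← h1, hinv]
  · left
    have hs : s t₁ ∈ B := by
      by_contra h1
      apply ht
      tauto
    have hu := TwoFaces_small h hB hBc hs
    have hju : j (s t₁) ≠ 0 := by
      rw [← hBd]
      tauto
    have hsc : s.SameCycle t₁ (s t₁) := ⟨1, by simp⟩
    rcases hjv _ hju hsc with h1 | h1
    · rw [h1] at hs; exact absurd hs hm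
    · exact h1

end

end PGr
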