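import Pool.Agent.PGc.CDefs

/-! # Module UFun: the function `uf` -/

set_option linter.unusedSectionVars false

namespace PGr
open Set

variable {s v : ℝ}

namespace UFun

/-- the argument `z` -/
noncomputable def zf (s v : ℝ) : ℝ := s * v / (1 - v) ^ 2

noncomputable def wf (s v : ℝ) : ℝ := Real.sqrt (1 + 4 * zf s v)

theorem zf_nonneg (hs : 0 < s) (h0 : 0 ≤ v) : 0 ≤ zf s v :=
  div_nonneg (mul_nonneg hs.le h0) (sq_nonneg _)

theorem zf_pos (hs : 0 < s) (h0 : 0 < v) (h1 : v < 1) : 0 < zf s v :=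
  div_pos (mul_pos hs h0) (pow_pos (by linarith) 2)

theorem wf_sq (hs : 0 < s) (h0 : 0 ≤ v) : wf s v ^ 2 = 1 + 4 * zf s v :=
  Real.sq_sqrt (by have := zf_nonneg hs h0; linarith)

theorem wf_one_le (hs : 0 < s) (h0 : 0 ≤ v) : 1 ≤ wf s v :=
  Real.one_le_sqrt.2 (by have := zf_nonneg hs h0; linarith)

theorem wf_one_lt (hs : 0 < s) (h0 : 0 < v) (h1 : v < 1) : 1 < wf s v := by
  have h2 := wf_one_le hs h0.le
  have h3 := wf_sq hs h0.le
  have h4 := zf_pos hs h0 h1
  rcases h2.lt_or_eq with h | h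
  · exact h
  · rw [← h] at h3
    linarith

theorem uf_w (hs : 0 < s) (h0 : 0 ≤ v) : uf s v = (wf s v - 1) / (wf s v + 1) := by
  have h2 := wf_one_le hs h0
  have h3 := wf_sq hs h0
  have h4 : uf s v = 2 * zf s v / (1 + 2 * zf s v + wf s v) := rfl
  rw [h4, div_eq_div_iff (by have := zf_nonneg hs h0; positivity) (by positivity)]
  have h5 : zf s v = (wf s v ^ 2 - 1) / 4 := by linarith
  rw [h5]
  ring

end UFun

open UFun

theorem uf_pos (hs : 0 < s) (h0 : 0 < v) (h1 : v < 1) : 0 < uf s v := by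
  have h2 := wf_one_lt hs h0 h1
  rw [uf_w hs h0.le]
  exact div_pos (by linarith) (by linarith)

theorem uf_lt_one (hs : 0 < s) (h0 : 0 < v) (h1 : v < 1) : uf s v < 1 := by
  have h2 := wf_one_lt hs h0 h1
  rw [uf_w hs h0.le, div_lt_one (by linarith)]
  linarith

/-- with `z = s v / (1 - v)^2` this is `u = z (1 - u)^2` -/
theorem uf_eq (hs : 0 < s) (h0 : 0 < v) (h1 : v < 1) :
    uf s v * (1 - v) ^ 2 = s * v * (1 - uf s v) ^ 2 := by
  have h2 := wf_one_lt hs h0 h1
  have h3 := wf_sq hs h0.le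
  have hv : (1 - v) ^ 2 ≠ 0 := (pow_pos (by linarith) 2).ne'
  have h5 : s * v = zf s v * (1 - v) ^ 2 := (div_mul_cancel₀ _ hv).symm
  have h6 : uf s v = zf s v * (1 - uf s v) ^ 2 := by
    have h7 : zf s v = (wf s v ^ 2 - 1) / 4 := by linarith
    rw [uf_w hs h0.le, h7]
    have h8 : wf s v + 1 ≠ 0 := by linarith
    field_simp
    ring
  rw [h5]
  calc uf s v * (1 - v) ^ 2 = (zf s v * (1 - uf s v) ^ 2) * (1 - v) ^ 2 := by rw [← h6]
    _ = _ := by ring

/-- `u / (1 - u)^2` is strictly increasing on `(0, 1)` -/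
theorem uf_unique (hs : 0 < s) (h0 : 0 < v) (h1 : v < 1) {u : ℝ} (hu0 : 0 < u) (hu1 : u < 1)
    (h : u * (1 - v) ^ 2 = s * v * (1 - u) ^ 2) : u = uf s v := by
  have h2 := uf_eq hs h0 h1
  have h3 := uf_pos hs h0 h1
  have h4 := uf_lt_one hs h0 h1
  have hsv : s * v ≠ 0 := (mul_pos hs h0).ne'
  have h5 : s * v * ((u - uf s v) * (1 - u * uf s v)) = 0 := by
    have h6 : s * v * (u * (1 - uf s v) ^ 2) = s * v * (uf s v * (1 - u) ^ 2) := by
      calc s * v * (u * (1 - uf s v) ^ 2) = u * (s * v * (1 - uf s v) ^ 2) := by ring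
        _ = u * (uf s v * (1 - v) ^ 2) := by rw [h2]
        _ = uf s v * (u * (1 - v) ^ 2) := by ring
        _ = uf s v * (s * v * (1 - u) ^ 2) := by rw [h]
        _ = _ := by ring
    linear_combination h6
  rcases mul_eq_zero.1 ((mul_eq_zero.1 h5).resolve_left hsv) with h7 | h7
  · linarith
  · exfalso
    have : u * uf s v < 1 := by nlinarith
    linarith

theorem uf_zero : uf s 0 = 0 := by simp [uf]

theorem UFun.zf_lt (hs : 0 < s) {v' : ℝ} (h0 : 0 ≤ v) (h : v < v') (h1 : v' < 1) : zf s v < zf s v' := by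
  unfold zf
  have a1 : 0 < 1 - v := by linarith
  have a2 : 0 < 1 - v' := by linarith
  rw [div_lt_div_iff₀ (by positivity) (by positivity)]
  have h2 : (1 - v') ^ 2 ≤ (1 - v) ^ 2 := by nlinarith
  have h3 : v * (1 - v') ^ 2 < v' * (1 - v) ^ 2 := by
    calc v * (1 - v') ^ 2 ≤ v * (1 - v) ^ 2 := mul_le_mul_of_nonneg_left h2 h0
      _ < v' * (1 - v) ^ 2 := mul_lt_mul_of_pos_right h (by positivity)
  nlinarith

theorem uf_strictMono (hs : 0 < s) {v' : ℝ} (h0 : 0 < v) (h : v < v') (h1 : v' < 1) :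
    uf s v < uf s v' := by
  have h2 := UFun.zf_lt hs h0.le h h1
  have h3 : wf s v < wf s v' := by
    unfold wf
    exact Real.sqrt_lt_sqrt (by have := zf_nonneg hs h0.le; linarith) (by linarith)
  have h4 := wf_one_lt hs h0 (h.trans h1)
  rw [uf_w hs h0.le, uf_w hs (h0.trans h).le, div_lt_div_iff₀ (by linarith) (by linarith)]
  nlinarith

theorem UFun.zf_hasDerivAt (h1 : v < 1) :
    HasDerivAt (zf s) (s * (1 + v) / (1 - v) ^ 3) v := by
  have hv : 1 - v ≠ 0 := by linarith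
  have e1 : HasDerivAt (fun v : ℝ => s * v) s v := by
    simpa using (hasDerivAt_id v).const_mul s
  have e2 : HasDerivAt (fun v : ℝ => (1 - v) ^ 2) (-(2 * (1 - v))) v := by
    exact (((hasDerivAt_id v).const_sub 1).pow 2).congr_deriv (by simp)
  have e3 := e1.div e2 (pow_ne_zero 2 hv)
  have e4 : zf s = (fun v : ℝ => s * v) / (fun v : ℝ => (1 - v) ^ 2) := rfl
  rw [e4]
  refine e3.congr_deriv ?_
  field_simp
  ring

theorem UFun.wf_hasDerivAt (hs : 0 < s) (h0 : 0 ≤ v) (h1 : v < 1) :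
    HasDerivAt (wf s) (2 * (s * (1 + v)) / ((1 - v) ^ 3 * wf s v)) v := by
  have h2 := UFun.zf_hasDerivAt (s := s) h1
  have h3 : HasDerivAt (fun v => 1 + 4 * zf s v) (4 * (s * (1 + v) / (1 - v) ^ 3)) v := (h2.const_mul 4).const_add 1
  have h4 := h3.sqrt (by have := zf_nonneg hs h0; positivity)
  have hw : Real.sqrt (1 + 4 * zf s v) = wf s v := rfl
  rw [hw] at h4
  have h5 := wf_one_le hs h0
  have hv : 1 - v ≠ 0 := by linarith
  refine HasDerivAt.congr_deriv h4 ?_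
  field_simp
  ring

theorem UFun.uf_w_ev (hs : 0 < s) (h0 : 0 < v) : uf s =ᶠ[nhds v] fun v => (wf s v - 1) / (wf s v + 1) := by
  filter_upwards [lt_mem_nhds h0] with x hx
  exact uf_w hs (le_of_lt hx)

theorem uf_hasDerivAt (hs : 0 < s) (h0 : 0 < v) (h1 : v < 1) :
    HasDerivAt (uf s) (uf s v * (1 - uf s v) * (1 + v) / ((1 + uf s v) * v * (1 - v))) v := by
  have h2 := UFun.wf_hasDerivAt hs h0.le h1
  have h3 := wf_one_lt hs h0 h1
  have h4 := wf_sq hs h0.le
  have h5 := (h2.sub_const 1).div (h2.add_const 1) (by linarith)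
  have h6 : HasDerivAt (uf s) _ v := h5.congr_of_eventuallyEq (UFun.uf_w_ev hs h0)
  refine h6.congr_deriv ?_
  rw [uf_w hs h0.le]
  have hv : 1 - v ≠ 0 := by linarith
  have hs' : s = (wf s v ^ 2 - 1) * (1 - v) ^ 2 / (4 * v) := by
    rw [h4]
    unfold zf
    field_simp
    ring
  have hw1 : wf s v + 1 ≠ 0 := by linarith
  have hw0 : wf s v ≠ 0 := by linarith
  generalize wf s v = w at *
  subst hs'
  have hw2 : 1 + (w - 1) / (w + 1) = 2 * w / (w + 1) := by
    field_simp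
    ring
  rw [hw2]
  field_simp
  ring

theorem uf_analyticAt (hs : 0 < s) (h0 : 0 < v) (h1 : v < 1) : AnalyticAt ℝ (uf s) v := by
  apply ContDiffAt.analyticAt
  have hv : (1 - v) ^ 2 ≠ 0 := pow_ne_zero 2 (by linarith)
  have e1 : ContDiffAt ℝ (⊤ : WithTop ℕ∞) (fun v : ℝ => s * v / (1 - v) ^ 2) v := by
    refine ContDiffAt.div ?_ ?_ hv
    · fun_prop
    · fun_prop
  have e2 : ContDiffAt ℝ (⊤ : WithTop ℕ∞) (fun v : ℝ => 1 + 4 * (s * v / (1 - v) ^ 2)) v := by fun_prop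
  have hz := zf_pos hs h0 h1
  have e3 : ContDiffAt ℝ (⊤ : WithTop ℕ∞) (fun v : ℝ => Real.sqrt (1 + 4 * (s * v / (1 - v) ^ 2))) v :=
    e2.sqrt (by
      have : s * v / (1 - v) ^ 2 = zf s v := rfl
      rw [this]
      positivity)
  unfold uf
  refine ContDiffAt.div ?_ ?_ ?_
  · fun_prop
  · fun_prop
  · have : s * v / (1 - v) ^ 2 = zf s v := rfl
    rw [this]
    positivity

theorem uf_continuousOn (hs : 0 < s) : ContinuousOn (uf s) (Ico 0 1) := by
  have e1 : ContinuousOn (fun v : ℝ => s * v / (1 - v) ^ 2) (Ico 0 1) := by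
    refine ContinuousOn.div (by fun_prop) (by fun_prop) fun v hv => ?_
    exact pow_ne_zero 2 (by have := hv.2; linarith)
  unfold uf
  refine ContinuousOn.div (by fun_prop) (by fun_prop) fun v hv => ?_
  have hz := zf_nonneg hs hv.1
  have : s * v / (1 - v) ^ 2 = zf s v := rfl
  rw [this]
  positivity

end PGr
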